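import Pool.Agent.Lib.MP_acd137_lc.Spec

set_option autoImplicit false

namespace Pool.Agent.Lib.MP_acd137_lc

open Filter Topology

/-- the main theorem from the statements of the Spec -/
theorem asm (hf1 : S_f1) (hf2 : S_f2) (hf3 : S_f3) (hbr : S_breaks) (hirr : S_irr) (hnl : S_nonL)
    (hlac : S_lac) (hch : S_champ) (haut : S_aut) : S_main := by
  refine ⟨?_, hlac, ?_⟩
  · intro b c x hb hc hbc hx hs
    refine ⟨hf1 b c x hb hc hbc hx hs, hf2 b c x hb hc hbc hx hs, ?_, ?_⟩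
    · intro hL
      rw [tendsto_atTop]
      intro r
      filter_upwards [hf3 b c x hb hc hbc hx hs hL ⌈r⌉₊, eventually_ge_atTop 1] with n hn hn1
      have hn0 : (0 : ℝ) < n := by exact_mod_cast hn1
      rw [le_div_iff₀ hn0]
      have h1 : ((⌈r⌉₊ : ℕ) : ℝ) * n < complexity c x n := by exact_mod_cast hn
      have h2 : r ≤ (⌈r⌉₊ : ℕ) := Nat.le_ceil r
      nlinarith
    · intro k hk hA
      obtain ⟨C, hC⟩ := haut k c x hk hc hA
      obtain ⟨n, hn, hn1⟩ := ((hf2 b c x hb hc hbc hx hs C).and_eventually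
        (eventually_ge_atTop 1)).exists
      exact absurd (hC n hn1) (not_le.2 hn)
  · obtain ⟨g, q, A, h1, h2, h3⟩ := hch
    have h2' : ∀ᶠ k in atTop, (A k : ℝ) / (q k * ((10 : ℕ) : ℝ) ^ g k) ≠
        A (k + 1) / (q (k + 1) * ((10 : ℕ) : ℝ) ^ g (k + 1)) := by
      simpa using h2
    exact ⟨hbr 10 champ g q A (by norm_num) h1, hirr 10 champ g q A (by norm_num) h1 h2',
      hnl 10 30 champ g q A (by norm_num) h1 h2' h3⟩

end Pool.Agent.Lib.MP_acd137_lc
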