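import Pool.Agent.Lib.MP_acd137_lc.Spec

set_option autoImplicit false

namespace Pool.Agent.Lib.MP_acd137_lc

open Filter Topology

namespace AutAux

private def st (k : ℕ) {Q : Type} (δ : Q → ℕ → Q) (q₀ : Q) (m : ℕ) : Q :=
  (Nat.digits k m).foldr (fun d s => δ s d) q₀

private def F (k : ℕ) {Q : Type} (δ : Q → ℕ → Q) : ℕ → Q → ℕ → Q
  | 0, s, _ => s
  | r + 1, s, j => δ (F k δ r s (j / k)) (j % k)

private theorem st_step (k : ℕ) (hk : 2 ≤ k) {Q : Type} (δ : Q → ℕ → Q) (q₀ : Q) (m : ℕ)
    (hm : 0 < m) : st k δ q₀ m = δ (st k δ q₀ (m / k)) (m % k) := by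
  unfold st
  rw [Nat.digits_def' (by omega) hm]
  rfl

private theorem st_F (k : ℕ) (hk : 2 ≤ k) {Q : Type} (δ : Q → ℕ → Q) (q₀ : Q) :
    ∀ (r a j : ℕ), 1 ≤ a → j < k ^ r →
      st k δ q₀ (k ^ r * a + j) = F k δ r (st k δ q₀ a) j := by
  intro r
  induction r with
  | zero =>
    intro a j _ hj
    have : j = 0 := by simpa using hj
    subst this
    simp [F]
  | succ r ih =>
    intro a j ha hj
    have hk0 : 0 < k := by omega
    have hpos : 0 < k ^ (r + 1) * a + j := by
      have : 0 < k ^ (r + 1) * a := Nat.mul_pos (pow_pos hk0 _) (by omega)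
      omega
    rw [st_step k hk δ q₀ _ hpos]
    have e : k ^ (r + 1) * a + j = j + k * (k ^ r * a) := by ring
    have h1 : (k ^ (r + 1) * a + j) / k = k ^ r * a + j / k := by
      rw [e, Nat.add_mul_div_left _ _ hk0, add_comm]
    have h2 : (k ^ (r + 1) * a + j) % k = j % k := by
      rw [e, Nat.add_mul_mod_self_left]
    rw [h1, h2]
    have hj' : j / k < k ^ r := by
      apply Nat.div_lt_of_lt_mul
      calc j < k ^ (r + 1) := hj
        _ = k * k ^ r := by ring
    rw [ih a (j / k) ha hj']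
    rfl

end AutAux

theorem tAut : S_aut := by
  intro k c x hk _ hA
  obtain ⟨Q, hQ, δ, q₀, out, hw⟩ := hA
  have hk0 : 0 < k := by omega
  refine ⟨(Nat.card Q * Nat.card Q + 1) * k, ?_⟩
  intro n hn
  obtain ⟨K, hK⟩ : ∃ K, K = k ^ (Nat.log k n + 1) := ⟨_, rfl⟩
  have hnK : n < K := by
    rw [hK]
    exact Nat.lt_pow_succ_log_self (by omega) n
  have hKn : K ≤ k * n := by
    rw [hK, pow_succ, mul_comm]
    exact Nat.mul_le_mul_left k (Nat.pow_log_le_self k (by omega))
  have hK0 : 0 < K := by omega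
  have hw' : ∀ m, digit c x (m + 1) = out (AutAux.st k δ q₀ m) := hw
  let G : (Q × Q × Fin K) ⊕ Fin K → (Fin n → ℤ) := fun z => match z with
    | Sum.inl (s, s', j) => fun i : Fin n =>
        if (j : ℕ) + i < K then out (AutAux.F k δ (Nat.log k n + 1) s (j + i))
        else out (AutAux.F k δ (Nat.log k n + 1) s' (j + i - K))
    | Sum.inr j => fun i : Fin n => digit c x (j + 1 + i)
  have hsub : (Set.range fun m : ℕ => fun i : Fin n => digit c x (m + 1 + i)) ⊆ Set.range G := by
    rintro f ⟨m, rfl⟩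
    by_cases hm : m < K
    · exact ⟨Sum.inr ⟨m, hm⟩, rfl⟩
    · refine ⟨Sum.inl (AutAux.st k δ q₀ (m / K), AutAux.st k δ q₀ (m / K + 1),
        ⟨m % K, Nat.mod_lt _ hK0⟩), ?_⟩
      funext i
      have hi : (i : ℕ) < n := i.2
      have ha : 1 ≤ m / K := by
        rw [Nat.one_le_div_iff hK0]
        omega
      have hdm : K * (m / K) + m % K = m := Nat.div_add_mod m K
      have hml : m % K < K := Nat.mod_lt _ hK0
      have e1 : m + 1 + (i : ℕ) = (m + i) + 1 := by ring
      show (if m % K + (i : ℕ) < K then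
          out (AutAux.F k δ (Nat.log k n + 1) (AutAux.st k δ q₀ (m / K)) (m % K + i))
        else out (AutAux.F k δ (Nat.log k n + 1) (AutAux.st k δ q₀ (m / K + 1)) (m % K + i - K)))
          = digit c x (m + 1 + (i : ℕ))
      rw [e1, hw']
      by_cases hc : m % K + (i : ℕ) < K
      · rw [if_pos hc, ← AutAux.st_F k hk δ q₀ (Nat.log k n + 1) (m / K) (m % K + i) ha
          (by rw [← hK]; exact hc), ← hK]
        have : K * (m / K) + (m % K + (i : ℕ)) = m + i := by omega
        rw [this]
      · rw [if_neg hc, ← AutAux.st_F k hk δ q₀ (Nat.log k n + 1) (m / K + 1) (m % K + i - K)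
          (by omega) (by rw [← hK]; omega), ← hK]
        have h3 : K * (m / K + 1) = K * (m / K) + K := by ring
        have : K * (m / K + 1) + (m % K + (i : ℕ) - K) = m + i := by
          rw [h3]
          omega
        rw [this]
  have hcard : (Set.range G).ncard ≤ Nat.card Q * (Nat.card Q * K) + K := by
    have h1 : Nat.card (Set.range G) ≤ Nat.card ((Q × Q × Fin K) ⊕ Fin K) :=
      Finite.card_range_le G
    have h2 : Nat.card ((Q × Q × Fin K) ⊕ Fin K) = Nat.card Q * (Nat.card Q * K) + K := by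
      rw [Nat.card_sum, Nat.card_prod, Nat.card_prod, Nat.card_eq_fintype_card (α := Fin K),
        Fintype.card_fin]
    rw [h2] at h1
    exact h1
  have hle : complexity c x n ≤ (Set.range G).ncard :=
    Set.ncard_le_ncard hsub (Set.finite_range G)
  calc complexity c x n ≤ Nat.card Q * (Nat.card Q * K) + K := hle.trans hcard
    _ = (Nat.card Q * Nat.card Q + 1) * K := by ring
    _ ≤ (Nat.card Q * Nat.card Q + 1) * (k * n) := Nat.mul_le_mul_left _ hKn
    _ = (Nat.card Q * Nat.card Q + 1) * k * n := by ring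

end Pool.Agent.Lib.MP_acd137_lc
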