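import Pool.Agent.Lib.MP_acd137_lc.Spec

/-!
# MP_acd137_lc: a basis of finitely many sequences of rationals modulo an ultrafilter
-/

set_option autoImplicit false

namespace Pool.Agent.Lib.MP_acd137_lc

open Filter Topology

/-- the sequences which vanish along the ultrafilter -/
private def basisW (𝒰 : Ultrafilter ℕ) : Submodule ℚ (ℕ → ℚ) where
  carrier := {f | ∀ᶠ l in (𝒰 : Filter ℕ), f l = 0}
  add_mem' := by
    intro a b ha hb
    filter_upwards [ha, hb] with l h1 h2
    rw [Pi.add_apply, h1, h2, add_zero]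
  zero_mem' := Filter.Eventually.of_forall fun _ => rfl
  smul_mem' := by
    intro c a ha
    filter_upwards [ha] with l h1
    rw [Pi.smul_apply, h1, smul_zero]

private theorem basis_mem (𝒰 : Ultrafilter ℕ) (f : ℕ → ℚ) :
    f ∈ basisW 𝒰 ↔ ∀ᶠ l in (𝒰 : Filter ℕ), f l = 0 := Iff.rfl

theorem tBasis : S_basis := by
  intro ι _ 𝒰 f
  obtain ⟨κ, a, ha, hspan, hli⟩ := exists_linearIndependent' ℚ (fun j => (basisW 𝒰).mkQ (f j))
  have hfin : Finite κ := Finite.of_injective a ha
  have hft : Fintype κ := Fintype.ofFinite κ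
  let eq := Fintype.equivFin κ
  refine ⟨Fintype.card κ, a ∘ eq.symm, ha.comp eq.symm.injective, ?_, ?_⟩
  · intro z hz
    refine Ultrafilter.eventually_not.2 fun h => ?_
    apply hz
    have hli2 : LinearIndependent ℚ
        (fun i : Fin (Fintype.card κ) => (basisW 𝒰).mkQ (f (a (eq.symm i)))) :=
      hli.comp eq.symm eq.symm.injective
    have h2 := Fintype.linearIndependent_iff.1 hli2 z ?_
    · funext i
      exact h2 i
    · have h3 : ∑ i, z i • (basisW 𝒰).mkQ (f (a (eq.symm i))) =
          (basisW 𝒰).mkQ (∑ i, z i • f (a (eq.symm i))) := by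
        rw [map_sum]
        exact Finset.sum_congr rfl fun i _ => (map_smul _ _ _).symm
      rw [h3, Submodule.mkQ_apply, Submodule.Quotient.mk_eq_zero, basis_mem]
      filter_upwards [h] with l hl
      rw [Finset.sum_apply]
      simpa only [Pi.smul_apply, smul_eq_mul, Function.comp_apply] using hl
  · intro j
    have h1 : (basisW 𝒰).mkQ (f j) ∈
        Submodule.span ℚ (Set.range ((fun j => (basisW 𝒰).mkQ (f j)) ∘ a)) := by
      rw [hspan]
      exact Submodule.subset_span ⟨j, rfl⟩
    obtain ⟨c, hc⟩ := (Submodule.mem_span_range_iff_exists_fun ℚ).1 h1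
    refine ⟨fun i => c (eq.symm i), ?_⟩
    have h3 : (basisW 𝒰).mkQ (f j - ∑ i, c i • f (a i)) = 0 := by
      rw [map_sub, map_sum, ← hc, sub_eq_zero]
      exact Finset.sum_congr rfl fun i _ => (map_smul _ _ _).symm
    rw [Submodule.mkQ_apply, Submodule.Quotient.mk_eq_zero, basis_mem] at h3
    filter_upwards [h3] with l hl
    rw [Pi.sub_apply, Finset.sum_apply, sub_eq_zero] at hl
    rw [hl]
    simp only [Pi.smul_apply, smul_eq_mul, Function.comp_apply]
    exact (Equiv.sum_comp eq.symm (fun i => c i * f (a i) l)).symm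

end Pool.Agent.Lib.MP_acd137_lc
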