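import Pool.Agent.Lib.MP_acd137_lc.Spec

set_option autoImplicit false

namespace Pool.Agent.Lib.MP_acd137_lc

open Filter Topology

/-- geometric growth from an index on -/
private theorem growth (g : ℕ → ℕ) (k₀ k : ℕ) (hk : k₀ ≤ k)
    (hgap : ∀ k, k₀ ≤ k → 3 * g k ≤ 2 * g (k + 1)) (j : ℕ) :
    (3 / 2 : ℝ) ^ j * g k ≤ g (k + j) := by
  induction j with
  | zero => simp
  | succ j ih =>
    have h1 := hgap (k + j) (by omega)
    have h2 : (3 : ℝ) * g (k + j) ≤ 2 * g (k + j + 1) := by exact_mod_cast h1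
    have h3 : (k + (j + 1)) = k + j + 1 := by omega
    rw [h3, pow_succ]
    nlinarith [ih]

/-- (breaks) Numbers with break points are simple. -/
theorem tBreaks : S_breaks := by
  intro b x g q A hb hB ε hε
  obtain ⟨hg, hgap, hq1, hqs, happ⟩ := hB
  have hb1 : (1 : ℝ) < b := by exact_mod_cast (by omega : 1 < b)
  have hb0 : (0 : ℝ) < b := by linarith
  obtain ⟨R0, hR0⟩ := pow_unbounded_of_one_lt (1 / ε) (by norm_num : (1 : ℝ) < 3 / 2)
  refine ⟨R0 + 1, fun η hη => ?_⟩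
  -- from k₀ on everything holds
  obtain ⟨k₀, hk₀⟩ : ∃ k₀, ∀ k, k₀ ≤ k → 1 ≤ g k ∧ 3 * g k ≤ 2 * g (k + 1) ∧
      (q k : ℝ) ≤ (b : ℝ) ^ (η / 2 * g k) ∧
      |(b : ℝ) ^ g k * x - A k / q k| ≤ b * ((b : ℝ) ^ (g (k + 1) - g k))⁻¹ := by
    have h := (hg.eventually_ge_atTop 1).and (hgap.and ((hqs (η / 2) (by positivity)).and happ))
    exact eventually_atTop.mp h
  have hmono : ∀ k, k₀ ≤ k → g k ≤ g (k + 1) := fun k hk => by
    have := (hk₀ k hk).2.1
    omega
  filter_upwards [eventually_ge_atTop ⌈(g k₀ : ℝ) / ε⌉₊, eventually_ge_atTop ⌈2 / η⌉₊,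
    eventually_ge_atTop 1] with N hN1 hN2 hN3
  have hN1' : (g k₀ : ℝ) ≤ ε * N := by
    have h : (g k₀ : ℝ) / ε ≤ N := (Nat.le_ceil _).trans (Nat.cast_le.mpr hN1)
    rw [div_le_iff₀ hε] at h
    linarith
  have hN2' : 1 ≤ η / 2 * N := by
    have h : 2 / η ≤ (N : ℝ) := (Nat.le_ceil _).trans (Nat.cast_le.mpr hN2)
    rw [div_le_iff₀ hη] at h
    linarith
  -- the first index with g k - 1 > ε N
  have hex : ∃ k, k₀ ≤ k ∧ ε * N < ((g k - 1 : ℕ) : ℝ) := by
    obtain ⟨k, h1, h2⟩ := ((hg.eventually_ge_atTop (⌈ε * N⌉₊ + 2)).and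
      (eventually_ge_atTop k₀)).exists
    refine ⟨k, h2, ?_⟩
    have h3 : ε * N ≤ (⌈ε * N⌉₊ : ℝ) := Nat.le_ceil _
    have h4 : ⌈ε * N⌉₊ + 1 ≤ g k - 1 := by omega
    have h5 : ((⌈ε * N⌉₊ + 1 : ℕ) : ℝ) ≤ ((g k - 1 : ℕ) : ℝ) := by exact_mod_cast h4
    push_cast at h5
    linarith
  classical
  set k₁ := Nat.find hex with hk₁
  obtain ⟨hk₁a, hk₁b⟩ := Nat.find_spec hex
  rw [← hk₁] at hk₁a hk₁b
  have hk₁c : k₀ < k₁ := by
    rcases Nat.lt_or_ge k₀ k₁ with h | h
    · exact h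
    · have : k₁ = k₀ := le_antisymm h hk₁a
      rw [this] at hk₁b
      have h2 : ((g k₀ - 1 : ℕ) : ℝ) ≤ (g k₀ : ℝ) := by exact_mod_cast Nat.sub_le _ _
      linarith
  obtain ⟨k, hk⟩ : ∃ k, k₁ = k + 1 := ⟨k₁ - 1, by omega⟩
  have hkk : k₀ ≤ k := by omega
  have hkε : ((g k - 1 : ℕ) : ℝ) ≤ ε * N := by
    have h := Nat.find_min hex (by omega : k < k₁)
    push Not at h
    exact h hkk
  -- the places
  refine ⟨fun s => min (g (k + s) - 1) N, ?_, ?_, ?_, ?_⟩
  · apply monotone_nat_of_le_succ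
    intro s
    have h := hmono (k + s) (by omega)
    have h2 : k + (s + 1) = k + s + 1 := by omega
    simp only [h2]
    omega
  · have h1 : ((min (g (k + 0) - 1) N : ℕ) : ℝ) ≤ ((g k - 1 : ℕ) : ℝ) := by
      exact_mod_cast (min_le_left _ _)
    exact h1.trans hkε
  · have h1 := growth g k₀ k₁ hk₁a (fun k hk => (hk₀ k hk).2.1) R0
    have h2 : k + (R0 + 1) = k₁ + R0 := by omega
    have h3 : 1 ≤ g k₁ := (hk₀ k₁ hk₁a).1
    have h4 : ((g k₁ - 1 : ℕ) : ℝ) = (g k₁ : ℝ) - 1 := by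
      rw [Nat.cast_sub h3]
      simp
    have h5 : (N : ℝ) + 1 ≤ g (k₁ + R0) := by
      have h6 : ε * N + 1 < g k₁ := by
        rw [h4] at hk₁b
        linarith
      have h7 : (1 : ℝ) ≤ (3 / 2 : ℝ) ^ R0 := one_le_pow₀ (by norm_num)
      have h8 : 1 ≤ (3 / 2 : ℝ) ^ R0 * ε := by
        rw [div_lt_iff₀ hε] at hR0
        linarith
      have hN0 : (0 : ℝ) ≤ N := Nat.cast_nonneg _
      calc (N : ℝ) + 1 ≤ (3 / 2 : ℝ) ^ R0 * ε * N + (3 / 2 : ℝ) ^ R0 := by nlinarith
        _ = (3 / 2 : ℝ) ^ R0 * (ε * N + 1) := by ring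
        _ ≤ (3 / 2 : ℝ) ^ R0 * g k₁ := by
            apply mul_le_mul_of_nonneg_left h6.le (by positivity)
        _ ≤ _ := h1
    have h9 : N + 1 ≤ g (k₁ + R0) := by exact_mod_cast h5
    simp only [h2]
    omega
  · intro s _
    have h2 : k + (s + 1) = k + s + 1 := by omega
    simp only [h2]
    obtain ⟨ha, hb', hc, hd⟩ := hk₀ (k + s) (by omega)
    have hm := hmono (k + s) (by omega)
    rcases Nat.lt_or_ge (g (k + s) - 1) N with h | h
    · -- a proper piece
      have e1 : min (g (k + s) - 1) N = g (k + s) - 1 := min_eq_left h.le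
      rw [e1]
      have hqp := hq1 (k + s)
      have hq0 : (0 : ℝ) < q (k + s) := by exact_mod_cast hqp
      refine ⟨b * q (k + s), A (k + s), ?_, ?_, ?_⟩
      · exact Nat.mul_pos (by omega) hqp
      · have h3 : (g (k + s) : ℝ) ≤ N := by exact_mod_cast (by omega : g (k + s) ≤ N)
        push_cast
        calc (b : ℝ) * q (k + s) ≤ b * (b : ℝ) ^ (η / 2 * g (k + s)) :=
              mul_le_mul_of_nonneg_left hc hb0.le
          _ = (b : ℝ) ^ (1 + η / 2 * g (k + s)) := by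
              rw [Real.rpow_add hb0, Real.rpow_one]
          _ ≤ (b : ℝ) ^ (η * N) := by
              apply Real.rpow_le_rpow_of_exponent_le hb1.le
              nlinarith
      · have e2 : (b : ℝ) ^ g (k + s) = b * (b : ℝ) ^ (g (k + s) - 1) := by
          have : g (k + s) = (g (k + s) - 1) + 1 := by omega
          conv_lhs => rw [this]
          rw [pow_succ]
          ring
        have e3 : (b : ℝ) ^ g (k + s) * x - A (k + s) / q (k + s)
            = b * ((b : ℝ) ^ (g (k + s) - 1) * x - A (k + s) / ((b * q (k + s) : ℕ) : ℝ)) := by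
          rw [e2]
          push_cast
          field_simp
        rw [e3, abs_mul, abs_of_pos hb0] at hd
        have hd' := le_of_mul_le_mul_left hd hb0
        refine hd'.trans ?_
        apply inv_anti₀ (by positivity)
        apply pow_le_pow_right₀ hb1.le
        have h4 := min_le_left (g (k + s + 1) - 1) N
        omega
    · -- an empty piece
      have e1 : min (g (k + s) - 1) N = N := min_eq_right h
      have e2 : min (g (k + s + 1) - 1) N = N := min_eq_right (by omega)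
      rw [e1, e2]
      refine ⟨1, ⌊(b : ℝ) ^ N * x⌋, le_refl _, ?_, ?_⟩
      · rw [Nat.cast_one]
        apply Real.one_le_rpow hb1.le
        positivity
      · rw [Nat.sub_self, pow_zero, inv_one, Nat.cast_one, div_one]
        rw [abs_le]
        constructor
        · have := Int.floor_le ((b : ℝ) ^ N * x)
          linarith
        · have := Int.lt_floor_add_one ((b : ℝ) ^ N * x)
          linarith

end Pool.Agent.Lib.MP_acd137_lc
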