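import Pool.Agent.Lib.MP_acd137_lc.Spec

/-!
# Champernowne's number
-/

set_option autoImplicit false

namespace Pool.Agent.Lib.MP_acd137_lc

open Filter Topology

namespace ChampAux

/-! ### the number of digits -/

private theorem len_eq {k m : ℕ} (h1 : 10 ^ k ≤ m) (h2 : m < 10 ^ (k + 1)) :
    (Nat.digits 10 m).length = k + 1 := by
  have h0 : m ≠ 0 := by
    have := pow_pos (show 0 < 10 by norm_num) k
    omega
  rw [Nat.length_digits 10 m (by norm_num) h0, Nat.log_eq_of_pow_le_of_lt_pow h1 h2]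

private theorem cl_succ (n : ℕ) :
    champLen (n + 1) = champLen n + (Nat.digits 10 (n + 1)).length := by
  unfold champLen
  rw [Finset.sum_range_succ]

private theorem cl_mono : Monotone champLen := by
  refine monotone_nat_of_le_succ fun n => ?_
  rw [cl_succ]
  exact Nat.le_add_right _ _

/-- the first number of the block -/
private def N (k : ℕ) : ℕ := 10 ^ k - 1

/-- the break points -/
private def g (k : ℕ) : ℕ := champLen (N k)

private theorem N_add (k : ℕ) : N k + 1 = 10 ^ k := by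
  have := pow_pos (show 0 < 10 by norm_num) k
  unfold N
  omega

private theorem cl_add (k j : ℕ) (hj : j ≤ 9 * 10 ^ k) :
    champLen (N k + j) = g k + (k + 1) * j := by
  induction j with
  | zero => simp [g]
  | succ j ih =>
    rw [← add_assoc, cl_succ, ih (by omega)]
    have h1 : N k + j + 1 = 10 ^ k + j := by
      have := N_add k
      omega
    rw [h1, len_eq (k := k) (by omega) (by rw [pow_succ]; omega)]
    ring

private theorem N_succ (k : ℕ) : N (k + 1) = N k + 9 * 10 ^ k := by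
  have h1 := N_add k
  have h2 := N_add (k + 1)
  rw [pow_succ] at h2
  omega

private theorem g_succ (k : ℕ) : g (k + 1) = g k + (k + 1) * (9 * 10 ^ k) := by
  rw [← cl_add k _ le_rfl, ← N_succ]
  rfl

private theorem g_zero : g 0 = 0 := by
  simp [g, N, champLen]

private theorem g_le (k : ℕ) : g k ≤ k * 10 ^ k := by
  induction k with
  | zero => rw [g_zero]; exact Nat.zero_le _
  | succ k ih =>
    rw [g_succ, pow_succ]
    have hP : 0 < 10 ^ k := pow_pos (by norm_num) k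
    nlinarith

private theorem g_ge (k : ℕ) : 9 * (k + 1) * 10 ^ k ≤ g (k + 1) := by
  rw [g_succ]
  nlinarith

private theorem g_sq (k : ℕ) : 9 * (k + 1) ^ 2 ≤ g (k + 1) := by
  have h1 : k + 1 ≤ 10 ^ k := Nat.lt_pow_self (by norm_num)
  have h2 := g_ge k
  nlinarith

/-! ### the tail -/

/-- the terms -/
private noncomputable def f (n : ℕ) : ℝ := ((n : ℝ) + 1) / (10 : ℝ) ^ champLen (n + 1)

/-- the telescoping bounds -/
private noncomputable def u (n : ℕ) : ℝ := ((10 : ℝ) ^ champLen n)⁻¹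

private theorem f_nonneg (n : ℕ) : 0 ≤ f n := by
  unfold f
  positivity

private theorem u_pos (n : ℕ) : 0 < u n := by
  unfold u
  positivity

private theorem f_le (n : ℕ) : f n ≤ u n - u (n + 1) := by
  unfold f u
  rw [cl_succ]
  set L := (Nat.digits 10 (n + 1)).length with hL
  have h1 : n + 1 < 10 ^ L := Nat.lt_base_pow_length_digits (by norm_num)
  have h2 : (n : ℝ) + 1 + 1 ≤ (10 : ℝ) ^ L := by
    have : n + 1 + 1 ≤ 10 ^ L := h1
    exact_mod_cast this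
  have h3 : (0 : ℝ) < (10 : ℝ) ^ champLen n := by positivity
  have h4 : (0 : ℝ) < (10 : ℝ) ^ L := by positivity
  rw [pow_add]
  rw [← sub_nonneg]
  have e : ((10 : ℝ) ^ champLen n)⁻¹ - ((10 : ℝ) ^ champLen n * (10 : ℝ) ^ L)⁻¹ -
      ((n : ℝ) + 1) / ((10 : ℝ) ^ champLen n * (10 : ℝ) ^ L) =
      ((10 : ℝ) ^ L - 1 - ((n : ℝ) + 1)) / ((10 : ℝ) ^ champLen n * (10 : ℝ) ^ L) := by
    field_simp
  rw [e]
  refine div_nonneg (by linarith) (by positivity)

private theorem f_sum (M n : ℕ) : ∑ i ∈ Finset.range n, f (i + M) ≤ u M - u (M + n) := by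
  induction n with
  | zero => simp
  | succ n ih =>
    rw [Finset.sum_range_succ]
    have h1 := f_le (n + M)
    have h2 : M + (n + 1) = n + M + 1 := by ring
    have h3 : M + n = n + M := by ring
    rw [h2]
    rw [h3] at ih
    linarith

private theorem f_summable : Summable f := by
  refine summable_of_sum_range_le (c := u 0) f_nonneg fun n => ?_
  have h1 := f_sum 0 n
  simp only [add_zero] at h1
  have h2 := u_pos (0 + n)
  linarith

private theorem tail_nonneg (M : ℕ) : 0 ≤ ∑' i, f (i + M) := tsum_nonneg fun _ => f_nonneg _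

private theorem tail_le (M : ℕ) : ∑' i, f (i + M) ≤ u M := by
  refine Real.tsum_le_of_sum_range_le (fun _ => f_nonneg _) fun n => ?_
  have h1 := f_sum M n
  have h2 := u_pos (M + n)
  linarith

/-! ### the rational approximations -/

/-- the sum of the series -/
private noncomputable def Rr (w a : ℝ) : ℝ := a / (w - 1) + 1 / (w - 1) ^ 2

private theorem sumR (w a : ℝ) (h0 : w ≠ 0) (h1 : w - 1 ≠ 0) (J : ℕ) :
    ∑ j ∈ Finset.range J, (a + j) * (w⁻¹) ^ (j + 1) = Rr w a - (w⁻¹) ^ J * Rr w (a + J) := by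
  induction J with
  | zero => simp
  | succ J ih =>
    rw [Finset.sum_range_succ, ih]
    have e : Rr w (a + J) = (a + J) * w⁻¹ + w⁻¹ * Rr w (a + (J + 1 : ℕ)) := by
      unfold Rr
      push_cast
      field_simp
      ring
    rw [e, pow_succ]
    ring

/-- the integer part -/
private def I (k : ℕ) : ℤ :=
  ∑ i ∈ Finset.range (N k), ((i : ℤ) + 1) * 10 ^ (g k - champLen (i + 1))

private theorem I_eq (k : ℕ) : (I k : ℝ) = (10 : ℝ) ^ g k * ∑ i ∈ Finset.range (N k), f i := by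
  unfold I f
  push_cast
  rw [Finset.mul_sum]
  refine Finset.sum_congr rfl fun i hi => ?_
  have h1 : champLen (i + 1) ≤ g k := cl_mono (Finset.mem_range.mp hi)
  obtain ⟨m, hm⟩ := Nat.exists_eq_add_of_le h1
  rw [hm, Nat.add_sub_cancel_left, pow_add]
  field_simp

/-- the denominators -/
private def q (k : ℕ) : ℕ := (10 ^ (k + 1) - 1) ^ 2

/-- the numerators -/
private def A (k : ℕ) : ℤ := I k * (10 ^ (k + 1) - 1) ^ 2 + (10 ^ k * (10 ^ (k + 1) - 1) + 1)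

private theorem w_ge (k : ℕ) : (10 : ℝ) ≤ (10 : ℝ) ^ (k + 1) := by
  rw [pow_succ]
  have : (1 : ℝ) ≤ (10 : ℝ) ^ k := one_le_pow₀ (by norm_num)
  linarith

private theorem q_cast (k : ℕ) : (q k : ℝ) = ((10 : ℝ) ^ (k + 1) - 1) ^ 2 := by
  unfold q
  have h1 : 1 ≤ 10 ^ (k + 1) := Nat.one_le_pow _ _ (by norm_num)
  rw [Nat.cast_pow, Nat.cast_sub h1]
  push_cast
  ring

private theorem Aq (k : ℕ) : (A k : ℝ) / (q k : ℝ) = I k + Rr ((10 : ℝ) ^ (k + 1)) ((10 : ℝ) ^ k) := by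
  rw [q_cast]
  unfold A Rr
  push_cast
  have h1 := w_ge k
  have h2 : (10 : ℝ) ^ (k + 1) - 1 ≠ 0 := by
    intro h
    linarith
  field_simp

private theorem f_block (k j : ℕ) (hj : j < 9 * 10 ^ k) :
    (10 : ℝ) ^ g k * f (N k + j) =
      ((10 : ℝ) ^ k + j) * (((10 : ℝ) ^ (k + 1))⁻¹) ^ (j + 1) := by
  unfold f
  rw [add_assoc, cl_add k (j + 1) hj, pow_add, pow_mul]
  have h1 : ((N k + j : ℕ) : ℝ) + 1 = (10 : ℝ) ^ k + j := by
    have h2 : N k + j + 1 = 10 ^ k + j := by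
      have := N_add k
      omega
    have h3 : ((N k + j + 1 : ℕ) : ℝ) = ((10 ^ k + j : ℕ) : ℝ) := by rw [h2]
    push_cast at h3 ⊢
    exact h3
  rw [h1, inv_pow]
  field_simp

private theorem pow_block (k : ℕ) : (((10 : ℝ) ^ (k + 1))⁻¹) ^ (9 * 10 ^ k) =
    ((10 : ℝ) ^ (g (k + 1) - g k))⁻¹ := by
  rw [g_succ, Nat.add_sub_cancel_left, pow_mul (10 : ℝ) (k + 1), inv_pow]

private theorem main_est (k : ℕ) :
    |(10 : ℝ) ^ g k * champ - A k / q k| ≤ 10 * ((10 : ℝ) ^ (g (k + 1) - g k))⁻¹ := by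
  have hx : champ = ∑ i ∈ Finset.range (N (k + 1)), f i + ∑' i, f (i + N (k + 1)) :=
    (f_summable.sum_add_tsum_nat_add (N (k + 1))).symm
  have hs : ∑ i ∈ Finset.range (N (k + 1)), f i = ∑ i ∈ Finset.range (N k), f i +
      ∑ j ∈ Finset.range (9 * 10 ^ k), f (N k + j) := by
    rw [N_succ, Finset.sum_range_add]
  have hw := w_ge k
  have hw0 : (10 : ℝ) ^ (k + 1) ≠ 0 := by positivity
  have hw1 : (10 : ℝ) ^ (k + 1) - 1 ≠ 0 := by
    intro h
    linarith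
  have hb : (10 : ℝ) ^ g k * ∑ j ∈ Finset.range (9 * 10 ^ k), f (N k + j) =
      Rr ((10 : ℝ) ^ (k + 1)) ((10 : ℝ) ^ k) - ((10 : ℝ) ^ (g (k + 1) - g k))⁻¹ *
        Rr ((10 : ℝ) ^ (k + 1)) ((10 : ℝ) ^ (k + 1)) := by
    rw [Finset.mul_sum, Finset.sum_congr rfl fun j hj => f_block k j (Finset.mem_range.mp hj),
      sumR _ _ hw0 hw1, pow_block]
    have e : (10 : ℝ) ^ k + ((9 * 10 ^ k : ℕ) : ℝ) = (10 : ℝ) ^ (k + 1) := by
      push_cast
      ring
    rw [e]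
  have ht : (10 : ℝ) ^ g k * u (N (k + 1)) = ((10 : ℝ) ^ (g (k + 1) - g k))⁻¹ := by
    unfold u
    have e1 : champLen (N (k + 1)) = g k + (g (k + 1) - g k) := by
      have h1 : champLen (N (k + 1)) = g (k + 1) := rfl
      have h2 := g_succ k
      omega
    rw [e1, pow_add]
    field_simp
  set z : ℝ := ((10 : ℝ) ^ (g (k + 1) - g k))⁻¹ with hz
  have hz0 : 0 < z := by
    rw [hz]
    positivity
  have hp : (0 : ℝ) < (10 : ℝ) ^ g k := by positivity
  have t0 : 0 ≤ (10 : ℝ) ^ g k * ∑' i, f (i + N (k + 1)) := mul_nonneg hp.le (tail_nonneg _)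
  have t1 : (10 : ℝ) ^ g k * ∑' i, f (i + N (k + 1)) ≤ z := by
    rw [← ht]
    exact mul_le_mul_of_nonneg_left (tail_le _) hp.le
  have hR0 : 0 ≤ Rr ((10 : ℝ) ^ (k + 1)) ((10 : ℝ) ^ (k + 1)) := by
    unfold Rr
    have h1 : (0 : ℝ) ≤ (10 : ℝ) ^ (k + 1) - 1 := by linarith
    positivity
  have hR1 : Rr ((10 : ℝ) ^ (k + 1)) ((10 : ℝ) ^ (k + 1)) ≤ 2 := by
    unfold Rr
    have h1 : (0 : ℝ) < (10 : ℝ) ^ (k + 1) - 1 := by linarith
    have h2 : (10 : ℝ) ^ (k + 1) / ((10 : ℝ) ^ (k + 1) - 1) ≤ 10 / 9 := by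
      rw [div_le_div_iff₀ h1 (by norm_num)]
      linarith
    have h3 : 1 / ((10 : ℝ) ^ (k + 1) - 1) ^ 2 ≤ 1 / 81 := by
      refine one_div_le_one_div_of_le (by norm_num) ?_
      nlinarith
    linarith
  rw [Aq, hx, hs, mul_add, mul_add, ← I_eq, hb]
  have e : (I k : ℝ) + (Rr ((10 : ℝ) ^ (k + 1)) ((10 : ℝ) ^ k) -
      z * Rr ((10 : ℝ) ^ (k + 1)) ((10 : ℝ) ^ (k + 1))) +
      (10 : ℝ) ^ g k * ∑' i, f (i + N (k + 1)) -
      (I k + Rr ((10 : ℝ) ^ (k + 1)) ((10 : ℝ) ^ k)) =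
      (10 : ℝ) ^ g k * ∑' i, f (i + N (k + 1)) -
        z * Rr ((10 : ℝ) ^ (k + 1)) ((10 : ℝ) ^ (k + 1)) := by ring
  rw [e, abs_le]
  have h5 : 0 ≤ z * Rr ((10 : ℝ) ^ (k + 1)) ((10 : ℝ) ^ (k + 1)) := mul_nonneg hz0.le hR0
  have h6 : z * Rr ((10 : ℝ) ^ (k + 1)) ((10 : ℝ) ^ (k + 1)) ≤ z * 2 :=
    mul_le_mul_of_nonneg_left hR1 hz0.le
  constructor <;> linarith

/-! ### consecutive approximations are different -/

/-- the integer in the comparison -/
private def B (k : ℕ) : ℤ :=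
  ∑ j ∈ Finset.range (9 * 10 ^ k), ((10 : ℤ) ^ k + j) * ((10 : ℤ) ^ (k + 1)) ^ (9 * 10 ^ k - (j + 1))

private theorem B_eq (k : ℕ) : ((10 : ℝ) ^ (k + 1)) ^ (9 * 10 ^ k) *
    Rr ((10 : ℝ) ^ (k + 1)) ((10 : ℝ) ^ k) =
      B k + Rr ((10 : ℝ) ^ (k + 1)) ((10 : ℝ) ^ (k + 1)) := by
  have hw := w_ge k
  have hw0 : (10 : ℝ) ^ (k + 1) ≠ 0 := by positivity
  have hw1 : (10 : ℝ) ^ (k + 1) - 1 ≠ 0 := by
    intro h
    linarith
  have h1 := sumR ((10 : ℝ) ^ (k + 1)) ((10 : ℝ) ^ k) hw0 hw1 (9 * 10 ^ k)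
  have e : (10 : ℝ) ^ k + ((9 * 10 ^ k : ℕ) : ℝ) = (10 : ℝ) ^ (k + 1) := by
    push_cast
    ring
  rw [e] at h1
  have h2 : Rr ((10 : ℝ) ^ (k + 1)) ((10 : ℝ) ^ k) =
      ∑ j ∈ Finset.range (9 * 10 ^ k), ((10 : ℝ) ^ k + j) * (((10 : ℝ) ^ (k + 1))⁻¹) ^ (j + 1) +
      (((10 : ℝ) ^ (k + 1))⁻¹) ^ (9 * 10 ^ k) * Rr ((10 : ℝ) ^ (k + 1)) ((10 : ℝ) ^ (k + 1)) := by
    linarith
  rw [h2, mul_add, ← mul_assoc, ← mul_pow, mul_inv_cancel₀ hw0, one_pow, one_mul, add_left_inj]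
  unfold B
  push_cast
  rw [Finset.mul_sum]
  refine Finset.sum_congr rfl fun j hj => ?_
  obtain ⟨m, hm⟩ := Nat.exists_eq_add_of_le (Nat.succ_le_of_lt (Finset.mem_range.mp hj))
  have hm' : 9 * 10 ^ k = j + 1 + m := hm
  rw [hm', Nat.add_sub_cancel_left, pow_add _ (j + 1) m, inv_pow]
  field_simp

private theorem ne (k : ℕ) (hk : 1 ≤ k) :
    (A k : ℝ) / (q k * (10 : ℝ) ^ g k) ≠ A (k + 1) / (q (k + 1) * (10 : ℝ) ^ g (k + 1)) := by
  intro h
  have hw : (100 : ℝ) ≤ (10 : ℝ) ^ (k + 1) := by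
    have h1 : (10 : ℝ) ^ 2 ≤ (10 : ℝ) ^ (k + 1) := pow_le_pow_right₀ (by norm_num) (by omega)
    linarith
  have hg : (10 : ℝ) ^ g (k + 1) = (10 : ℝ) ^ g k * ((10 : ℝ) ^ (k + 1)) ^ (9 * 10 ^ k) := by
    rw [g_succ, pow_add, pow_mul (10 : ℝ) (k + 1)]
  have h1 : (10 : ℝ) ^ g (k + 1) * ((A k : ℝ) / (q k * (10 : ℝ) ^ g k)) =
      (10 : ℝ) ^ g (k + 1) * (A (k + 1) / (q (k + 1) * (10 : ℝ) ^ g (k + 1))) := by rw [h]
  have h2 : (10 : ℝ) ^ g (k + 1) * (A (k + 1) / (q (k + 1) * (10 : ℝ) ^ g (k + 1))) =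
      A (k + 1) / q (k + 1) := by
    have hp : (10 : ℝ) ^ g (k + 1) ≠ 0 := by positivity
    rw [← div_div, mul_div_cancel₀ _ hp]
  have h3 : (10 : ℝ) ^ g (k + 1) * ((A k : ℝ) / (q k * (10 : ℝ) ^ g k)) =
      ((10 : ℝ) ^ (k + 1)) ^ (9 * 10 ^ k) * (A k / q k) := by
    have hp : (10 : ℝ) ^ g k ≠ 0 := by positivity
    rw [hg, ← div_div]
    field_simp
  rw [h2, h3, Aq, Aq, mul_add, B_eq] at h1
  set w : ℝ := (10 : ℝ) ^ (k + 1) with hwdef
  have hw2 : (10 : ℝ) ^ (k + 1 + 1) = 10 * w := by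
    rw [hwdef, pow_succ (10 : ℝ) (k + 1)]
    ring
  rw [hw2] at h1
  -- the two fractional parts
  have p1 : Rr w w = 1 + (1 / (w - 1) + 1 / (w - 1) ^ 2) := by
    unfold Rr
    have hw1 : w - 1 ≠ 0 := by
      intro h
      linarith
    field_simp
    ring
  have p2 : 0 < 1 / (w - 1) + 1 / (w - 1) ^ 2 := by
    have : 0 < w - 1 := by linarith
    positivity
  have p3 : 1 / (w - 1) + 1 / (w - 1) ^ 2 < 1 / 20 := by
    have a1 : 1 / (w - 1) ≤ 1 / 99 := one_div_le_one_div_of_le (by norm_num) (by linarith)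
    have a2 : 1 / (w - 1) ^ 2 ≤ 1 / 99 := one_div_le_one_div_of_le (by norm_num) (by nlinarith)
    linarith
  have p4 : 1 / 10 < Rr (10 * w) w := by
    unfold Rr
    have a1 : 1 / 10 < w / (10 * w - 1) := by
      rw [div_lt_div_iff₀ (by norm_num) (by linarith)]
      linarith
    have a2 : 0 < 1 / (10 * w - 1) ^ 2 := by
      have : 0 < 10 * w - 1 := by linarith
      positivity
    linarith
  have p5 : Rr (10 * w) w < 1 / 2 := by
    unfold Rr
    have a1 : w / (10 * w - 1) ≤ 1 / 9 := by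
      rw [div_le_div_iff₀ (by linarith) (by norm_num)]
      linarith
    have a2 : 1 / (10 * w - 1) ^ 2 ≤ 1 / 99 :=
      one_div_le_one_div_of_le (by norm_num) (by nlinarith)
    linarith
  -- the integer between them
  obtain ⟨Z, hZ⟩ : ∃ Z : ℤ, (Z : ℝ) = w ^ (9 * 10 ^ k) * I k + B k + 1 - I (k + 1) := by
    refine ⟨((10 : ℤ) ^ (k + 1)) ^ (9 * 10 ^ k) * I k + B k + 1 - I (k + 1), ?_⟩
    rw [hwdef]
    push_cast
    ring
  have hZ1 : (Z : ℝ) = Rr (10 * w) w - (1 / (w - 1) + 1 / (w - 1) ^ 2) := by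
    rw [hZ]
    rw [p1] at h1
    linarith
  have z1 : (0 : ℝ) < Z := by
    rw [hZ1]
    linarith
  have z2 : (Z : ℝ) < 1 := by
    rw [hZ1]
    linarith
  have z3 : 0 < Z := by exact_mod_cast z1
  have z4 : Z < 1 := by exact_mod_cast z2
  omega

/-! ### the denominators are small -/

private theorem q_small (η : ℝ) (hη : 0 < η) (k : ℕ) (hk : 1 ≤ η * ((k : ℝ) + 1)) :
    (q (k + 1) : ℝ) ≤ (10 : ℝ) ^ (η * g (k + 1)) := by
  rw [q_cast]
  have h1 : ((10 : ℝ) ^ (k + 1 + 1) - 1) ^ 2 ≤ (10 : ℝ) ^ (2 * (k + 1 + 1)) := by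
    rw [mul_comm 2, pow_mul]
    have := w_ge (k + 1)
    nlinarith
  refine h1.trans ?_
  rw [← Real.rpow_natCast]
  refine Real.rpow_le_rpow_of_exponent_le (by norm_num) ?_
  have h2 : (9 * ((k : ℝ) + 1) ^ 2) ≤ g (k + 1) := by
    have := g_sq k
    exact_mod_cast this
  have h3 : η * (9 * ((k : ℝ) + 1) ^ 2) ≤ η * g (k + 1) := mul_le_mul_of_nonneg_left h2 hη.le
  have h4 : 9 * ((k : ℝ) + 1) * 1 ≤ 9 * ((k : ℝ) + 1) * (η * ((k : ℝ) + 1)) :=
    mul_le_mul_of_nonneg_left hk (by positivity)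
  push_cast
  have h5 : (0 : ℝ) ≤ k := Nat.cast_nonneg k
  nlinarith

end ChampAux

open ChampAux in
/-- **champ**.  Champernowne's number. -/
theorem tChamp : S_champ := by
  refine ⟨g, q, A, ⟨?_, ?_, ?_, ?_, ?_⟩, ?_, ?_⟩
  · refine tendsto_atTop_mono (fun k => ?_) tendsto_id
    rcases k with _ | k
    · exact Nat.zero_le _
    · have h1 := g_sq k
      show k + 1 ≤ g (k + 1)
      nlinarith
  · refine Eventually.of_forall fun k => ?_
    have h1 := g_le k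
    rw [g_succ]
    have hP : 0 < 10 ^ k := pow_pos (by norm_num) k
    nlinarith
  · intro k
    have h1 : 10 ≤ 10 ^ (k + 1) := by
      rw [pow_succ]
      have := pow_pos (show 0 < 10 by norm_num) k
      omega
    exact Nat.one_le_pow _ _ (by omega)
  · intro η hη
    obtain ⟨n, hn⟩ := exists_nat_ge (1 / η)
    filter_upwards [eventually_ge_atTop (n + 1)] with k hk
    obtain ⟨m, rfl⟩ := Nat.exists_eq_add_of_le' (show 1 ≤ k by omega)
    have h1 : (n : ℝ) ≤ m := by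
      exact_mod_cast (show n ≤ m by omega)
    have h2 := q_small η hη m (by
      rw [div_le_iff₀ hη] at hn
      nlinarith)
    exact_mod_cast h2
  · refine Eventually.of_forall fun k => ?_
    have h1 := main_est k
    exact_mod_cast h1
  · filter_upwards [eventually_ge_atTop 1] with k hk
    exact ne k hk
  · filter_upwards [eventually_ge_atTop 1] with k hk
    obtain ⟨m, rfl⟩ := Nat.exists_eq_add_of_le' hk
    rw [g_succ (m + 1)]
    have h1 := g_ge m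
    rw [pow_succ]
    have h2 : (m + 1 + 1) * (9 * (10 ^ m * 10)) ≤ 20 * (9 * (m + 1) * 10 ^ m) := by
      nlinarith [pow_pos (show 0 < 10 by norm_num) m]
    omega

end Pool.Agent.Lib.MP_acd137_lc
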