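import Pool.Agent.Lib.MP_acd137_lc.Spec

/-!
`S_clip`: cutting a chain at `N`.
-/

set_option autoImplicit false

namespace Pool.Agent.Lib.MP_acd137_lc

open Filter Topology

theorem tClip : S_clip := by
  intro b x η N R a hb hη hmono hR hp
  have hb0 : (0 : ℝ) < b := by
    have : 0 < b := by omega
    exact_mod_cast this
  have hb1 : (1 : ℝ) ≤ b := by
    have : 1 ≤ b := by omega
    exact_mod_cast this
  refine ⟨fun s => min (a s) N, ?_, ?_, ?_, ?_⟩
  · intro s t hst
    exact min_le_min_right N (hmono hst)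
  · exact min_le_left _ _
  · exact min_eq_right hR
  · intro s hs
    have hss : a s ≤ a (s + 1) := hmono (Nat.le_succ s)
    show ∃ (q : ℕ) (A : ℤ), 1 ≤ q ∧ (q : ℝ) ≤ (b : ℝ) ^ (η * N) ∧
      |(b : ℝ) ^ (min (a s) N) * x - A / q| ≤
        ((b : ℝ) ^ (min (a (s + 1)) N - min (a s) N))⁻¹
    rcases lt_or_ge (a s) N with h | h
    · rw [min_eq_left h.le]
      obtain ⟨q, A, hq1, hq2, hq3⟩ := hp s hs
      refine ⟨q, A, hq1, hq2, hq3.trans ?_⟩
      apply inv_anti₀ (by positivity)
      apply pow_le_pow_right₀ hb1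
      have := min_le_left (a (s + 1)) N
      omega
    · rw [min_eq_right h, min_eq_right (h.trans hss), Nat.sub_self, pow_zero, inv_one]
      refine ⟨1, ⌊(b : ℝ) ^ N * x⌋, le_rfl, ?_, ?_⟩
      · rw [Nat.cast_one]
        apply Real.one_le_rpow hb1
        positivity
      · rw [Nat.cast_one, div_one]
        have h1 := Int.floor_le ((b : ℝ) ^ N * x)
        have h2 := Int.lt_floor_add_one ((b : ℝ) ^ N * x)
        rw [abs_le]
        constructor <;> linarith

end Pool.Agent.Lib.MP_acd137_lc
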