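import Pool.Agent.Lib.MP_acd137_lc.Spec
import Pool.Agent.Lib.SubQ.Span

/-!
# MP_acd137_lc, Core: the application of the Subspace theorem
-/

set_option autoImplicit false

namespace Pool.Agent.Lib.MP_acd137_lc

open Filter Topology

namespace CoreAux

open SubQ

theorem val_le {p : ℕ} (hp : p.Prime) {z : ℤ} (hz : z ≠ 0) :
    (padicValInt p z : ℝ) * Real.log p ≤ Real.log |(z : ℝ)| := by
  have h1 : p ^ padicValNat p z.natAbs ∣ z.natAbs := pow_padicValNat_dvd
  have h2 : p ^ padicValNat p z.natAbs ≤ z.natAbs :=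
    Nat.le_of_dvd (Int.natAbs_pos.mpr hz) h1
  have h3 : ((p : ℝ)) ^ padicValNat p z.natAbs ≤ |(z : ℝ)| := by
    have h4 : ((p ^ padicValNat p z.natAbs : ℕ) : ℝ) ≤ ((z.natAbs : ℕ) : ℝ) := by exact_mod_cast h2
    rw [Nat.cast_natAbs] at h4
    push_cast at h4
    exact h4
  have hpos : (0 : ℝ) < (p : ℝ) ^ padicValNat p z.natAbs := by
    have : (0 : ℝ) < p := by exact_mod_cast hp.pos
    positivity
  have h5 := Real.log_le_log hpos h3
  rw [Real.log_pow] at h5
  exact h5

theorem log_nonneg' {z : ℤ} (hz : z ≠ 0) : 0 ≤ Real.log |(z : ℝ)| := by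
  apply Real.log_nonneg
  have : (1 : ℤ) ≤ |z| := Int.one_le_abs hz
  exact_mod_cast this

/-- the row `i` of the frame -/
noncomputable def fr {n : ℕ} (k : Fin n) (γ : Fin n → ℚ) (i : Fin n) : Fin n → ℚ :=
  if i = k then γ else Pi.single i 1

theorem fr_self {n : ℕ} (k : Fin n) (γ : Fin n → ℚ) : fr k γ k = γ := if_pos rfl

theorem fr_ne {n : ℕ} {k i : Fin n} (γ : Fin n → ℚ) (h : i ≠ k) : fr k γ i = Pi.single i 1 :=
  if_neg h

theorem fr_li {n : ℕ} (k : Fin n) (γ : Fin n → ℚ) (hγ : γ k ≠ 0) :
    LinearIndependent ℚ (fr k γ) := by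
  classical
  rw [Fintype.linearIndependent_iff]
  intro g hg
  have h1 : ∀ j, ∑ i, g i * fr k γ i j = 0 := by
    intro j
    have := congrFun hg j
    rw [Finset.sum_apply] at this
    simpa using this
  have hk : g k = 0 := by
    have h2 := h1 k
    rw [Finset.sum_eq_single k] at h2
    · rw [fr_self] at h2
      exact (mul_eq_zero.mp h2).resolve_right hγ
    · intro b _ hb
      rw [fr_ne γ hb, Pi.single_eq_of_ne (Ne.symm hb), mul_zero]
    · intro h
      exact absurd (Finset.mem_univ _) h
  intro j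
  by_cases hj : j = k
  · rw [hj, hk]
  · have h2 := h1 j
    rw [Finset.sum_eq_single j] at h2
    · rw [fr_ne γ hj, Pi.single_eq_same, mul_one] at h2
      exact h2
    · intro b _ hb
      by_cases hbk : b = k
      · rw [hbk, hk, zero_mul]
      · rw [fr_ne γ hbk, Pi.single_eq_of_ne (Ne.symm hb), mul_zero]
    · intro h
      exact absurd (Finset.mem_univ _) h

theorem id_li (n : ℕ) : LinearIndependent ℚ (fun i : Fin n => (Pi.single i 1 : Fin n → ℚ)) := by
  have h := (Pi.basisFun ℚ (Fin n)).linearIndependent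
  have e : (fun i : Fin n => (Pi.single i 1 : Fin n → ℚ)) = ⇑(Pi.basisFun ℚ (Fin n)) := by
    funext i
    exact (Pi.basisFun_apply ℚ (Fin n) i).symm
  rw [e]
  exact h

theorem span_top {n : ℕ} {b : Fin n → Fin n → ℚ} (hb : LinearIndependent ℚ b) :
    Submodule.span ℚ (Set.range b) = ⊤ := by
  apply hb.span_eq_top_of_card_eq_finrank'
  rw [Fintype.card_fin, Module.finrank_fin_fun]

/-- the frames -/
noncomputable def zz {n s : ℕ} (k : Fin n) (γ : Fin n → ℚ) :
    Option (Fin s) → Fin n → Fin n → ℚ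
  | none => fr k γ
  | some _ => fun i => Pi.single i 1

end CoreAux

open CoreAux SubQ in
/-- **The application of the Subspace theorem.** -/
theorem tCore (hS : ∀ n, SubQ.SubTh n) (hlim : S_lim) : S_core := by
  classical
  intro n s q hq 𝒰 T hT φ L γ k e C g h hgen hγ hL hC he hg hh hsum
  have hγ0 : γ ≠ 0 := fun h0 => hγ (by rw [h0]; rfl)
  have hTpos : ∀ᶠ l in (𝒰 : Filter ℕ), 0 < T l := hT.eventually_gt_atTop 0
  have hφ0 : ∀ i, ∀ᶠ l in (𝒰 : Filter ℕ), φ i l ≠ 0 := by
    intro i
    have h1 : (Pi.single i 1 : Fin n → ℚ) ≠ 0 := by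
      intro h0
      have := congrFun h0 i
      rw [Pi.single_eq_same] at this
      exact one_ne_zero this
    filter_upwards [hgen _ h1] with l hl h0
    apply hl
    refine Finset.sum_eq_zero fun j _ => ?_
    by_cases hj : j = i
    · rw [hj, h0]
      simp
    · rw [Pi.single_eq_of_ne hj, zero_mul]
  have hL0 : ∀ᶠ l in (𝒰 : Filter ℕ), L l ≠ 0 := by
    filter_upwards [hgen γ hγ0, hL] with l h1 h2 h3
    apply h1
    rw [← h2, h3]
    norm_num
  have sumid : ∀ (i : Fin n) (l : ℕ),
      ∑ j, (Pi.single i 1 : Fin n → ℚ) j * (φ j l : ℚ) = (φ i l : ℚ) := by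
    intro i l
    rw [Finset.sum_eq_single i]
    · rw [Pi.single_eq_same, one_mul]
    · intro b _ hb
      rw [Pi.single_eq_of_ne hb, zero_mul]
    · intro h
      exact absurd (Finset.mem_univ _) h
  -- the limits
  have l1 : ∀ (w : Fin s) (i : Fin n), ∃ a : ℝ,
      Tendsto (fun l => lv q (some w) (φ i l) / T l) 𝒰 (𝓝 a) := by
    intro w i
    refine hlim 𝒰 T _ C hT ?_
    filter_upwards [hφ0 i, hC i] with l h1 h2
    have h3 := val_le (hq.prime w) h1
    have h4 : 0 ≤ (padicValInt (q w) (φ i l) : ℝ) * Real.log (q w) := by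
      have : (1 : ℝ) ≤ q w := by exact_mod_cast (hq.prime w).one_lt.le
      have := Real.log_nonneg this
      positivity
    have h5 : lv q (some w) (φ i l) = -((padicValInt (q w) (φ i l) : ℝ) * Real.log (q w)) := rfl
    rw [h5, abs_neg, abs_of_nonneg h4]
    exact h3.trans h2
  have l2 : ∀ i : Fin n, ∃ a : ℝ, Tendsto (fun l => Real.log |(φ i l : ℝ)| / T l) 𝒰 (𝓝 a) := by
    intro i
    refine hlim 𝒰 T _ C hT ?_
    filter_upwards [hφ0 i, hC i] with l h1 h2
    rw [abs_of_nonneg (log_nonneg' h1)]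
    exact h2
  have l3 : ∃ a : ℝ, Tendsto (fun l => Real.log |(L l : ℝ)| / T l) 𝒰 (𝓝 a) := by
    refine hlim 𝒰 T _ h hT ?_
    filter_upwards [hL0, hh] with l h1 h2
    rw [abs_of_nonneg (log_nonneg' h1)]
    exact h2
  choose cv hcv using l1
  choose cn hcn using l2
  obtain ⟨cL, hcL⟩ := l3
  have hmain := subSpan hS n n s q hq 𝒰 T hT (fun l i => (φ i l : ℚ))
    (fun l i => ⟨0, φ i l, by simp⟩) hgen (zz k γ)
    (by
      intro v
      cases v with
      | none => exact fr_li k γ hγ
      | some w => exact id_li n)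
    (by
      intro v
      have h1 : Submodule.span ℚ (Set.range (zz (s := s) k γ none)) = ⊤ := span_top (fr_li k γ hγ)
      rw [h1]
      cases v with
      | none => exact h1
      | some w => exact span_top (id_li n))
    (fun v i => match v with
      | none => if i = k then cL else cn i
      | some w => cv w i)
    (by
      intro v i
      cases v with
      | none =>
        by_cases hik : i = k
        · simp only [hik, if_true]
          refine hcL.congr' ?_
          filter_upwards [hL] with l h1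
          have h2 : ∑ j, zz (s := s) k γ none k j * (φ j l : ℚ) = ((L l : ℤ) : ℚ) := by
            rw [h1]
            have : zz (s := s) k γ none k = γ := fr_self k γ
            rw [this]
          rw [h2, lr_int]
          rfl
        · simp only [hik, if_false]
          refine (hcn i).congr fun l => ?_
          have h2 : ∑ j, zz (s := s) k γ none i j * (φ j l : ℚ) = ((φ i l : ℤ) : ℚ) := by
            have : zz (s := s) k γ none i = Pi.single i 1 := fr_ne γ hik
            rw [this, sumid]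
          rw [h2, lr_int]
          rfl
      | some w =>
        refine (hcv w i).congr fun l => ?_
        have h2 : ∑ j, zz (s := s) k γ (some w) i j * (φ j l : ℚ) = ((φ i l : ℤ) : ℚ) := sumid i l
        rw [h2, lr_int])
  rw [Fintype.sum_option] at hmain
  simp only at hmain
  -- the bounds
  have b1 : ∀ i, i ≠ k → cn i + ∑ w, cv w i ≤ e i := by
    intro i hi
    have h1 : Tendsto (fun l => Real.log |(φ i l : ℝ)| / T l + ∑ w, lv q (some w) (φ i l) / T l) 𝒰
        (𝓝 (cn i + ∑ w, cv w i)) := (hcn i).add (tendsto_finset_sum _ fun w _ => hcv w i)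
    refine le_of_tendsto h1 ?_
    filter_upwards [hTpos, he i hi] with l h2 h3
    rw [← Finset.sum_div, ← add_div, div_le_iff₀ h2]
    exact h3
  have b2 : ∑ w, cv w k ≤ -g := by
    have h1 : Tendsto (fun l => ∑ w, lv q (some w) (φ k l) / T l) 𝒰 (𝓝 (∑ w, cv w k)) :=
      tendsto_finset_sum _ fun w _ => hcv w k
    refine le_of_tendsto h1 ?_
    filter_upwards [hTpos, hg] with l h2 h3
    rw [← Finset.sum_div, div_le_iff₀ h2]
    linarith
  have b3 : cL ≤ h := by
    refine le_of_tendsto hcL ?_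
    filter_upwards [hTpos, hh] with l h2 h3
    rw [div_le_iff₀ h2]
    exact h3
  have s1 : ∑ i, (if i = k then cL else cn i) = cL + ∑ i ∈ Finset.univ.erase k, cn i := by
    rw [← Finset.add_sum_erase _ _ (Finset.mem_univ k), if_pos rfl]
    congr 1
    refine Finset.sum_congr rfl fun i hi => ?_
    rw [if_neg (Finset.ne_of_mem_erase hi)]
  have s2 : ∑ w, ∑ i, cv w i = ∑ w, cv w k + ∑ i ∈ Finset.univ.erase k, ∑ w, cv w i := by
    rw [Finset.sum_comm, ← Finset.add_sum_erase _ _ (Finset.mem_univ k)]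
  rw [s1, s2] at hmain
  have s3 : ∑ i ∈ Finset.univ.erase k, cn i + ∑ i ∈ Finset.univ.erase k, ∑ w, cv w i ≤
      ∑ i ∈ Finset.univ.erase k, e i := by
    rw [← Finset.sum_add_distrib]
    exact Finset.sum_le_sum fun i hi => b1 i (Finset.ne_of_mem_erase hi)
  linarith

end Pool.Agent.Lib.MP_acd137_lc
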