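import Pool.Agent.Lib.MP_acd137_lc.Spec

/-!
`S_digits`: facts on digits.
-/

set_option autoImplicit false

namespace Pool.Agent.Lib.MP_acd137_lc

open Filter Topology

theorem tDigits : S_digits := by
  intro b x hb
  have hb0 : (0 : ℝ) < b := by
    have : 0 < b := by omega
    exact_mod_cast this
  refine ⟨?_, ?_⟩
  · intro k hk
    obtain ⟨j, rfl⟩ : ∃ j, k = j + 1 := ⟨k - 1, by omega⟩
    unfold digit
    rw [Nat.add_sub_cancel]
    have h1 := Int.floor_le ((b : ℝ) ^ j * x)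
    have h2 := Int.lt_floor_add_one ((b : ℝ) ^ j * x)
    have h3 : (b : ℤ) * ⌊(b : ℝ) ^ j * x⌋ ≤ ⌊(b : ℝ) ^ (j + 1) * x⌋ := by
      rw [Int.le_floor]
      push_cast
      have h4 : (b : ℝ) * ⌊(b : ℝ) ^ j * x⌋ ≤ b * ((b : ℝ) ^ j * x) :=
        mul_le_mul_of_nonneg_left h1 hb0.le
      have h5 : (b : ℝ) ^ (j + 1) * x = b * ((b : ℝ) ^ j * x) := by ring
      rw [h5]
      exact h4
    have h6 : ⌊(b : ℝ) ^ (j + 1) * x⌋ < (b : ℤ) * ⌊(b : ℝ) ^ j * x⌋ + b := by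
      rw [Int.floor_lt]
      push_cast
      have h4 : (b : ℝ) * ((b : ℝ) ^ j * x) < b * (⌊(b : ℝ) ^ j * x⌋ + 1) :=
        mul_lt_mul_of_pos_left h2 hb0
      have h5 : (b : ℝ) ^ (j + 1) * x = b * ((b : ℝ) ^ j * x) := by ring
      rw [h5]
      linarith
    constructor
    · linarith
    · linarith
  · intro I J n h
    have key : ∀ t, t ≤ n → ⌊(b : ℝ) ^ (I + t) * x⌋ - (b : ℤ) ^ t * ⌊(b : ℝ) ^ I * x⌋ =
        ⌊(b : ℝ) ^ (J + t) * x⌋ - (b : ℤ) ^ t * ⌊(b : ℝ) ^ J * x⌋ := by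
      intro t
      induction t with
      | zero => intro _; simp
      | succ t ih =>
        intro ht
        have h1 := ih (by omega)
        have h2 := h (t + 1) (by omega) ht
        unfold digit at h2
        have e1 : I + (t + 1) - 1 = I + t := by omega
        have e2 : J + (t + 1) - 1 = J + t := by omega
        rw [e1, e2] at h2
        rw [pow_succ]
        linear_combination h2 + (b : ℤ) * h1
    have hk := key n le_rfl
    unfold pre
    have hk' : ((⌊(b : ℝ) ^ (I + n) * x⌋ : ℤ) : ℝ) - (b : ℝ) ^ n * (⌊(b : ℝ) ^ I * x⌋ : ℤ) =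
        (⌊(b : ℝ) ^ (J + n) * x⌋ : ℤ) - (b : ℝ) ^ n * (⌊(b : ℝ) ^ J * x⌋ : ℤ) := by
      exact_mod_cast hk
    have hpos : (0 : ℝ) < (b : ℝ) ^ n := by positivity
    rw [← one_div, le_div_iff₀ hpos]
    have e : |((b : ℝ) ^ J - (b : ℝ) ^ I) * x -
        ((⌊(b : ℝ) ^ J * x⌋ - ⌊(b : ℝ) ^ I * x⌋ : ℤ) : ℝ)| * (b : ℝ) ^ n =
        |Int.fract ((b : ℝ) ^ (J + n) * x) - Int.fract ((b : ℝ) ^ (I + n) * x)| := by
      rw [← abs_of_pos hpos, ← abs_mul]
      congr 1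
      unfold Int.fract
      push_cast
      linear_combination (-1 : ℝ) * hk'
    rw [e]
    have f1 := Int.fract_nonneg ((b : ℝ) ^ (J + n) * x)
    have f2 := Int.fract_lt_one ((b : ℝ) ^ (J + n) * x)
    have f3 := Int.fract_nonneg ((b : ℝ) ^ (I + n) * x)
    have f4 := Int.fract_lt_one ((b : ℝ) ^ (I + n) * x)
    rw [abs_le]
    constructor <;> linarith

end Pool.Agent.Lib.MP_acd137_lc
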