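import Pool.Agent.Lib.MP_acd137_lc.Spec

/-!
# MP_acd137_lc: not simple in two independent bases
-/

set_option autoImplicit false

namespace Pool.Agent.Lib.MP_acd137_lc

open Filter Topology

private theorem f1_piece {R M N' : ℕ} {a : ℕ → ℕ} (ha : Monotone a) (h0 : a 0 ≤ M) (hR : N' ≤ a R)
    (hMN : M < N') : ∃ s < R, ∃ I L : ℕ, M ≤ I ∧ a s ≤ I ∧ I + L ≤ N' ∧ I + L ≤ a (s + 1) ∧
      N' - M ≤ (R + 1) * L := by
  obtain ⟨a', ha'⟩ : ∃ a' : ℕ → ℕ, a' = fun s => min (max (a s) M) N' := ⟨_, rfl⟩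
  have hmono : Monotone a' := by
    intro s t hst
    rw [ha']
    have := ha hst
    simp only
    omega
  have e0 : a' 0 = M := by
    rw [ha']
    simp only
    omega
  have eR : a' R = N' := by
    rw [ha']
    simp only
    omega
  have hsum : ∑ s ∈ Finset.range R, (a' (s + 1) - a' s) = N' - M := by
    rw [Finset.sum_range_tsub hmono, e0, eR]
  obtain ⟨s, hs, hL⟩ : ∃ s < R, N' - M ≤ (R + 1) * (a' (s + 1) - a' s) := by
    by_contra hcon
    push Not at hcon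
    have h1 : (R + 1) * (N' - M) ≤ R * (N' - M) := by
      rw [← hsum, Finset.mul_sum]
      calc ∑ s ∈ Finset.range R, (R + 1) * (a' (s + 1) - a' s)
          ≤ ∑ s ∈ Finset.range R, (N' - M) := by
            apply Finset.sum_le_sum
            intro s hs
            exact (hcon s (Finset.mem_range.1 hs)).le
        _ = R * (N' - M) := by rw [Finset.sum_const, Finset.card_range, smul_eq_mul]
        _ = R * ∑ s ∈ Finset.range R, (a' (s + 1) - a' s) := by rw [hsum]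
    have h2 : 0 < N' - M := by omega
    nlinarith
  have hpos : 0 < a' (s + 1) - a' s := by
    rcases Nat.eq_zero_or_pos (a' (s + 1) - a' s) with h | h
    · rw [h, mul_zero] at hL
      omega
    · exact h
  have hs1 : a' s = min (max (a s) M) N' := by rw [ha']
  have hs2 : a' (s + 1) = min (max (a (s + 1)) M) N' := by rw [ha']
  refine ⟨s, hs, a' s, a' (s + 1) - a' s, ?_, ?_, ?_, ?_, hL⟩ <;> omega

private theorem f1_large {b c : ℕ} (hb : 2 ≤ b) (hc : 2 ≤ c) (K : ℕ) :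
    ∀ᶠ N : ℕ in atTop, ∀ M : ℕ, (b : ℝ) ^ N ≤ (c : ℝ) ^ M → K ≤ M := by
  have h1 : ∀ᶠ N : ℕ in atTop, (c : ℝ) ^ K < (2 : ℝ) ^ N :=
    (tendsto_pow_atTop_atTop_of_one_lt (one_lt_two (α := ℝ))).eventually_gt_atTop _
  filter_upwards [h1] with N hN M hM
  by_contra hcon
  push Not at hcon
  have hc1 : (1 : ℝ) ≤ c := by exact_mod_cast (by omega : 1 ≤ c)
  have h2 : (c : ℝ) ^ M ≤ (c : ℝ) ^ K := pow_le_pow_right₀ hc1 hcon.le
  have h3 : (2 : ℝ) ^ N ≤ (b : ℝ) ^ N := by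
    apply pow_le_pow_left₀ (by norm_num)
    exact_mod_cast hb
  linarith

set_option maxHeartbeats 1000000 in
theorem tF1 : S_tfreq → S_kp → S_f1 := by
  intro hfreq hkp b c x hb hc hI hirr hSb hSc
  obtain ⟨ρ, hρ, hρ'⟩ := hfreq b x hb hirr hSb
  obtain ⟨ε₀, hε₀, hε₀'⟩ := hkp b c x hb hc hI hSb ρ hρ
  obtain ⟨R, hR⟩ := hSc (1 / (1 + ε₀)) (by positivity)
  have hR1 : (0 : ℝ) < (R : ℝ) + 1 := by positivity
  obtain ⟨η, hη, hη'⟩ := hε₀' (ε₀ / (4 * ((R : ℝ) + 1))) (by positivity)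
  obtain ⟨η₁, hη₁0, hη₁a, hη₁b⟩ : ∃ η₁ : ℝ, 0 < η₁ ∧ η₁ * (1 + ε₀) ≤ ε₀ / (4 * ((R : ℝ) + 1)) ∧
      η₁ * (1 + ε₀) ≤ η / 2 := by
    refine ⟨min (ε₀ / (4 * ((R : ℝ) + 1)) / (1 + ε₀)) (η / 2 / (1 + ε₀)), ?_, ?_, ?_⟩
    · apply lt_min <;> positivity
    · rw [← le_div_iff₀ (by positivity)]
      exact min_le_left _ _
    · rw [← le_div_iff₀ (by positivity)]
      exact min_le_right _ _
  obtain ⟨N₀, hN₀⟩ := eventually_atTop.1 (hR η₁ hη₁0)
  have hbR : (2 : ℝ) ≤ b := by exact_mod_cast hb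
  have hcR : (2 : ℝ) ≤ c := by exact_mod_cast hc
  have hb0 : (0 : ℝ) < b := by linarith
  have hc0 : (0 : ℝ) < c := by linarith
  have hcl : ∀ᶠ N : ℕ in atTop, (c : ℝ) < (2 : ℝ) ^ N :=
    (tendsto_pow_atTop_atTop_of_one_lt (one_lt_two (α := ℝ))).eventually_gt_atTop _
  obtain ⟨N, ⟨q0, Y, hTr⟩, hkpN, hM0, hcN, hN1⟩ := ((hρ' η hη).and_eventually
    (hη'.and ((f1_large hb hc (N₀ + ⌈2 / ε₀⌉₊ + 1)).and (hcl.and (eventually_ge_atTop 1))))).exists
  -- the power of c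
  obtain ⟨M, hM1, hM2⟩ : ∃ M : ℕ, (b : ℝ) ^ N ≤ (c : ℝ) ^ M ∧ (c : ℝ) ^ M ≤ c * (b : ℝ) ^ N := by
    have hlt : 1 < b ^ N := Nat.one_lt_pow (by omega) (by omega)
    refine ⟨Nat.clog c (b ^ N), ?_, ?_⟩
    · exact_mod_cast Nat.le_pow_clog (by omega) (b ^ N)
    · have h1 := Nat.pow_pred_clog_lt_self (b := c) (by omega) hlt
      have h2 : 0 < Nat.clog c (b ^ N) := Nat.clog_pos (by omega) (by omega)
      have h3 : c ^ Nat.clog c (b ^ N) = c * c ^ (Nat.clog c (b ^ N)).pred := by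
        rw [← pow_succ', ← Nat.succ_eq_add_one, Nat.succ_pred_eq_of_pos h2]
      have h4 : c ^ Nat.clog c (b ^ N) ≤ c * b ^ N := by
        rw [h3]
        exact Nat.mul_le_mul_left _ h1.le
      exact_mod_cast h4
  have hMK := hM0 M hM1
  have hMN0 : N₀ ≤ M := by omega
  have hMe : 2 ≤ ε₀ * M := by
    have h1 : (2 / ε₀ : ℝ) ≤ (M : ℝ) := by
      have h2 : ⌈2 / ε₀⌉₊ ≤ M := by omega
      exact (Nat.le_ceil _).trans (by exact_mod_cast h2)
    rw [div_le_iff₀ hε₀] at h1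
    linarith
  have hMpos : (0 : ℝ) < M := by
    by_contra hcon
    push Not at hcon
    nlinarith
  obtain ⟨N', hN'⟩ : ∃ N' : ℕ, N' = ⌊(1 + ε₀) * (M : ℝ)⌋₊ := ⟨_, rfl⟩
  have hN'le : (N' : ℝ) ≤ (1 + ε₀) * M := by
    rw [hN']
    exact Nat.floor_le (by positivity)
  have hN'gt : (1 + ε₀) * (M : ℝ) - 1 < N' := by
    rw [hN']
    have := Nat.lt_floor_add_one ((1 + ε₀) * (M : ℝ))
    linarith
  have hMN' : M < N' := by
    have : (M : ℝ) < N' := by nlinarith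
    exact_mod_cast this
  obtain ⟨a, hmono, ha0, haR, hpc⟩ := hN₀ N' (by omega)
  have ha0' : a 0 ≤ M := by
    have h1 : (a 0 : ℝ) ≤ M := by
      refine ha0.trans ?_
      rw [one_div, inv_mul_le_iff₀ (by positivity)]
      exact hN'le
    exact_mod_cast h1
  obtain ⟨s, hs, I, L, hMI, hsI, hIL, hIL', hLb⟩ := f1_piece hmono ha0' haR hMN'
  obtain ⟨q, A, hq1, hq2, hqA⟩ := hpc s hs
  have hqR : (1 : ℝ) ≤ q := by exact_mod_cast hq1
  have hq0 : (0 : ℝ) < q := by linarith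
  -- q is small
  have hqc : (q : ℝ) ≤ (c : ℝ) ^ (η₁ * (1 + ε₀) * M) := by
    refine hq2.trans (Real.rpow_le_rpow_of_exponent_le (by linarith) ?_)
    rw [mul_assoc]
    exact mul_le_mul_of_nonneg_left hN'le hη₁0.le
  have ht0 : 0 < η₁ * (1 + ε₀) := by positivity
  have hqb : (q : ℝ) ≤ (b : ℝ) ^ (η * N) := by
    have h1 : (c : ℝ) ^ (η₁ * (1 + ε₀) * M) = ((c : ℝ) ^ M) ^ (η₁ * (1 + ε₀)) := by
      rw [← Real.rpow_natCast, ← Real.rpow_mul hc0.le]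
      congr 1
      ring
    have h2 : (c : ℝ) ^ M ≤ (b : ℝ) ^ (2 * N) := by
      refine hM2.trans ?_
      have h3 : (2 : ℝ) ^ N ≤ (b : ℝ) ^ N := pow_le_pow_left₀ (by norm_num) hbR N
      have h4 : (0 : ℝ) < (b : ℝ) ^ N := by positivity
      rw [two_mul, pow_add]
      exact mul_le_mul_of_nonneg_right (hcN.le.trans h3) h4.le
    have h3 : ((c : ℝ) ^ M) ^ (η₁ * (1 + ε₀)) ≤ ((b : ℝ) ^ (2 * N)) ^ (η₁ * (1 + ε₀)) :=
      Real.rpow_le_rpow (by positivity) h2 ht0.le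
    have h4 : ((b : ℝ) ^ (2 * N)) ^ (η₁ * (1 + ε₀)) = (b : ℝ) ^ ((2 * N : ℝ) * (η₁ * (1 + ε₀))) := by
      rw [← Real.rpow_natCast, ← Real.rpow_mul hb0.le]
      push_cast
      rfl
    have h5 : (b : ℝ) ^ ((2 * N : ℝ) * (η₁ * (1 + ε₀))) ≤ (b : ℝ) ^ (η * N) := by
      apply Real.rpow_le_rpow_of_exponent_le (by linarith)
      have h7 : (0 : ℝ) ≤ N := Nat.cast_nonneg N
      have h8 := mul_le_mul_of_nonneg_left hη₁b (mul_nonneg (by norm_num : (0 : ℝ) ≤ 2) h7)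
      linarith only [h8]
    calc (q : ℝ) ≤ _ := hqc
      _ = _ := h1
      _ ≤ _ := h3
      _ = _ := h4
      _ ≤ _ := h5
  -- apply the key statement
  have hkey := hkpN q0 Y hTr M hM1 hM2 (q : ℤ) 0 ((c : ℤ) ^ (I - a s) * A) I I hMI le_rfl ?_ ?_ ?_ ?_
  · apply hkey
    have e1 : (((q : ℤ) : ℝ) * (c : ℝ) ^ I - ((0 : ℤ) : ℝ) * (c : ℝ) ^ I) * x -
        (((c : ℤ) ^ (I - a s) * A : ℤ) : ℝ) =
        q * ((c : ℝ) ^ (I - a s) * ((c : ℝ) ^ a s * x - A / q)) := by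
      have h1 : (c : ℝ) ^ I = (c : ℝ) ^ (I - a s) * (c : ℝ) ^ a s := by
        rw [← pow_add]
        congr 1
        omega
      have h2 : (q : ℝ) * (A / q) = A := by field_simp
      rw [h1]
      push_cast
      linear_combination (c : ℝ) ^ (I - a s) * h2
    rw [e1, abs_mul, abs_mul, abs_of_pos hq0, abs_of_pos (by positivity : (0 : ℝ) < (c : ℝ) ^ (I - a s))]
    have h1 : (c : ℝ) ^ (I - a s) * |(c : ℝ) ^ a s * x - A / q| ≤ ((c : ℝ) ^ L)⁻¹ := by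
      refine (mul_le_mul_of_nonneg_left hqA (by positivity)).trans ?_
      have h2 : (c : ℝ) ^ (a (s + 1) - a s) = (c : ℝ) ^ (I - a s) * (c : ℝ) ^ (a (s + 1) - I) := by
        rw [← pow_add]
        congr 1
        omega
      have h3 : (c : ℝ) ^ L ≤ (c : ℝ) ^ (a (s + 1) - I) :=
        pow_le_pow_right₀ (by linarith) (by omega)
      rw [h2, mul_inv, ← mul_assoc, mul_inv_cancel₀ (by positivity), one_mul]
      exact inv_anti₀ (by positivity) h3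
    have h2 : (q : ℝ) * ((c : ℝ) ^ (I - a s) * |(c : ℝ) ^ a s * x - A / q|) ≤
        (c : ℝ) ^ (η₁ * (1 + ε₀) * M) * ((c : ℝ) ^ L)⁻¹ :=
      mul_le_mul hqc h1 (by positivity) (by positivity)
    refine h2.trans ?_
    have h3 : (c : ℝ) ^ (η₁ * (1 + ε₀) * M) * ((c : ℝ) ^ L)⁻¹ =
        (c : ℝ) ^ (η₁ * (1 + ε₀) * M - L) := by
      rw [Real.rpow_sub hc0, Real.rpow_natCast]
      rfl
    rw [h3]
    have hLR : ε₀ * M - 1 ≤ ((R : ℝ) + 1) * L := by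
      have h4 : ((N' - M : ℕ) : ℝ) ≤ ((R + 1) * L : ℕ) := by exact_mod_cast hLb
      rw [Nat.cast_sub hMN'.le] at h4
      push_cast at h4
      linarith
    have hLL : ε₀ * M / (2 * ((R : ℝ) + 1)) ≤ L := by
      rw [div_le_iff₀ (by positivity)]
      linarith only [hLR, hMe]
    have h5 : (c : ℝ) ^ (η₁ * (1 + ε₀) * M - L) ≤ (c : ℝ) ^ (-(ε₀ / (4 * ((R : ℝ) + 1))) * M) := by
      apply Real.rpow_le_rpow_of_exponent_le (by linarith)
      have h6 : η₁ * (1 + ε₀) * M ≤ ε₀ / (4 * ((R : ℝ) + 1)) * M :=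
        mul_le_mul_of_nonneg_right hη₁a hMpos.le
      have h7 : ε₀ * M / (2 * ((R : ℝ) + 1)) = 2 * (ε₀ / (4 * ((R : ℝ) + 1)) * M) := by
        field_simp
        ring
      rw [h7] at hLL
      linarith only [hLL, h6]
    refine h5.trans ?_
    have h8 : (c : ℝ) ^ (-(ε₀ / (4 * ((R : ℝ) + 1))) * M) =
        (((c : ℝ) ^ M) ^ (ε₀ / (4 * ((R : ℝ) + 1))))⁻¹ := by
      rw [neg_mul, Real.rpow_neg hc0.le, mul_comm, Real.rpow_mul hc0.le, Real.rpow_natCast]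
    have h9 : (b : ℝ) ^ (-(ε₀ / (4 * ((R : ℝ) + 1)) * N)) =
        (((b : ℝ) ^ N) ^ (ε₀ / (4 * ((R : ℝ) + 1))))⁻¹ := by
      rw [Real.rpow_neg hb0.le, mul_comm, Real.rpow_mul hb0.le, Real.rpow_natCast]
    rw [h8, h9]
    apply inv_anti₀ (by positivity)
    exact Real.rpow_le_rpow (by positivity) hM1 (by positivity)
  · refine le_trans ?_ hN'le
    have : I ≤ N' := by omega
    exact_mod_cast this
  · rw [Int.cast_natCast, abs_of_pos hq0]
    exact hqb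
  · rw [Int.cast_zero, abs_zero]
    positivity
  · rw [zero_mul]
    have h1 : (q : ℤ) ≠ 0 := by omega
    have h2 : (c : ℤ) ^ I ≠ 0 := pow_ne_zero _ (by omega)
    exact mul_ne_zero h1 h2

end Pool.Agent.Lib.MP_acd137_lc
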