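import Pool.Agent.Lib.MP_acd137_lc.Spec

set_option autoImplicit false

namespace Pool.Agent.Lib.MP_acd137_lc

open Filter Topology

private theorem pow_clog {c m : ℕ} (hc : 2 ≤ c) (hm : 2 ≤ m) :
    m ≤ c ^ Nat.clog c m ∧ c ^ Nat.clog c m ≤ c * m := by
  refine ⟨Nat.le_pow_clog (by omega) m, ?_⟩
  have h1 := Nat.pow_pred_clog_lt_self (b := c) (by omega) (x := m) (by omega)
  have h2 : 0 < Nat.clog c m := Nat.clog_pos (by omega) (by omega)
  have h3 : Nat.clog c m = (Nat.clog c m).pred + 1 := by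
    rw [Nat.pred_eq_sub_one]
    omega
  calc c ^ Nat.clog c m = c ^ ((Nat.clog c m).pred + 1) := by rw [← h3]
    _ = c * c ^ (Nat.clog c m).pred := by rw [pow_succ]; ring
    _ ≤ c * m := Nat.mul_le_mul_left _ h1.le

theorem tF2 : S_digits → S_pig → S_tfreq → S_kp → S_f2 := by
  intro hdig hpig htf hkp b c x hb hc hind hirr hs C
  by_contra hcon
  rw [Filter.not_frequently] at hcon
  obtain ⟨ρ, hρ, hT⟩ := htf b x hb hirr hs
  obtain ⟨ε₀, hε₀, hK⟩ := hkp b c x hb hc hind hs ρ hρ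
  have hC : (0 : ℝ) < (C : ℝ) + 1 := by positivity
  have hδ : 0 < ε₀ / (2 * ((C : ℝ) + 1)) := by positivity
  obtain ⟨η, hη, hE⟩ := hK _ hδ
  obtain ⟨n0, hn0⟩ := eventually_atTop.1 hcon
  have hb1 : (1 : ℝ) < b := by exact_mod_cast (by omega : 1 < b)
  have hc1 : (1 : ℝ) < c := by exact_mod_cast (by omega : 1 < c)
  have hlb : 0 < Real.log b := Real.log_pos hb1
  have hlc : 0 < Real.log c := Real.log_pos hc1
  have h1 : ∀ᶠ N : ℕ in atTop, Real.log c / (ε₀ / (2 * ((C : ℝ) + 1)) * Real.log b) ≤ (N : ℝ) :=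
    tendsto_natCast_atTop_atTop.eventually_ge_atTop _
  have h2 : ∀ᶠ N : ℕ in atTop, ((n0 : ℝ) + 1) * (C + 1) * Real.log c / (ε₀ * Real.log b) ≤ (N : ℝ) :=
    tendsto_natCast_atTop_atTop.eventually_ge_atTop _
  obtain ⟨N, ⟨q, Y, hTr⟩, hKN, hN1, hN2, hN3⟩ :=
    ((hT η hη).and_eventually (hE.and (h1.and (h2.and (eventually_ge_atTop 1))))).exists
  have hbN : 2 ≤ b ^ N := by
    calc 2 ≤ b := hb
      _ = b ^ 1 := (pow_one b).symm
      _ ≤ b ^ N := Nat.pow_le_pow_right (by omega) hN3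
  obtain ⟨hM1, hM2⟩ := pow_clog hc hbN
  generalize Nat.clog c (b ^ N) = M at hM1 hM2
  have hM1r : (b : ℝ) ^ N ≤ (c : ℝ) ^ M := by exact_mod_cast hM1
  have hM2r : (c : ℝ) ^ M ≤ c * (b : ℝ) ^ N := by exact_mod_cast hM2
  have hMl : (N : ℝ) * Real.log b ≤ M * Real.log c := by
    have := Real.log_le_log (by positivity) hM1r
    rwa [Real.log_pow, Real.log_pow] at this
  -- the length of the words
  have hx0 : 0 ≤ ε₀ * (M : ℝ) / (C + 1) := by positivity
  have hn1 := Nat.floor_le hx0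
  have hn2 := Nat.lt_floor_add_one (ε₀ * (M : ℝ) / (C + 1))
  generalize ⌊ε₀ * (M : ℝ) / (C + 1)⌋₊ = n at hn1 hn2
  rw [le_div_iff₀ hC] at hn1
  rw [div_lt_iff₀ hC] at hn2
  rw [div_le_iff₀ (by positivity)] at hN1 hN2
  have hn0n : n0 ≤ n := by
    have e1 : ((n0 : ℝ) + 1) * (C + 1) * Real.log c ≤ ε₀ * (M * Real.log c) := by
      calc ((n0 : ℝ) + 1) * (C + 1) * Real.log c ≤ N * (ε₀ * Real.log b) := hN2
        _ = ε₀ * (N * Real.log b) := by ring
        _ ≤ ε₀ * (M * Real.log c) := mul_le_mul_of_nonneg_left hMl hε₀.le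
    have e2 : ((n0 : ℝ) + 1) * (C + 1) ≤ ε₀ * M := by
      have : ((n0 : ℝ) + 1) * (C + 1) * Real.log c ≤ (ε₀ * M) * Real.log c := by linarith
      exact le_of_mul_le_mul_right this hlc
    have e3 : ((n0 : ℝ) + 1) * (C + 1) < ((n : ℝ) + 1) * (C + 1) := by linarith
    have e4 : (n0 : ℝ) + 1 < (n : ℝ) + 1 := lt_of_mul_lt_mul_right e3 hC.le
    have e5 : (n0 : ℝ) < n := by linarith
    exact (by exact_mod_cast e5 : n0 < n).le
  have hcomp : complexity c x n ≤ C * n := not_lt.1 (hn0 n hn0n)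
  obtain ⟨I, J, hI, hIJ, hJ, hw⟩ := hpig c x C n M hc hcomp
  have hd := (hdig c x hc).2 I J n hw
  refine hKN q Y hTr M hM1r hM2r 1 1 (pre c x J - pre c x I) I J hI hIJ.le ?_ ?_ ?_ ?_ ?_
  · have e1 : (J : ℝ) ≤ M + C * n := by exact_mod_cast hJ
    have e2 : (C : ℝ) * n ≤ n * (C + 1) := by
      have : (0 : ℝ) ≤ n := Nat.cast_nonneg n
      linarith
    linarith
  · rw [Int.cast_one, abs_one]
    exact Real.one_le_rpow hb1.le (by positivity)
  · rw [Int.cast_one, abs_one]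
    exact Real.one_le_rpow hb1.le (by positivity)
  · rw [one_mul, one_mul]
    intro h
    have h' : c ^ J = c ^ I := by exact_mod_cast h
    have := Nat.pow_right_injective hc h'
    omega
  · have e0 : ((((1 : ℤ) : ℝ) * (c : ℝ) ^ J - ((1 : ℤ) : ℝ) * (c : ℝ) ^ I) * x -
        ((pre c x J - pre c x I : ℤ) : ℝ)) = ((c : ℝ) ^ J - (c : ℝ) ^ I) * x -
        ((pre c x J - pre c x I : ℤ) : ℝ) := by
      rw [Int.cast_one, one_mul, one_mul]
    rw [e0]
    refine hd.trans ?_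
    rw [Real.rpow_neg (by positivity)]
    apply inv_anti₀ (by positivity)
    rw [← Real.rpow_natCast (c : ℝ) n, Real.rpow_def_of_pos (by positivity), Real.rpow_def_of_pos (by positivity)]
    apply Real.exp_le_exp.2
    -- `δ N log b ≤ n log c`
    have f1 : 2 * (C + 1) * (ε₀ / (2 * ((C : ℝ) + 1))) = ε₀ := by
      field_simp
    generalize ε₀ / (2 * ((C : ℝ) + 1)) = δ at f1 hN1 hδ ⊢
    have f2 : ε₀ * (N * Real.log b) ≤ ε₀ * (M * Real.log c) := mul_le_mul_of_nonneg_left hMl hε₀.le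
    have f3 : ε₀ * M * Real.log c < ((n : ℝ) + 1) * (C + 1) * Real.log c :=
      mul_lt_mul_of_pos_right hn2 hlc
    have f4 : (2 * δ * (N * Real.log b)) * (C + 1) ≤ (((n : ℝ) + 1) * Real.log c) * (C + 1) := by
      calc (2 * δ * (N * Real.log b)) * (C + 1) = (2 * (C + 1) * δ) * (N * Real.log b) := by ring
        _ = ε₀ * (N * Real.log b) := by rw [f1]
        _ ≤ ε₀ * (M * Real.log c) := f2
        _ = ε₀ * M * Real.log c := by ring
        _ ≤ ((n : ℝ) + 1) * (C + 1) * Real.log c := f3.le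
        _ = (((n : ℝ) + 1) * Real.log c) * (C + 1) := by ring
    have f5 := le_of_mul_le_mul_right f4 hC
    have f6 : Real.log c ≤ N * (δ * Real.log b) := hN1
    nlinarith [f5, f6]

end Pool.Agent.Lib.MP_acd137_lc
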