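import Pool.Agent.Lib.MP_acd137_lc.Spec

set_option autoImplicit false

namespace Pool.Agent.Lib.MP_acd137_lc

open Filter Topology

/-- the power of `c` above `y` -/
private theorem powAbove (c : ℕ) (hc : 2 ≤ c) (y : ℝ) (hy : 1 ≤ y) :
    ∃ M : ℕ, y ≤ (c : ℝ) ^ M ∧ (c : ℝ) ^ M ≤ c * y := by
  have hc1 : (1 : ℝ) < c := by exact_mod_cast (by omega : 1 < c)
  have hex : ∃ M : ℕ, y ≤ (c : ℝ) ^ M := by
    obtain ⟨M, hM⟩ := pow_unbounded_of_one_lt y hc1
    exact ⟨M, hM.le⟩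
  classical
  refine ⟨Nat.find hex, Nat.find_spec hex, ?_⟩
  rcases Nat.eq_zero_or_pos (Nat.find hex) with h | h
  · rw [h, pow_zero]
    nlinarith
  · obtain ⟨m, hm⟩ : ∃ m, Nat.find hex = m + 1 := ⟨Nat.find hex - 1, by omega⟩
    have h1 := Nat.find_min hex (by omega : m < Nat.find hex)
    push Not at h1
    rw [hm, pow_succ]
    nlinarith

/-- (f3) The complexity of a simple number which is not a Liouville number. -/
theorem tF3 : S_digits → S_pig → S_t1 → S_t3 → S_kp → S_f3 := by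
  intro hdig hpig ht1 ht3 hkp b c x hb hc hind hirr hsim hL C
  have hb1 : (1 : ℝ) < b := by exact_mod_cast (by omega : 1 < b)
  have hc1 : (1 : ℝ) < c := by exact_mod_cast (by omega : 1 < c)
  have hb0 : (0 : ℝ) < b := by linarith
  have hc0 : (0 : ℝ) < c := by linarith
  have hlb : 0 < Real.log b := Real.log_pos hb1
  have hlc : 0 < Real.log c := Real.log_pos hc1
  obtain ⟨κ, hκ, h3⟩ := ht3 b x hb hirr hL
  obtain ⟨ρ, hρ, h1⟩ := ht1 b x hb hsim
  obtain ⟨κ', hκ', h1'⟩ := h1 κ hκ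
  obtain ⟨ε₀, hε₀, hk⟩ := hkp b c x hb hc hind hsim ρ hρ
  have hC0 : (0 : ℝ) ≤ C := Nat.cast_nonneg _
  have hC1 : (0 : ℝ) < (C : ℝ) + 1 := by positivity
  set δ : ℝ := ε₀ * κ' / (4 * (C + 1)) with hδ
  have hδ0 : 0 < δ := by positivity
  obtain ⟨η, hη, hk'⟩ := hk δ hδ0
  -- the scale as a function of n
  set K : ℝ := (C + 1) * Real.log c / (ε₀ * κ' * Real.log b) with hK
  have hK0 : 0 < K := by positivity
  obtain ⟨T1, hT1⟩ := eventually_atTop.mp (h3.and (h1' η hη))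
  obtain ⟨T2, hT2⟩ := eventually_atTop.mp hk'
  filter_upwards [eventually_ge_atTop 1, eventually_ge_atTop ⌈(T1 : ℝ) / K⌉₊,
    eventually_ge_atTop ⌈(T2 : ℝ) / (κ' * K)⌉₊,
    eventually_ge_atTop ⌈4 * δ * Real.log b / Real.log c⌉₊] with n hn1 hn2 hn3 hn4
  by_contra hcon
  push Not at hcon
  have hn2' : (T1 : ℝ) ≤ K * n := by
    have h : (T1 : ℝ) / K ≤ n := (Nat.le_ceil _).trans (Nat.cast_le.mpr hn2)
    rw [div_le_iff₀ hK0] at h
    linarith
  have hn3' : (T2 : ℝ) ≤ κ' * (K * n) := by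
    have h : (T2 : ℝ) / (κ' * K) ≤ n := (Nat.le_ceil _).trans (Nat.cast_le.mpr hn3)
    rw [div_le_iff₀ (by positivity)] at h
    linarith
  have hn4' : 4 * δ * Real.log b ≤ n * Real.log c := by
    have h : 4 * δ * Real.log b / Real.log c ≤ n := (Nat.le_ceil _).trans (Nat.cast_le.mpr hn4)
    rwa [div_le_iff₀ hlc] at h
  have hn0 : (0 : ℝ) < n := by exact_mod_cast (by omega : 0 < n)
  -- the number N₁
  set N₁ : ℕ := ⌈K * n⌉₊ with hN₁
  have hN₁a : K * n ≤ N₁ := Nat.le_ceil _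
  have hN₁b : (N₁ : ℝ) < K * n + 1 := Nat.ceil_lt_add_one (by positivity)
  have hN₁T : T1 ≤ N₁ := by exact_mod_cast hn2'.trans hN₁a
  obtain ⟨hnear, htr⟩ := hT1 N₁ hN₁T
  obtain ⟨N, q, Y, hN1, hN2, hTr⟩ := htr hnear
  have hNT : T2 ≤ N := by
    have : (T2 : ℝ) ≤ N := by
      calc (T2 : ℝ) ≤ κ' * (K * n) := hn3'
        _ ≤ κ' * N₁ := mul_le_mul_of_nonneg_left hN₁a hκ'.le
        _ ≤ N := hN1
    exact_mod_cast this
  have hfin := hT2 N hNT q Y hTr
  obtain ⟨M, hM1, hM2⟩ := powAbove c hc ((b : ℝ) ^ N) (one_le_pow₀ hb1.le)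
  have hML : N * Real.log b ≤ M * Real.log c := by
    have h := Real.log_le_log (by positivity) hM1
    rwa [Real.log_pow, Real.log_pow] at h
  have hMn : (C + 1) * (n : ℝ) ≤ ε₀ * M := by
    have h5 : κ' * (K * n) ≤ N := (mul_le_mul_of_nonneg_left hN₁a hκ'.le).trans hN1
    have h6 : κ' * (K * n) * Real.log b ≤ M * Real.log c :=
      (mul_le_mul_of_nonneg_right h5 hlb.le).trans hML
    have h7 : κ' * (K * n) * Real.log b = (C + 1) * n / ε₀ * Real.log c := by
      rw [hK]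
      field_simp
    rw [h7] at h6
    have h8 := le_of_mul_le_mul_right h6 hlc
    rw [div_le_iff₀ hε₀] at h8
    linarith
  obtain ⟨I, J, hI, hIJ, hJ, hd⟩ := hpig c x C n M hc hcon
  have hdd := (hdig c x hc).2 I J n hd
  refine hfin M hM1 hM2 1 1 (pre c x J - pre c x I) I J hI hIJ.le ?_ ?_ ?_ ?_ ?_
  · have h9 : (J : ℝ) ≤ ((M + C * n : ℕ) : ℝ) := by exact_mod_cast hJ
    push_cast at h9
    nlinarith
  · simp only [Int.cast_one, abs_one]
    exact Real.one_le_rpow hb1.le (by positivity)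
  · simp only [Int.cast_one, abs_one]
    exact Real.one_le_rpow hb1.le (by positivity)
  · rw [one_mul, one_mul]
    intro h
    have h10 : (c : ℤ) ^ I < (c : ℤ) ^ J :=
      pow_lt_pow_right₀ (by exact_mod_cast (by omega : 1 < c)) hIJ
    omega
  · have h11 : (((1 : ℤ) : ℝ) * (c : ℝ) ^ J - ((1 : ℤ) : ℝ) * (c : ℝ) ^ I) * x
        - ((pre c x J - pre c x I : ℤ) : ℝ)
        = ((c : ℝ) ^ J - (c : ℝ) ^ I) * x - ((pre c x J - pre c x I : ℤ) : ℝ) := by
      push_cast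
      ring
    rw [h11]
    refine hdd.trans ?_
    rw [Real.rpow_neg hb0.le]
    apply inv_anti₀ (by positivity)
    have h12 : (c : ℝ) ^ n = Real.exp (n * Real.log c) := by
      rw [mul_comm, ← Real.rpow_def_of_pos hc0, Real.rpow_natCast]
    have h13 : (b : ℝ) ^ (δ * N) = Real.exp (δ * N * Real.log b) := by
      rw [Real.rpow_def_of_pos hb0, mul_comm]
    rw [h12, h13]
    apply Real.exp_le_exp.mpr
    have h14 : (N : ℝ) ≤ 2 * (K * n + 1) := by
      have : (N : ℝ) ≤ ((2 * N₁ : ℕ) : ℝ) := by exact_mod_cast hN2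
      push_cast at this
      linarith
    have h15 : δ * (2 * (K * n)) * Real.log b = n * Real.log c / 2 := by
      rw [hK, hδ]
      field_simp
      ring
    have h16 : δ * N * Real.log b ≤ δ * (2 * (K * n + 1)) * Real.log b := by
      apply mul_le_mul_of_nonneg_right _ hlb.le
      exact mul_le_mul_of_nonneg_left h14 hδ0.le
    have h17 : δ * (2 * (K * n + 1)) * Real.log b
        = δ * (2 * (K * n)) * Real.log b + 2 * δ * Real.log b := by ring
    rw [h17, h15] at h16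
    linarith

end Pool.Agent.Lib.MP_acd137_lc
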