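import Pool.Agent.Lib.MP_acd137_lc.Spec

set_option autoImplicit false

namespace Pool.Agent.Lib.MP_acd137_lc

open Filter Topology

/-- `b^m ∣ D y` with `D < 2^(m-1)` implies `b ∣ y` -/
private theorem dvd_of_small (b m D y : ℕ) (hD : 1 ≤ D) (hDm : D < 2 ^ (m - 1))
    (h : b ^ m ∣ D * y) : b ∣ y := by
  have hm : 2 ≤ m := by
    by_contra hcon
    have : m - 1 = 0 := by omega
    rw [this] at hDm
    simp at hDm
    omega
  rw [Nat.dvd_iff_prime_pow_dvd_dvd]
  intro p k hp hk
  rcases Nat.eq_zero_or_pos k with hk0 | hk0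
  · subst hk0; simp
  obtain ⟨v, D', hD', hDe⟩ := Nat.exists_eq_pow_mul_and_not_dvd (n := D) (by omega) p hp.ne_one
  have hv : v < m - 1 := by
    by_contra hcon
    push Not at hcon
    have h1 : 2 ^ (m - 1) ≤ p ^ v :=
      le_trans (Nat.pow_le_pow_left hp.two_le _) (Nat.pow_le_pow_right hp.pos hcon)
    have h2 : p ^ v ≤ D := by
      rw [hDe]
      exact Nat.le_mul_of_pos_right _ (Nat.pos_of_ne_zero (by
        intro h0; rw [h0] at hD'; exact hD' (dvd_zero _)))
    omega
  have h3 : p ^ (k * m) ∣ p ^ v * (D' * y) := by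
    have : p ^ (k * m) ∣ b ^ m := by
      rw [pow_mul]
      exact pow_dvd_pow_of_dvd hk m
    have h4 := this.trans h
    rw [hDe, mul_assoc] at h4
    exact h4
  have hkm : v + k ≤ k * m := by
    have : k * m = k * (m - 1) + k := by
      conv_lhs => rw [show m = (m - 1) + 1 by omega]
      ring
    have h5 : m - 1 ≤ k * (m - 1) := Nat.le_mul_of_pos_left _ hk0
    omega
  have h5 : p ^ (v + k) ∣ p ^ v * (D' * y) := (pow_dvd_pow p hkm).trans h3
  rw [pow_add] at h5
  have h6 : p ^ k ∣ D' * y := Nat.dvd_of_mul_dvd_mul_left (pow_pos hp.pos v) h5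
  exact Nat.Coprime.dvd_of_dvd_mul_left
    (Nat.Coprime.pow_left k ((Nat.Prime.coprime_iff_not_dvd hp).2 hD')) h6

private theorem dvd_of_small' (b m D : ℕ) (Y : ℤ) (hD : 1 ≤ D) (hDm : D < 2 ^ (m - 1))
    (h : (b : ℤ) ^ m ∣ D * Y) : (b : ℤ) ∣ Y := by
  rw [← Int.natAbs_dvd_natAbs] at h ⊢
  rw [Int.natAbs_mul, Int.natAbs_pow, Int.natAbs_natCast, Int.natAbs_natCast] at h
  rw [Int.natAbs_natCast]
  exact dvd_of_small b m D _ hD hDm h

/-- pigeonhole for thresholds -/
private theorem exists_gap (R : ℕ) (θ : ℕ → ℝ) (hθ : Monotone θ) (α : Fin (R + 1) → ℝ) :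
    ∃ j ≤ R + 1, ∀ s, α s ≤ θ j ∨ θ (j + 1) < α s := by
  by_contra hcon
  push Not at hcon
  have h1 : ∀ j : Fin (R + 2), ∃ s, θ j < α s ∧ α s ≤ θ (j + 1) := fun j =>
    hcon j (by have := j.2; omega)
  choose f hf using h1
  have hinj : Function.Injective f := by
    intro i j hij
    by_contra hne
    rcases lt_or_gt_of_ne hne with h | h
    · have h2 : θ (i + 1) ≤ θ j := hθ (by exact_mod_cast Nat.succ_le_of_lt (Fin.lt_def.1 h))
      have h3 := (hf i).2
      have h4 := (hf j).1
      rw [hij] at h3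
      linarith
    · have h2 : θ (j + 1) ≤ θ i := hθ (by exact_mod_cast Nat.succ_le_of_lt (Fin.lt_def.1 h))
      have h3 := (hf j).2
      have h4 := (hf i).1
      rw [hij] at h4
      linarith
  have := Fintype.card_le_of_injective f hinj
  simp at this

theorem tGap : S_gap := by
  intro b p R ε' hb hp hpb hε'
  have hlb : 0 < Real.log b := Real.log_pos (by exact_mod_cast hb)
  have hlp : 0 < Real.log p := Real.log_pos (by exact_mod_cast hp.one_lt)
  have hl2 : 0 < Real.log 2 := Real.log_pos (by norm_num)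
  have hb0 : (0 : ℝ) < b := by positivity
  have hb1 : (1 : ℝ) ≤ b := by exact_mod_cast (by omega : 1 ≤ b)
  obtain ⟨lam, hlam2, hlam⟩ : ∃ lam : ℝ, 2 ≤ lam ∧ 4 * Real.log b ≤ lam * Real.log p :=
    ⟨max 2 (4 * Real.log b / Real.log p), le_max_left _ _, by
      calc 4 * Real.log b = 4 * Real.log b / Real.log p * Real.log p := by field_simp
        _ ≤ _ := by gcongr; exact le_max_right _ _⟩
  have hlam1 : 1 ≤ lam := by linarith
  have hlam0 : 0 < lam := by linarith
  obtain ⟨e2, he20, he2a, he2b⟩ : ∃ e2 : ℝ, 0 < e2 ∧ lam ^ (R + 2) * e2 ≤ 1 / 4 ∧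
      2 * (lam ^ (R + 2) * e2) * Real.log b ≤ ε' * Real.log p / 2 := by
    refine ⟨min (1 / (4 * lam ^ (R + 2))) (ε' * Real.log p / (4 * lam ^ (R + 2) * Real.log b)),
      by positivity, ?_, ?_⟩
    · calc lam ^ (R + 2) * _ ≤ lam ^ (R + 2) * (1 / (4 * lam ^ (R + 2))) := by
            gcongr; exact min_le_left _ _
        _ = 1 / 4 := by field_simp
    · calc _ ≤ 2 * (lam ^ (R + 2) * (ε' * Real.log p / (4 * lam ^ (R + 2) * Real.log b))) *
            Real.log b := by
            gcongr; exact min_le_right _ _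
        _ = ε' * Real.log p / 2 := by field_simp; ring
  obtain ⟨η, hη0, hηa, hηb⟩ : ∃ η : ℝ, 0 < η ∧ η ≤ e2 ∧ η * Real.log b ≤ e2 * Real.log 2 := by
    refine ⟨min e2 (e2 * Real.log 2 / Real.log b), by positivity, min_le_left _ _, ?_⟩
    calc _ ≤ e2 * Real.log 2 / Real.log b * Real.log b := by
          gcongr; exact min_le_right _ _
      _ = _ := by field_simp
  refine ⟨η, hη0, ?_⟩
  have hN : Tendsto (fun N : ℕ => (N : ℝ)) atTop atTop := tendsto_natCast_atTop_atTop
  have c1 : ∀ᶠ N : ℕ in atTop, (1 : ℝ) ≤ N := hN.eventually_ge_atTop 1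
  have c2 : ∀ᶠ N : ℕ in atTop, (Real.log (R + 1) + Real.log p + 1) / (2 * e2 * Real.log b) ≤ N :=
    hN.eventually_ge_atTop _
  have c3 : ∀ᶠ N : ℕ in atTop, 2 * Real.log (R + 1) / (ε' * Real.log p) ≤ N :=
    hN.eventually_ge_atTop _
  have c4 : ∀ᶠ N : ℕ in atTop, 3 / e2 ≤ N := hN.eventually_ge_atTop _
  filter_upwards [c1, c2, c3, c4] with N hN1 hN2 hN3 hN4 D Y A α hbY hRep
  obtain ⟨hD1, hD2, hA0, hA, hα, hα0, hsum⟩ := hRep
  have hN0 : (0 : ℝ) < N := by linarith
  rw [div_le_iff₀ (by positivity)] at hN2 hN3 hN4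
  -- thresholds
  set θ : ℕ → ℝ := fun j => lam ^ j * e2 * N with hθdef
  have hθm : Monotone θ := by
    intro i j hij
    simp only [hθdef]
    have := pow_le_pow_right₀ hlam1 hij
    gcongr
  obtain ⟨j, hjR, hj⟩ := exists_gap R θ hθm (fun s => (α s : ℝ))
  have hθj0 : e2 * N ≤ θ j := by
    have := hθm (Nat.zero_le j)
    simpa [hθdef] using this
  have hθpos : 0 < θ j := lt_of_lt_of_le (by positivity) hθj0
  have hθj1 : θ (j + 1) = lam * θ j := by simp only [hθdef]; ring
  have hθjR : θ (j + 1) ≤ lam ^ (R + 2) * e2 * N := hθm (by omega)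
  have hθjR' : θ j ≤ lam ^ (R + 2) * e2 * N := (hθm (Nat.le_succ j)).trans hθjR
  have hθq : θ j ≤ N / 4 := by
    have h1 : lam ^ (R + 2) * e2 * N ≤ 1 / 4 * N := mul_le_mul_of_nonneg_right he2a hN0.le
    linarith
  set m : ℕ := ⌊θ (j + 1)⌋₊ with hm
  have hmle : (m : ℝ) ≤ θ (j + 1) := Nat.floor_le (by rw [hθj1]; positivity)
  have hmlt : θ (j + 1) < m + 1 := Nat.lt_floor_add_one _
  set S : Finset (Fin (R + 1)) := Finset.univ.filter fun s => (α s : ℝ) ≤ θ j with hS
  set E : ℤ := ∑ s ∈ S, A s * (b : ℤ) ^ α s with hE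
  have hdiv : (b : ℤ) ^ m ∣ D * Y - E := by
    have h1 : (D : ℤ) * Y - E = ∑ s ∈ Finset.univ.filter fun s => ¬ (α s : ℝ) ≤ θ j,
        A s * (b : ℤ) ^ α s := by
      rw [hsum, hE, hS]
      have := Finset.sum_filter_add_sum_filter_not Finset.univ
        (fun s => (α s : ℝ) ≤ θ j) (fun s => A s * (b : ℤ) ^ α s)
      linarith
    rw [h1]
    apply Finset.dvd_sum
    intro s hs
    rw [Finset.mem_filter] at hs
    have h2 : θ (j + 1) < α s := (hj s).resolve_left hs.2
    have h3 : m ≤ α s := by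
      have : (m : ℝ) < α s := lt_of_le_of_lt hmle h2
      exact_mod_cast this.le
    exact Dvd.dvd.mul_left (pow_dvd_pow _ h3) _
  -- size of E
  have hEabs : (|E| : ℝ) ≤ (R + 1) * (b : ℝ) ^ (η * N + θ j) := by
    have h1 : (|E| : ℝ) ≤ ∑ s ∈ S, (b : ℝ) ^ (η * N + θ j) := by
      rw [hE]
      push_cast
      refine (Finset.abs_sum_le_sum_abs _ _).trans (Finset.sum_le_sum fun s hs => ?_)
      rw [hS, Finset.mem_filter] at hs
      have hs0 : s ≠ 0 := by
        intro h0
        have h3 := hs.2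
        rw [h0] at h3
        have : (1 - 1 / 2 : ℝ) * N ≤ N / 4 := by linarith
        linarith
      have h4 := hA s hs0
      rw [abs_mul, Real.rpow_add hb0]
      have h5 : |(b : ℝ) ^ α s| ≤ (b : ℝ) ^ θ j := by
        rw [abs_of_pos (by positivity), ← Real.rpow_natCast]
        exact Real.rpow_le_rpow_of_exponent_le hb1 hs.2
      exact mul_le_mul h4 h5 (abs_nonneg _) (by positivity)
    refine h1.trans ?_
    rw [Finset.sum_const, nsmul_eq_mul]
    have h2 : (S.card : ℝ) ≤ R + 1 := by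
      have := Finset.card_le_univ S
      rw [Fintype.card_fin] at this
      exact_mod_cast this
    gcongr
  -- E is not zero
  have hE0 : E ≠ 0 := by
    intro h0
    apply hbY
    apply dvd_of_small' b m D Y hD1
    · have h1 : Real.log D ≤ η * N * Real.log b := by
        have h2 := Real.log_le_log (by exact_mod_cast hD1) hD2
        rwa [Real.log_rpow hb0] at h2
      have h3 : (m : ℝ) - 1 > e2 * N := by
        have h8 : 2 * θ j ≤ lam * θ j := mul_le_mul_of_nonneg_right hlam2 hθpos.le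
        linarith
      have hm1 : 1 ≤ m := by
        have : (0 : ℝ) < m := by
          have h9 : 0 < e2 * N := by positivity
          linarith
        exact_mod_cast this
      have h4 : Real.log D < Real.log ((2 : ℝ) ^ (m - 1)) := by
        rw [Real.log_pow, Nat.cast_sub hm1]
        have h5 : η * N * Real.log b ≤ e2 * N * Real.log 2 := by
          have h9 := mul_le_mul_of_nonneg_right hηb hN0.le
          linarith
        have h6 : e2 * N * Real.log 2 < ((m : ℝ) - (1 : ℕ)) * Real.log 2 := by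
          push_cast
          exact mul_lt_mul_of_pos_right h3 hl2
        linarith
      have h7 := (Real.log_lt_log_iff (by exact_mod_cast hD1) (by positivity)).1 h4
      exact_mod_cast h7
    · rw [h0, sub_zero] at hdiv
      exact hdiv
  have hEpos : (0 : ℝ) < |(E : ℝ)| := by
    rw [abs_pos]
    exact_mod_cast hE0
  have hlogE : Real.log |(E : ℝ)| ≤ Real.log (R + 1) + (η * N + θ j) * Real.log b := by
    have h1 := Real.log_le_log hEpos hEabs
    rwa [Real.log_mul (by positivity) (by positivity), Real.log_rpow hb0] at h1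
  have hηN : η * N ≤ θ j := by
    have h9 := mul_le_mul_of_nonneg_right hηa hN0.le
    linarith
  -- |E| < p^m
  have hEm : |(E : ℝ)| < (p : ℝ) ^ m := by
    have h1 : Real.log |(E : ℝ)| < Real.log ((p : ℝ) ^ m) := by
      rw [Real.log_pow]
      have h2 : lam * θ j * Real.log p ≥ 4 * θ j * Real.log b := by
        have h9 := mul_le_mul_of_nonneg_right hlam hθpos.le
        linarith
      have h3 : (m : ℝ) * Real.log p > (lam * θ j - 1) * Real.log p := by
        apply mul_lt_mul_of_pos_right _ hlp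
        rw [← hθj1]
        linarith
      have h4 : (η * N + θ j) * Real.log b ≤ 2 * θ j * Real.log b :=
        mul_le_mul_of_nonneg_right (by linarith) hlb.le
      have h5 : e2 * N * Real.log b ≤ θ j * Real.log b := mul_le_mul_of_nonneg_right hθj0 hlb.le
      linarith
    exact (Real.log_lt_log_iff hEpos (by have := hp.pos; positivity)).1 h1
  have hpm : (p : ℤ) ^ m ∣ D * Y - E :=
    (pow_dvd_pow_of_dvd (by exact_mod_cast hpb) m).trans hdiv
  set v := padicValInt p Y with hv
  have hpv : (p : ℤ) ^ v ∣ D * Y := Dvd.dvd.mul_left (padicValInt_dvd Y) _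
  have key : (p : ℝ) ^ v ≤ |(E : ℝ)| := by
    rcases le_or_gt v m with hvm | hvm
    · have h1 : (p : ℤ) ^ v ∣ E := by
        have h2 := (pow_dvd_pow (p : ℤ) hvm).trans hpm
        have h3 := dvd_sub hpv h2
        simpa using h3
      have h2 := Int.le_of_dvd (abs_pos.2 hE0) ((dvd_abs _ _).2 h1)
      exact_mod_cast h2
    · exfalso
      have h1 : (p : ℤ) ^ m ∣ E := by
        have h2 := (pow_dvd_pow (p : ℤ) hvm.le).trans hpv
        have h3 := dvd_sub h2 hpm
        simpa using h3
      have h2 := Int.le_of_dvd (abs_pos.2 hE0) ((dvd_abs _ _).2 h1)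
      have h3 : (p : ℝ) ^ m ≤ |(E : ℝ)| := by exact_mod_cast h2
      linarith
  have h1 : (v : ℝ) * Real.log p ≤ Real.log (R + 1) + (η * N + θ j) * Real.log b := by
    have h2 := Real.log_le_log (by have := hp.pos; positivity) key
    rw [Real.log_pow] at h2
    exact h2.trans hlogE
  have h2 : (η * N + θ j) * Real.log b ≤ ε' * Real.log p / 2 * N := by
    have h3 : (η * N + θ j) * Real.log b ≤ 2 * θ j * Real.log b :=
      mul_le_mul_of_nonneg_right (by linarith) hlb.le
    have h4 : 2 * θ j * Real.log b ≤ 2 * (lam ^ (R + 2) * e2 * N) * Real.log b := by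
      gcongr
    have h5 : 2 * (lam ^ (R + 2) * e2 * N) * Real.log b
        = 2 * (lam ^ (R + 2) * e2) * Real.log b * N := by ring
    have h6 : 2 * (lam ^ (R + 2) * e2) * Real.log b * N ≤ ε' * Real.log p / 2 * N := by gcongr
    linarith
  have h3 : (v : ℝ) * Real.log p ≤ (ε' * N) * Real.log p := by linarith
  exact le_of_mul_le_mul_right h3 hlp

end Pool.Agent.Lib.MP_acd137_lc
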