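import Pool.Agent.Lib.MP_acd137_lc.Spec

set_option autoImplicit false

namespace Pool.Agent.Lib.MP_acd137_lc

open Filter Topology

/-- (irr) Numbers with break points and non-constant approximations are irrational. -/
theorem tIrr : S_irr := by
  intro b x g q A hb hB hne
  obtain ⟨hg, hgap, hq1, hqs, happ⟩ := hB
  rintro ⟨r, hr⟩
  have hb1 : (1 : ℝ) < b := by exact_mod_cast (by omega : 1 < b)
  have hb0 : (0 : ℝ) < b := by linarith
  have hQ : (0 : ℝ) < r.den := by exact_mod_cast r.den_pos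
  have hxr : x * r.den = r.num := by
    rw [← hr]
    exact_mod_cast Rat.mul_den_eq_num r
  obtain ⟨m, hm⟩ := pow_unbounded_of_one_lt ((r.den : ℝ) * b) hb1
  have key : ∀ᶠ k in atTop, x = (A k : ℝ) / (q k * (b : ℝ) ^ g k) := by
    filter_upwards [hgap, hqs (1 / 4) (by norm_num), happ, hg.eventually_ge_atTop (4 * m)]
      with k h1 h2 h3 h4
    have hq0 : (0 : ℝ) < q k := by exact_mod_cast hq1 k
    have hbk : (0 : ℝ) < (b : ℝ) ^ g k := by positivity
    set n := g (k + 1) - g k with hn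
    have hn2 : g k ≤ 2 * n := by omega
    -- the integer
    have hE : ((r.num * q k * (b : ℤ) ^ g k - r.den * A k : ℤ) : ℝ)
        = r.den * q k * ((b : ℝ) ^ g k * x - A k / q k) := by
      push_cast
      rw [← hxr]
      field_simp
    have hbn : (0 : ℝ) < (b : ℝ) ^ n := by positivity
    have h5 : (q k : ℝ) * (r.den * b) < (b : ℝ) ^ n := by
      have h6 : (b : ℝ) ^ m ≤ (b : ℝ) ^ ((g k : ℝ) / 4) := by
        rw [← Real.rpow_natCast]
        apply Real.rpow_le_rpow_of_exponent_le hb1.le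
        have : ((4 * m : ℕ) : ℝ) ≤ g k := by exact_mod_cast h4
        push_cast at this
        linarith
      have h7 : (b : ℝ) ^ ((g k : ℝ) / 4) * (b : ℝ) ^ ((g k : ℝ) / 4) ≤ (b : ℝ) ^ n := by
        rw [← Real.rpow_add hb0, ← Real.rpow_natCast (b : ℝ) n]
        apply Real.rpow_le_rpow_of_exponent_le hb1.le
        have : (g k : ℝ) ≤ ((2 * n : ℕ) : ℝ) := by exact_mod_cast hn2
        push_cast at this
        linarith
      have h8 : (q k : ℝ) ≤ (b : ℝ) ^ ((g k : ℝ) / 4) := by
        have : (1 / 4 : ℝ) * (g k : ℝ) = (g k : ℝ) / 4 := by ring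
        rwa [this] at h2
      have h9 : (0 : ℝ) < (b : ℝ) ^ ((g k : ℝ) / 4) := by positivity
      calc (q k : ℝ) * (r.den * b) ≤ (b : ℝ) ^ ((g k : ℝ) / 4) * (r.den * b) :=
            mul_le_mul_of_nonneg_right h8 (by positivity)
        _ < (b : ℝ) ^ ((g k : ℝ) / 4) * (b : ℝ) ^ ((g k : ℝ) / 4) :=
            mul_lt_mul_of_pos_left (hm.trans_le h6) h9
        _ ≤ _ := h7
    have hlt : |((r.num * q k * (b : ℤ) ^ g k - r.den * A k : ℤ) : ℝ)| < 1 := by
      rw [hE, abs_mul, abs_of_pos (by positivity : (0 : ℝ) < r.den * q k)]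
      calc (r.den : ℝ) * q k * |(b : ℝ) ^ g k * x - A k / q k|
          ≤ r.den * q k * (b * ((b : ℝ) ^ n)⁻¹) := mul_le_mul_of_nonneg_left h3 (by positivity)
        _ = (q k * (r.den * b)) / (b : ℝ) ^ n := by
            field_simp
        _ < 1 := by
            rw [div_lt_one hbn]
            exact h5
    have hz : (r.num * q k * (b : ℤ) ^ g k - r.den * A k : ℤ) = 0 := by
      have h10 : |(r.num * q k * (b : ℤ) ^ g k - r.den * A k : ℤ)| < 1 := by exact_mod_cast hlt
      exact Int.abs_lt_one_iff.mp h10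
    rw [hz, Int.cast_zero] at hE
    have h11 : (b : ℝ) ^ g k * x - A k / q k = 0 := by
      have h12 : (r.den : ℝ) * q k ≠ 0 := by positivity
      rcases mul_eq_zero.mp hE.symm with h | h
      · exact absurd h h12
      · exact h
    have h13 : (b : ℝ) ^ g k * x = A k / q k := by linarith
    rw [eq_div_iff (by positivity)]
    rw [eq_div_iff hq0.ne'] at h13
    linarith
  have key2 : ∀ᶠ k in atTop, x = (A (k + 1) : ℝ) / (q (k + 1) * (b : ℝ) ^ g (k + 1)) :=
    (tendsto_add_atTop_nat 1).eventually key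
  obtain ⟨k, h1, h2, h3⟩ := (key.and (key2.and hne)).exists
  exact h3 (h1.symm.trans h2)

end Pool.Agent.Lib.MP_acd137_lc
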