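import Pool.Agent.Lib.MP_acd137_lc.Spec

/-!
# MP_acd137_lc: the key statement
-/

set_option autoImplicit false

namespace Pool.Agent.Lib.MP_acd137_lc

open Filter Topology

private theorem bp_le {b : ℕ} (hb : 2 ≤ b) {s t : ℝ} (h : s ≤ t) : (b : ℝ) ^ s ≤ (b : ℝ) ^ t :=
  Real.rpow_le_rpow_of_exponent_le (by exact_mod_cast (by omega : 1 ≤ b)) h

private theorem tr_mono {b : ℕ} {x ρ η η' : ℝ} {N q : ℕ} {Y : ℤ} (hb : 2 ≤ b) (h : η ≤ η')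
    (hT : Tr b x ρ η N q Y) : Tr b x ρ η' N q Y :=
  ⟨hT.1, hT.2.1.trans (bp_le hb (mul_le_mul_of_nonneg_right h (Nat.cast_nonneg N))), hT.2.2⟩

private theorem cJ_le {b c : ℕ} (hc : 2 ≤ c) {ε₀ : ℝ} (h0 : 0 < ε₀) (h1 : ε₀ ≤ 1)
    {N M J : ℕ} (hM : (c : ℝ) ^ M ≤ c * (b : ℝ) ^ N) (hJ : (J : ℝ) ≤ (1 + ε₀) * M) :
    (c : ℝ) ^ J ≤ (c : ℝ) ^ 2 * (b : ℝ) ^ ((1 + ε₀) * N) := by
  have hc1 : (1 : ℝ) ≤ c := by exact_mod_cast (by omega : 1 ≤ c)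
  have hc0 : (0 : ℝ) ≤ c := by linarith
  have hb0 : (0 : ℝ) ≤ b := Nat.cast_nonneg b
  have hb1 : (0 : ℝ) ≤ (b : ℝ) ^ N := pow_nonneg hb0 N
  calc (c : ℝ) ^ J = (c : ℝ) ^ (J : ℝ) := (Real.rpow_natCast _ _).symm
    _ ≤ (c : ℝ) ^ ((M : ℝ) * (1 + ε₀)) :=
        Real.rpow_le_rpow_of_exponent_le hc1 (by linarith)
    _ = ((c : ℝ) ^ M) ^ (1 + ε₀) := by
        rw [Real.rpow_mul hc0, Real.rpow_natCast]
    _ ≤ (c * (b : ℝ) ^ N) ^ (1 + ε₀) :=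
        Real.rpow_le_rpow (pow_nonneg hc0 M) hM (by linarith)
    _ = (c : ℝ) ^ (1 + ε₀) * ((b : ℝ) ^ N) ^ (1 + ε₀) := Real.mul_rpow hc0 hb1
    _ ≤ (c : ℝ) ^ 2 * (b : ℝ) ^ ((1 + ε₀) * N) := by
        refine mul_le_mul ?_ (le_of_eq ?_) (Real.rpow_nonneg hb1 _) (pow_nonneg hc0 2)
        · rw [← Real.rpow_natCast]
          refine Real.rpow_le_rpow_of_exponent_le hc1 ?_
          push_cast
          linarith
        · rw [← Real.rpow_natCast, ← Real.rpow_mul hb0, mul_comm]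

theorem tKp : S_trans → S_val → S_nv → S_sub → S_kp := by
  intro hTrans hVal hNv hSub b c x hb hc hInd hSim ρ hρ
  obtain ⟨p, hp, hpb, ε₀', hε₀', ε₁, hε₁, hnv⟩ := hNv b c hb hc hInd
  set ε₀ : ℝ := min ε₀' (min (ρ / 2) 1) with hε₀
  have hε₀0 : 0 < ε₀ := lt_min hε₀' (lt_min (by linarith) one_pos)
  have hε₀1 : ε₀ ≤ ε₀' := min_le_left _ _
  have hε₀2 : ε₀ ≤ ρ / 2 := (min_le_right _ _).trans (min_le_left _ _)
  have hε₀3 : ε₀ ≤ 1 := (min_le_right _ _).trans (min_le_right _ _)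
  refine ⟨ε₀, hε₀0, fun δ hδ => ?_⟩
  set m₀ : ℝ := min (ρ / 2) δ with hm₀
  have hm0 : 0 < m₀ := lt_min (by linarith) hδ
  have hm1 : m₀ ≤ ρ / 2 := min_le_left _ _
  have hm2 : m₀ ≤ δ := min_le_right _ _
  obtain ⟨R, hR⟩ := hTrans b x hb hSim (m₀ / 16) (by linarith)
  set η₁ : ℝ := m₀ / (16 * (R + 1)) with hη₁
  have hR1 : (0 : ℝ) < 16 * (R + 1) := by positivity
  have hη₁0 : 0 < η₁ := div_pos hm0 hR1
  have hη₁R : η₁ * (16 * (R + 1)) = m₀ := by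
    rw [hη₁]
    field_simp
  have hη₁1 : 16 * η₁ ≤ m₀ := by
    have h1 : (0 : ℝ) ≤ R := Nat.cast_nonneg R
    have h2 : 0 ≤ η₁ * (16 * R) := by positivity
    nlinarith
  obtain ⟨η', hη', hTr⟩ := hR η₁ hη₁0
  obtain ⟨ηv, hηv, hV⟩ := hVal b x hb hSim p hp hpb ε₁ hε₁
  set η : ℝ := min (min η' η₁) (min ε₁ ηv) with hη
  have hη0 : 0 < η := lt_min (lt_min hη' hη₁0) (lt_min hε₁ hηv)
  have hηa : η ≤ η' := (min_le_left _ _).trans (min_le_left _ _)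
  have hηb : η ≤ η₁ := (min_le_left _ _).trans (min_le_right _ _)
  have hηc : η ≤ ε₁ := (min_le_right _ _).trans (min_le_left _ _)
  have hηd : η ≤ ηv := (min_le_right _ _).trans (min_le_right _ _)
  refine ⟨η, hη0, ?_⟩
  have hb1 : (1 : ℝ) < b := by exact_mod_cast (by omega : 1 < b)
  have hb0 : (0 : ℝ) < b := by linarith
  have hc1 : (1 : ℝ) ≤ c := by exact_mod_cast (by omega : 1 ≤ c)
  have hc0 : (0 : ℝ) < c := by linarith
  -- large `N`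
  have hlim : Tendsto (fun N : ℕ => (b : ℝ) ^ ((3 / 8 * m₀) * (N : ℝ))) atTop atTop := by
    have h1 : Tendsto (fun N : ℕ => (3 / 8 * m₀) * (N : ℝ)) atTop atTop :=
      tendsto_natCast_atTop_atTop.const_mul_atTop (by positivity)
    exact (tendsto_rpow_atTop_of_base_gt_one _ hb1).comp h1
  have hlim2 : Tendsto (fun N : ℕ => (b : ℝ) ^ (N : ℝ)) atTop atTop :=
    (tendsto_rpow_atTop_of_base_gt_one _ hb1).comp tendsto_natCast_atTop_atTop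
  filter_upwards [hTr ρ hρ, hV ρ hρ, hnv,
    hSub b c R (m₀ / 2) 3 (m₀ / 16) η₁ hb hc (by linarith) hη₁0.le (by nlinarith),
    hlim.eventually_ge_atTop (2 * (c : ℝ) ^ 2 + 1), hlim2.eventually_ge_atTop ((c : ℝ) ^ 2)]
    with N hTrN hVN hnvN hSubN hN1 hN2
  intro q Y hT M hM1 hM2 q₁ q₂ B I J hMI hIJ hJ hq₁ hq₂ hne hcon
  obtain ⟨D, A, α, hRep⟩ := hTrN q Y (tr_mono hb hηa hT)
  have hval := hVN q Y (tr_mono hb hηd hT)
  have hN0 : (0 : ℝ) ≤ N := Nat.cast_nonneg N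
  have hY0 : Y ≠ 0 := by
    rintro rfl
    exact hT.2.2.1 (dvd_zero _)
  have hM0 : (0 : ℝ) ≤ M := Nat.cast_nonneg M
  have hq₁' : (|q₁| : ℝ) ≤ (b : ℝ) ^ (ε₁ * N) :=
    hq₁.trans (bp_le hb (mul_le_mul_of_nonneg_right hηc hN0))
  have hq₂' : (|q₂| : ℝ) ≤ (b : ℝ) ^ (ε₁ * N) :=
    hq₂.trans (bp_le hb (mul_le_mul_of_nonneg_right hηc hN0))
  have hnd := hnvN M hM2 Y q₁ q₂ I J hY0 hval hMI hIJ
    (hJ.trans (mul_le_mul_of_nonneg_right (by linarith) hM0)) hq₁' hq₂' hne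
  have hD1 : 1 ≤ D := hRep.1
  have hD2 : (D : ℝ) ≤ (b : ℝ) ^ (η₁ * N) := hRep.2.1
  have hcJ := cJ_le hc hε₀0 hε₀3 hM2 hJ
  -- the number `W Y - q b^N B`
  set W : ℤ := q₁ * (c : ℤ) ^ J - q₂ * (c : ℤ) ^ I with hW
  have hWr : (W : ℝ) = (q₁ : ℝ) * (c : ℝ) ^ J - q₂ * (c : ℝ) ^ I := by
    rw [hW]
    push_cast
    ring
  have hL0 : W * Y - q * (b : ℤ) ^ N * B ≠ 0 := by
    intro h0
    apply hnd
    refine ⟨q * B, ?_⟩
    linear_combination h0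
  have hcI : (c : ℝ) ^ I ≤ (c : ℝ) ^ J := pow_le_pow_right₀ hc1 hIJ
  have hWabs : |(W : ℝ)| ≤ 2 * (b : ℝ) ^ (η * N) * (c : ℝ) ^ J := by
    rw [hWr]
    refine (abs_sub _ _).trans ?_
    rw [abs_mul, abs_mul, abs_of_nonneg (pow_nonneg hc0.le J), abs_of_nonneg (pow_nonneg hc0.le I)]
    have h1 : |(q₁ : ℝ)| * (c : ℝ) ^ J ≤ (b : ℝ) ^ (η * N) * (c : ℝ) ^ J :=
      mul_le_mul_of_nonneg_right hq₁ (pow_nonneg hc0.le J)
    have h2 : |(q₂ : ℝ)| * (c : ℝ) ^ I ≤ (b : ℝ) ^ (η * N) * (c : ℝ) ^ J :=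
      mul_le_mul hq₂ hcI (pow_nonneg hc0.le I) (Real.rpow_nonneg hb0.le _)
    linarith
  have hTb := hT.2.2.2
  have hqb := hT.2.1
  have hLabs : |((W * Y - q * (b : ℤ) ^ N * B : ℤ) : ℝ)| ≤
      (2 * (c : ℝ) ^ 2 + 1) * (b : ℝ) ^ ((1 - m₀ + η) * N) := by
    have h1 : ((W * Y - q * (b : ℤ) ^ N * B : ℤ) : ℝ) =
        (W : ℝ) * (Y - q * (b : ℝ) ^ N * x) + q * (b : ℝ) ^ N * ((W : ℝ) * x - B) := by
      push_cast
      ring
    rw [h1]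
    refine (abs_add_le _ _).trans ?_
    rw [abs_mul, abs_mul]
    have h2 : |(W : ℝ)| * |(Y : ℝ) - q * (b : ℝ) ^ N * x| ≤
        2 * (c : ℝ) ^ 2 * (b : ℝ) ^ ((1 - m₀ + η) * N) := by
      calc |(W : ℝ)| * |(Y : ℝ) - q * (b : ℝ) ^ N * x|
          ≤ (2 * (b : ℝ) ^ (η * N) * ((c : ℝ) ^ 2 * (b : ℝ) ^ ((1 + ε₀) * N))) *
            (b : ℝ) ^ (-(ρ * N)) := by
            refine mul_le_mul (hWabs.trans ?_) ?_ (abs_nonneg _) ?_
            · exact mul_le_mul_of_nonneg_left hcJ (by positivity)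
            · rw [abs_sub_comm]
              exact hTb
            · positivity
        _ = 2 * (c : ℝ) ^ 2 * ((b : ℝ) ^ (η * N) * (b : ℝ) ^ ((1 + ε₀) * N) *
            (b : ℝ) ^ (-(ρ * N))) := by ring
        _ = 2 * (c : ℝ) ^ 2 * (b : ℝ) ^ (η * N + (1 + ε₀) * N + -(ρ * N)) := by
            rw [Real.rpow_add hb0, Real.rpow_add hb0]
        _ ≤ 2 * (c : ℝ) ^ 2 * (b : ℝ) ^ ((1 - m₀ + η) * N) := by
            refine mul_le_mul_of_nonneg_left (bp_le hb ?_) (by positivity)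
            have h3 : (η + (1 + ε₀) - ρ) * N ≤ (1 - m₀ + η) * N :=
              mul_le_mul_of_nonneg_right (by linarith) hN0
            linarith
    have h3 : |(q : ℝ) * (b : ℝ) ^ N| * |(W : ℝ) * x - B| ≤ 1 * (b : ℝ) ^ ((1 - m₀ + η) * N) := by
      rw [abs_of_nonneg (by positivity), hWr, one_mul]
      calc (q : ℝ) * (b : ℝ) ^ N * |((q₁ : ℝ) * (c : ℝ) ^ J - q₂ * (c : ℝ) ^ I) * x - B|
          ≤ (b : ℝ) ^ (η * N) * (b : ℝ) ^ (N : ℝ) * (b : ℝ) ^ (-(δ * N)) := by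
            rw [Real.rpow_natCast]
            refine mul_le_mul (mul_le_mul_of_nonneg_right hqb (by positivity)) hcon
              (abs_nonneg _) (by positivity)
        _ = (b : ℝ) ^ (η * N + N + -(δ * N)) := by
            rw [Real.rpow_add hb0, Real.rpow_add hb0]
        _ ≤ (b : ℝ) ^ ((1 - m₀ + η) * N) := by
            refine bp_le hb ?_
            have h3 : (η + 1 - δ) * N ≤ (1 - m₀ + η) * N :=
              mul_le_mul_of_nonneg_right (by linarith) hN0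
            linarith
    linarith
  have hDL : |((W * (D * Y) - D * (q * (b : ℤ) ^ N * B) : ℤ) : ℝ)| ≤
      (b : ℝ) ^ ((1 - m₀ / 2) * N) := by
    have h1 : ((W * (D * Y) - D * (q * (b : ℤ) ^ N * B) : ℤ) : ℝ) =
        (D : ℝ) * ((W * Y - q * (b : ℤ) ^ N * B : ℤ) : ℝ) := by
      push_cast
      ring
    rw [h1, abs_mul, abs_of_nonneg (Nat.cast_nonneg D)]
    calc (D : ℝ) * |((W * Y - q * (b : ℤ) ^ N * B : ℤ) : ℝ)|
        ≤ (b : ℝ) ^ (η₁ * N) * ((2 * (c : ℝ) ^ 2 + 1) * (b : ℝ) ^ ((1 - m₀ + η) * N)) :=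
          mul_le_mul hD2 hLabs (abs_nonneg _) (Real.rpow_nonneg hb0.le _)
      _ ≤ (b : ℝ) ^ (η₁ * N) * ((b : ℝ) ^ ((3 / 8 * m₀) * (N : ℝ)) *
            (b : ℝ) ^ ((1 - m₀ + η) * N)) := by
          refine mul_le_mul_of_nonneg_left ?_ (Real.rpow_nonneg hb0.le _)
          exact mul_le_mul_of_nonneg_right hN1 (Real.rpow_nonneg hb0.le _)
      _ = (b : ℝ) ^ (η₁ * N + ((3 / 8 * m₀) * (N : ℝ) + (1 - m₀ + η) * N)) := by
          rw [Real.rpow_add hb0, Real.rpow_add hb0]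
      _ ≤ (b : ℝ) ^ ((1 - m₀ / 2) * N) := by
          refine bp_le hb ?_
          have h3 : (η₁ + 3 / 8 * m₀ + (1 - m₀ + η)) * N ≤ (1 - m₀ / 2) * N :=
            mul_le_mul_of_nonneg_right (by linarith) hN0
          linarith
  refine hSubN D Y A α hRep q₁ q₂ (D * (q * (b : ℤ) ^ N * B)) I J ?_ hIJ ?_ ?_ ?_ ?_ ?_ ?_
  · exact hM1.trans (pow_le_pow_right₀ hc1 hMI)
  · calc (c : ℝ) ^ J ≤ (c : ℝ) ^ 2 * (b : ℝ) ^ ((1 + ε₀) * N) := hcJ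
      _ ≤ (b : ℝ) ^ (N : ℝ) * (b : ℝ) ^ (2 * (N : ℝ)) := by
          refine mul_le_mul hN2 (bp_le hb ?_) (Real.rpow_nonneg hb0.le _)
            (Real.rpow_nonneg hb0.le _)
          exact mul_le_mul_of_nonneg_right (by linarith) hN0
      _ = (b : ℝ) ^ ((3 : ℝ) * N) := by
          rw [← Real.rpow_add hb0]
          congr 1
          ring
  · exact hq₁.trans (bp_le hb (mul_le_mul_of_nonneg_right hηb hN0))
  · exact hq₂.trans (bp_le hb (mul_le_mul_of_nonneg_right hηb hN0))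
  · exact ⟨D * (q * B), by ring⟩
  · rw [← hW]
    intro h0
    have h1 : (D : ℤ) * (W * Y - q * (b : ℤ) ^ N * B) = 0 := by linear_combination h0
    rcases mul_eq_zero.1 h1 with h2 | h2
    · have : D = 0 := by exact_mod_cast h2
      omega
    · exact hL0 h2
  · have h1 : (((W * (D * Y) - D * (q * (b : ℤ) ^ N * B) : ℤ) : ℝ)) =
        ((q₁ : ℝ) * ((c : ℤ) : ℝ) ^ J - (q₂ : ℝ) * ((c : ℤ) : ℝ) ^ I) * ((D : ℝ) * (Y : ℝ)) -
          ((D * (q * (b : ℤ) ^ N * B) : ℤ) : ℝ) := by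
      rw [hW]
      push_cast
      ring
    rw [h1] at hDL
    exact hDL

end Pool.Agent.Lib.MP_acd137_lc
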