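import Pool.Agent.Lib.MP_acd137_lc.Spec

/-!
# MP_acd137_lc, Lac: lacunary sums (helper84)
-/

set_option autoImplicit false

namespace Pool.Agent.Lib.MP_acd137_lc

open Filter Topology

namespace LacAux

variable {b : ℕ} {g : ℕ → ℕ}

/-- the terms -/
theorem sum_able (hb : 2 ≤ b) (hg : StrictMono g) : Summable fun k => ((b : ℝ) ^ g k)⁻¹ := by
  have hb1 : (1 : ℝ) < b := by exact_mod_cast (by omega : 1 < b)
  have h1 : Summable fun k : ℕ => ((b : ℝ) ^ k)⁻¹ := by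
    have := summable_geometric_of_lt_one (r := (b : ℝ)⁻¹) (by positivity) (inv_lt_one_of_one_lt₀ hb1)
    simpa [inv_pow] using this
  exact h1.comp_injective hg.injective

/-- the tail -/
theorem tail_le (hb : 2 ≤ b) (hg : StrictMono g) (k : ℕ) :
    ∑' j, ((b : ℝ) ^ g (j + (k + 1)))⁻¹ ≤ b * ((b : ℝ) ^ g (k + 1))⁻¹ := by
  have hb2 : (2 : ℝ) ≤ b := by exact_mod_cast hb
  have hb1 : (1 : ℝ) < b := by linarith
  have hb0 : (0 : ℝ) < b := by linarith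
  have hS := (summable_nat_add_iff (k + 1)).2 (sum_able hb hg)
  have h2 : HasSum (fun j : ℕ => ((b : ℝ) ^ g (k + 1))⁻¹ * (b : ℝ)⁻¹ ^ j)
      (((b : ℝ) ^ g (k + 1))⁻¹ * (1 - (b : ℝ)⁻¹)⁻¹) :=
    (hasSum_geometric_of_lt_one (by positivity) (inv_lt_one_of_one_lt₀ hb1)).mul_left _
  have h3 : ∀ j, ((b : ℝ) ^ g (j + (k + 1)))⁻¹ ≤ ((b : ℝ) ^ g (k + 1))⁻¹ * (b : ℝ)⁻¹ ^ j := by
    intro j
    rw [inv_pow, ← mul_inv, ← pow_add]
    apply inv_anti₀ (by positivity)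
    apply pow_le_pow_right₀ hb1.le
    have := hg.add_le_nat j (k + 1)
    omega
  have h4 := hS.tsum_le_tsum (f := fun j : ℕ => ((b : ℝ) ^ g (j + (k + 1)))⁻¹) h3 h2.summable
  rw [h2.tsum_eq] at h4
  refine h4.trans ?_
  rw [mul_comm]
  apply mul_le_mul_of_nonneg_right _ (by positivity)
  have h5 : (1 : ℝ) / 2 ≤ 1 - (b : ℝ)⁻¹ := by
    have : (b : ℝ)⁻¹ ≤ 1 / 2 := by
      rw [inv_eq_one_div]
      exact one_div_le_one_div_of_le (by norm_num) hb2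
    linarith
  calc (1 - (b : ℝ)⁻¹)⁻¹ ≤ (1 / 2 : ℝ)⁻¹ := inv_anti₀ (by norm_num) h5
    _ = 2 := by norm_num
    _ ≤ b := hb2

/-- the numerators -/
def AA (b : ℕ) (g : ℕ → ℕ) (k : ℕ) : ℤ := ∑ j ∈ Finset.range (k + 1), (b : ℤ) ^ (g k - g j)

theorem AA_eq (hb : 2 ≤ b) (hg : StrictMono g) (k : ℕ) :
    (AA b g k : ℝ) = (b : ℝ) ^ g k * ∑ j ∈ Finset.range (k + 1), ((b : ℝ) ^ g j)⁻¹ := by
  have hb0 : (b : ℝ) ≠ 0 := by
    have : (2 : ℝ) ≤ b := by exact_mod_cast hb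
    linarith
  unfold AA
  push_cast
  rw [Finset.mul_sum]
  refine Finset.sum_congr rfl fun j hj => ?_
  rw [Finset.mem_range] at hj
  rw [pow_sub₀ _ hb0 (hg.monotone (by omega))]

theorem key (hb : 2 ≤ b) (hg : StrictMono g) (k : ℕ) :
    |(b : ℝ) ^ g k * ∑' k, ((b : ℝ) ^ g k)⁻¹ - AA b g k / ((1 : ℕ) : ℝ)| ≤
      b * ((b : ℝ) ^ (g (k + 1) - g k))⁻¹ := by
  have hb2 : (2 : ℝ) ≤ b := by exact_mod_cast hb
  have hb0 : (b : ℝ) ≠ 0 := by linarith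
  have h1 := (sum_able hb hg).sum_add_tsum_nat_add (k + 1)
  have h2 : (b : ℝ) ^ g k * ∑' k, ((b : ℝ) ^ g k)⁻¹ - AA b g k / ((1 : ℕ) : ℝ) =
      (b : ℝ) ^ g k * ∑' j, ((b : ℝ) ^ g (j + (k + 1)))⁻¹ := by
    rw [AA_eq hb hg, ← h1]
    push_cast
    ring
  have h3 : 0 ≤ ∑' j, ((b : ℝ) ^ g (j + (k + 1)))⁻¹ := tsum_nonneg fun j => by positivity
  rw [h2, abs_of_nonneg (mul_nonneg (by positivity) h3)]
  calc (b : ℝ) ^ g k * ∑' j, ((b : ℝ) ^ g (j + (k + 1)))⁻¹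
      ≤ (b : ℝ) ^ g k * (b * ((b : ℝ) ^ g (k + 1))⁻¹) :=
        mul_le_mul_of_nonneg_left (tail_le hb hg k) (by positivity)
    _ = b * ((b : ℝ) ^ (g (k + 1) - g k))⁻¹ := by
        rw [pow_sub₀ _ hb0 (hg.monotone (Nat.le_succ k)), mul_inv, inv_inv]
        ring

theorem brk (hb : 2 ≤ b) (hg : StrictMono g) (h : ∀ᶠ k in atTop, 3 * g k ≤ 2 * g (k + 1)) :
    Breaks b (∑' k, ((b : ℝ) ^ g k)⁻¹) g (fun _ => 1) (AA b g) := by
  have hb2 : (2 : ℝ) ≤ b := by exact_mod_cast hb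
  refine ⟨hg.tendsto_atTop, h, fun _ => le_rfl, fun η hη => Eventually.of_forall fun k => ?_,
    Eventually.of_forall fun k => key hb hg k⟩
  rw [Nat.cast_one]
  exact Real.one_le_rpow (by linarith) (by positivity)

theorem ne (hb : 2 ≤ b) (hg : StrictMono g) (k : ℕ) :
    (AA b g k : ℝ) / (((1 : ℕ) : ℝ) * (b : ℝ) ^ g k) ≠
      AA b g (k + 1) / (((1 : ℕ) : ℝ) * (b : ℝ) ^ g (k + 1)) := by
  have hb2 : (2 : ℝ) ≤ b := by exact_mod_cast hb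
  have hb0 : (b : ℝ) ≠ 0 := by linarith
  have h1 : ∀ k, (AA b g k : ℝ) / (((1 : ℕ) : ℝ) * (b : ℝ) ^ g k) =
      ∑ j ∈ Finset.range (k + 1), ((b : ℝ) ^ g j)⁻¹ := by
    intro k
    rw [AA_eq hb hg, Nat.cast_one, one_mul, mul_div_cancel_left₀ _ (pow_ne_zero _ hb0)]
  rw [h1, h1, Finset.sum_range_succ _ (k + 1)]
  have h2 : 0 < ((b : ℝ) ^ g (k + 1))⁻¹ := by
    have : (0 : ℝ) < b := by linarith
    positivity
  linarith

end LacAux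

/-- **lac** -/
theorem tLac : S_breaks → S_irr → S_nonL → S_lac := by
  intro h1 h2 h3 b g hb hg hh
  have hB := LacAux.brk hb hg hh
  have hN : ∀ᶠ k in atTop, (LacAux.AA b g k : ℝ) / (((1 : ℕ) : ℝ) * (b : ℝ) ^ g k) ≠
      LacAux.AA b g (k + 1) / (((1 : ℕ) : ℝ) * (b : ℝ) ^ g (k + 1)) :=
    Eventually.of_forall fun k => LacAux.ne hb hg k
  exact ⟨h1 b _ g _ _ hb hB, h2 b _ g _ _ hb hB hN, fun C hC => h3 b C _ g _ _ hb hB hN hC⟩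

end Pool.Agent.Lib.MP_acd137_lc
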