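import Pool.Agent.Lib.MP_acd137_lc.Spec

set_option autoImplicit false

namespace Pool.Agent.Lib.MP_acd137_lc

open Filter Topology

theorem tLim : S_lim := by
  intro 𝒰 T f C hT hf
  have h1 : ∀ᶠ l in (𝒰 : Filter ℕ), f l / T l ∈ Set.Icc (-C) C := by
    filter_upwards [hf, hT.eventually_gt_atTop 0] with l h2 h3
    rw [Set.mem_Icc, ← abs_le, abs_div, abs_of_pos h3, div_le_iff₀ h3]
    exact h2
  obtain ⟨a, -, ha⟩ := (isCompact_Icc (a := -C) (b := C)).ultrafilter_le_nhds
    (𝒰.map fun l => f l / T l) (by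
      rw [Ultrafilter.coe_map, Filter.le_principal_iff]
      exact h1)
  exact ⟨a, by rwa [Ultrafilter.coe_map] at ha⟩

end Pool.Agent.Lib.MP_acd137_lc
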