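import Pool.Agent.Lib.MP_acd137_lc.Spec

set_option autoImplicit false

namespace Pool.Agent.Lib.MP_acd137_lc

open Filter Topology

namespace NonLAux

private theorem diff_low (a Ak : ℤ) (Q q G : ℝ) (Qn qn Gn : ℕ) (hQ : Q = Qn) (hq : q = qn)
    (hG : G = Gn) (hQ0 : 0 < Qn) (hq0 : 0 < qn) (hG0 : 0 < Gn)
    (hne : (a : ℝ) / Q ≠ Ak / (q * G)) :
    1 / (Q * q * G) ≤ |(a : ℝ) / Q - Ak / (q * G)| := by
  have hQr : (0 : ℝ) < Q := by rw [hQ]; exact_mod_cast hQ0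
  have hqr : (0 : ℝ) < q := by rw [hq]; exact_mod_cast hq0
  have hGr : (0 : ℝ) < G := by rw [hG]; exact_mod_cast hG0
  have e : (a : ℝ) / Q - Ak / (q * G) = ((a * (qn * Gn) - Ak * Qn : ℤ) : ℝ) / (Q * q * G) := by
    rw [hQ, hq, hG] at *
    push_cast
    field_simp
  have hz : (a * (qn * Gn) - Ak * Qn : ℤ) ≠ 0 := by
    intro h0
    apply hne
    rw [h0] at e
    simp only [Int.cast_zero, zero_div] at e
    linarith
  have h1 : (1 : ℝ) ≤ |((a * (qn * Gn) - Ak * Qn : ℤ) : ℝ)| := by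
    rw [← Int.cast_abs]
    exact_mod_cast Int.one_le_abs hz
  rw [e, abs_div, abs_of_pos (show (0 : ℝ) < Q * q * G by positivity)]
  gcongr

end NonLAux

theorem tNonL : S_nonL := by
  intro b C x g q A hb hB hne hC hL
  obtain ⟨hg, h32, hq1, hqs, happ⟩ := hB
  have hb0 : 0 < b := by omega
  have hbR : (2 : ℝ) ≤ b := by exact_mod_cast hb
  have hbR0 : (0 : ℝ) < b := by linarith
  have hbR1 : (1 : ℝ) ≤ b := by linarith
  have hqs8 := hqs (1 / 8) (by norm_num)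
  have hg8 : ∀ᶠ k in atTop, 8 ≤ g k := hg.eventually_ge_atTop 8
  obtain ⟨k₀, hk₀⟩ := eventually_atTop.1 (h32.and (hqs8.and (happ.and (hne.and (hC.and hg8)))))
  have H32 : ∀ k, k₀ ≤ k → 3 * g k ≤ 2 * g (k + 1) := fun k hk => (hk₀ k hk).1
  have Happ : ∀ k, k₀ ≤ k → |(b : ℝ) ^ g k * x - A k / q k| ≤
      b * ((b : ℝ) ^ (g (k + 1) - g k))⁻¹ := fun k hk => (hk₀ k hk).2.2.1
  have Hne : ∀ k, k₀ ≤ k → (A k : ℝ) / (q k * (b : ℝ) ^ g k) ≠
      A (k + 1) / (q (k + 1) * (b : ℝ) ^ g (k + 1)) := fun k hk => (hk₀ k hk).2.2.2.1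
  have HC : ∀ k, k₀ ≤ k → g (k + 1) ≤ C * g k := fun k hk => (hk₀ k hk).2.2.2.2.1
  have H8 : ∀ k, k₀ ≤ k → 8 ≤ g k := fun k hk => (hk₀ k hk).2.2.2.2.2
  have Hq : ∀ k, k₀ ≤ k → (q k) ^ 8 ≤ b ^ g k := by
    intro k hk
    have h1 : (q k : ℝ) ≤ (b : ℝ) ^ ((1 / 8 : ℝ) * g k) := (hk₀ k hk).2.1
    have h2 : (q k : ℝ) ^ 8 ≤ ((b : ℝ) ^ ((1 / 8 : ℝ) * g k)) ^ 8 :=
      pow_le_pow_left₀ (by positivity) h1 8
    have h3 : ((b : ℝ) ^ ((1 / 8 : ℝ) * g k)) ^ 8 = (b : ℝ) ^ g k := by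
      rw [← Real.rpow_natCast, ← Real.rpow_mul hbR0.le, ← Real.rpow_natCast]
      congr 1
      push_cast
      ring
    rw [h3] at h2
    exact_mod_cast h2
  have Hmono : ∀ k, k₀ ≤ k → g k ≤ g (k + 1) := by
    intro k hk
    have := H32 k hk
    omega
  -- approximation in the form |x - r|
  have Hx : ∀ k, k₀ ≤ k → |x - (A k : ℝ) / (q k * (b : ℝ) ^ g k)| ≤ b * ((b : ℝ) ^ g (k + 1))⁻¹ := by
    intro k hk
    have h1 := Happ k hk
    have hqpos : (0 : ℝ) < q k := by exact_mod_cast hq1 k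
    have hG : (0 : ℝ) < (b : ℝ) ^ g k := by positivity
    have e1 : x - (A k : ℝ) / (q k * (b : ℝ) ^ g k) =
        ((b : ℝ) ^ g k * x - A k / q k) / (b : ℝ) ^ g k := by
      field_simp
    rw [e1, abs_div, abs_of_pos hG, div_le_iff₀ hG]
    have e2 : (b : ℝ) * ((b : ℝ) ^ g (k + 1))⁻¹ * (b : ℝ) ^ g k =
        b * ((b : ℝ) ^ (g (k + 1) - g k))⁻¹ := by
      have e3 : (b : ℝ) ^ g (k + 1) = (b : ℝ) ^ (g (k + 1) - g k) * (b : ℝ) ^ g k := by
        rw [← pow_add]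
        congr 1
        have := Hmono k hk
        omega
      rw [e3]
      have hG' : (0 : ℝ) < (b : ℝ) ^ (g (k + 1) - g k) := by positivity
      field_simp
    rw [e2]
    exact h1
  -- the main inequality
  have key : ∀ (Q : ℕ) (a : ℤ) (k j : ℕ), 0 < Q → k₀ ≤ k → Q ^ 8 ≤ b ^ g k → k ≤ j → j ≤ k + 1 →
      (a : ℝ) / Q ≠ A j / (q j * (b : ℝ) ^ g j) →
      ((b : ℝ) ^ g (k + 2))⁻¹ ≤ |x - a / Q| := by
    intro Q a k j hQ0 hk hQ hkj hjk hneq
    have hj0 : k₀ ≤ j := hk.trans hkj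
    have hgkj : g k ≤ g j := by
      rcases Nat.lt_or_ge k j with h | h
      · have : j = k + 1 := by omega
        rw [this]
        exact Hmono k hk
      · have : j = k := by omega
        rw [this]
    have hgj2 : g (j + 1) ≤ g (k + 2) := by
      rcases Nat.lt_or_ge k j with h | h
      · have : j + 1 = k + 2 := by omega
        rw [this]
      · have : j + 1 = k + 1 := by omega
        rw [this]
        exact Hmono (k + 1) (by omega)
    have hQj : Q ^ 8 ≤ b ^ g j := hQ.trans (Nat.pow_le_pow_right hb0 hgkj)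
    have hnat : 2 * b * (Q * q j * b ^ g j) ≤ b ^ g (j + 1) := by
      have h8 : (2 * b * (Q * q j * b ^ g j)) ^ 8 ≤ (b ^ g (j + 1)) ^ 8 := by
        calc (2 * b * (Q * q j * b ^ g j)) ^ 8
            ≤ (b * b * (Q * q j * b ^ g j)) ^ 8 := by gcongr
          _ = b ^ 16 * (Q ^ 8 * q j ^ 8 * b ^ (g j * 8)) := by
              rw [pow_mul]
              ring
          _ ≤ b ^ 16 * (b ^ g j * b ^ g j * b ^ (g j * 8)) := by
              have := Hq j hj0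
              gcongr
          _ = b ^ (16 + (g j + g j + g j * 8)) := by
              rw [pow_add, pow_add, pow_add]
          _ ≤ b ^ (g (j + 1) * 8) := by
              apply Nat.pow_le_pow_right hb0
              have h1 := H32 j hj0
              have h2 := H8 j hj0
              omega
          _ = (b ^ g (j + 1)) ^ 8 := by rw [pow_mul]
      exact (Nat.pow_le_pow_iff_left (by norm_num)).1 h8
    have hqpos : (0 : ℝ) < q j := by exact_mod_cast hq1 j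
    have hQpos : (0 : ℝ) < Q := by exact_mod_cast hQ0
    have hGj : (0 : ℝ) < (b : ℝ) ^ g j := by positivity
    have hGj1 : (0 : ℝ) < (b : ℝ) ^ g (j + 1) := by positivity
    have hreal : 2 * (b : ℝ) * (Q * q j * (b : ℝ) ^ g j) ≤ (b : ℝ) ^ g (j + 1) := by
      exact_mod_cast hnat
    have hlow := NonLAux.diff_low a (A j) Q (q j) ((b : ℝ) ^ g j) Q (q j) (b ^ g j) rfl rfl
      (by push_cast; rfl) hQ0 (hq1 j) (pow_pos hb0 _) hneq
    have hup : |(a : ℝ) / Q - A j / (q j * (b : ℝ) ^ g j)| ≤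
        |x - a / Q| + b * ((b : ℝ) ^ g (j + 1))⁻¹ := by
      have e : (a : ℝ) / Q - A j / (q j * (b : ℝ) ^ g j) =
          -(x - a / Q) + (x - A j / (q j * (b : ℝ) ^ g j)) := by ring
      rw [e]
      refine (abs_add_le _ _).trans ?_
      rw [abs_neg]
      have := Hx j hj0
      linarith
    have h2 : 2 * (b * ((b : ℝ) ^ g (j + 1))⁻¹) ≤ 1 / (Q * q j * (b : ℝ) ^ g j) := by
      rw [le_div_iff₀ (by positivity)]
      have e : 2 * (b * ((b : ℝ) ^ g (j + 1))⁻¹) * (Q * q j * (b : ℝ) ^ g j) =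
          (2 * (b : ℝ) * (Q * q j * (b : ℝ) ^ g j)) / (b : ℝ) ^ g (j + 1) := by
        field_simp
      rw [e, div_le_one hGj1]
      exact hreal
    have h3 : b * ((b : ℝ) ^ g (j + 1))⁻¹ ≤ |x - a / Q| := by linarith
    have h4 : ((b : ℝ) ^ g (j + 1))⁻¹ ≤ b * ((b : ℝ) ^ g (j + 1))⁻¹ := by
      have : (0 : ℝ) < ((b : ℝ) ^ g (j + 1))⁻¹ := by positivity
      nlinarith
    have h5 : ((b : ℝ) ^ g (k + 2))⁻¹ ≤ ((b : ℝ) ^ g (j + 1))⁻¹ := by
      apply inv_anti₀ hGj1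
      exact pow_le_pow_right₀ hbR1 hgj2
    linarith
  -- the Liouville approximations
  have hfr := hL.frequently_exists_num (8 * C ^ 3)
  obtain ⟨Q, ⟨a, -, hlt⟩, hQbig⟩ := (hfr.and_eventually (eventually_gt_atTop (b ^ g k₀))).exists
  have hQ0 : 0 < Q := by omega
  have hex : ∃ k, k₀ ≤ k ∧ Q ^ 8 ≤ b ^ g k := by
    obtain ⟨k, hk1, hk2⟩ := ((eventually_ge_atTop k₀).and (hg.eventually_ge_atTop (Q ^ 8))).exists
    refine ⟨k, hk1, hk2.trans ?_⟩
    exact (Nat.lt_pow_self (by omega)).le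
  classical
  obtain ⟨k, hkdef⟩ : ∃ k, k = Nat.find hex := ⟨_, rfl⟩
  have hkspec : k₀ ≤ k ∧ Q ^ 8 ≤ b ^ g k := by
    rw [hkdef]
    exact Nat.find_spec hex
  have hkk : k₀ < k := by
    rcases Nat.lt_or_ge k₀ k with h | h
    · exact h
    · exfalso
      have e : k = k₀ := le_antisymm h hkspec.1
      have h1 := hkspec.2
      rw [e] at h1
      have h2 : Q ≤ Q ^ 8 := Nat.le_self_pow (by norm_num) Q
      omega
  have hkm : b ^ g (k - 1) < Q ^ 8 := by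
    have h1 : ¬ (k₀ ≤ k - 1 ∧ Q ^ 8 ≤ b ^ g (k - 1)) := by
      apply Nat.find_min hex
      rw [← hkdef]
      omega
    by_contra h2
    exact h1 ⟨by omega, by omega⟩
  have hgC : g (k + 2) ≤ C ^ 3 * g (k - 1) := by
    have h1 := HC (k - 1) (by omega)
    have h2 := HC k (by omega)
    have h3 := HC (k + 1) (by omega)
    have e : k - 1 + 1 = k := by omega
    rw [e] at h1
    calc g (k + 2) ≤ C * g (k + 1) := h3
      _ ≤ C * (C * g k) := Nat.mul_le_mul_left _ h2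
      _ ≤ C * (C * (C * g (k - 1))) := Nat.mul_le_mul_left _ (Nat.mul_le_mul_left _ h1)
      _ = C ^ 3 * g (k - 1) := by ring
  have hfin : b ^ g (k + 2) ≤ Q ^ (8 * C ^ 3) := by
    calc b ^ g (k + 2) ≤ b ^ (C ^ 3 * g (k - 1)) := Nat.pow_le_pow_right hb0 hgC
      _ = (b ^ g (k - 1)) ^ (C ^ 3) := by rw [← pow_mul]; ring_nf
      _ ≤ (Q ^ 8) ^ (C ^ 3) := Nat.pow_le_pow_left hkm.le _
      _ = Q ^ (8 * C ^ 3) := by rw [← pow_mul]
  have hlow : ((b : ℝ) ^ g (k + 2))⁻¹ ≤ |x - a / Q| := by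
    by_cases h1 : (a : ℝ) / Q = A k / (q k * (b : ℝ) ^ g k)
    · apply key Q a k (k + 1) hQ0 hkspec.1 hkspec.2 (by omega) le_rfl
      rw [h1]
      exact Hne k hkspec.1
    · exact key Q a k k hQ0 hkspec.1 hkspec.2 le_rfl (by omega) h1
  have hfinR : (b : ℝ) ^ g (k + 2) ≤ (Q : ℝ) ^ (8 * C ^ 3) := by exact_mod_cast hfin
  have h6 : 1 / (Q : ℝ) ^ (8 * C ^ 3) ≤ ((b : ℝ) ^ g (k + 2))⁻¹ := by
    rw [one_div]
    exact inv_anti₀ (by positivity) hfinR
  linarith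

end Pool.Agent.Lib.MP_acd137_lc
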