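import Pool.Agent.Lib.MP_acd137_lc.Spec

/-!
# MP_acd137_lc, module Nv: non-vanishing
-/

set_option autoImplicit false

namespace Pool.Agent.Lib.MP_acd137_lc

open Filter Topology

/-- The valuation of a nonzero integer is at most its logarithm. -/
private theorem nv_log (p : ℕ) (hp : p.Prime) (Z : ℤ) (hZ : Z ≠ 0) :
    (padicValInt p Z : ℝ) * Real.log p ≤ Real.log |(Z : ℝ)| := by
  have : Fact p.Prime := ⟨hp⟩
  have h1 : (p : ℤ) ^ padicValInt p Z ∣ |Z| := (dvd_abs _ _).2 (padicValInt_dvd Z)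
  have h2 : (p : ℤ) ^ padicValInt p Z ≤ |Z| := Int.le_of_dvd (abs_pos.2 hZ) h1
  have h3 : (p : ℝ) ^ padicValInt p Z ≤ |(Z : ℝ)| := by exact_mod_cast h2
  have hp0 : (0 : ℝ) < p := by exact_mod_cast hp.pos
  rw [← Real.log_pow]
  exact Real.log_le_log (pow_pos hp0 _) h3

/-- The valuation inequality. -/
private theorem nv_val (p : ℕ) (hp : p.Prime) (b c N I : ℕ) (hc : 2 ≤ c) (Z Y : ℤ)
    (hZ : Z ≠ 0) (hY : Y ≠ 0) (hd : (b : ℤ) ^ N ∣ ((c : ℤ) ^ I * Z) * Y) :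
    N * padicValNat p b ≤ I * padicValNat p c + padicValInt p Z + padicValInt p Y := by
  have : Fact p.Prime := ⟨hp⟩
  have hc0 : (c : ℤ) ^ I ≠ 0 := pow_ne_zero _ (by exact_mod_cast (by omega : c ≠ 0))
  have h1 : padicValInt p (((c : ℤ) ^ I * Z) * Y) =
      I * padicValNat p c + padicValInt p Z + padicValInt p Y := by
    rw [padicValInt.mul (mul_ne_zero hc0 hZ) hY, padicValInt.mul hc0 hZ, ← Nat.cast_pow,
      padicValInt.of_nat, padicValNat.pow]
  rw [← h1]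
  have h2 : (p : ℤ) ^ (N * padicValNat p b) ∣ ((c : ℤ) ^ I * Z) * Y := by
    refine dvd_trans ?_ hd
    have h3 : p ^ padicValNat p b ∣ b := pow_padicValNat_dvd
    have h4 : (p ^ padicValNat p b) ^ N ∣ b ^ N := pow_dvd_pow_of_dvd h3 N
    rw [← pow_mul, mul_comm] at h4
    exact_mod_cast h4
  rcases (padicValInt_dvd_iff _ _).1 h2 with h | h
  · exact absurd h (mul_ne_zero (mul_ne_zero hc0 hZ) hY)
  · exact h

theorem tNv : S_prime → S_nv := by
  intro hprime b c hb hc hind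
  obtain ⟨p, hp, hlt⟩ := hprime b c hb hc hind
  have hb1 : (1 : ℝ) < b := by exact_mod_cast (by omega : 1 < b)
  have hc1 : (1 : ℝ) < c := by exact_mod_cast (by omega : 1 < c)
  have hp1 : (1 : ℝ) < p := by exact_mod_cast hp.one_lt
  have hb0 : (0 : ℝ) < b := zero_lt_one.trans hb1
  have hc0 : (0 : ℝ) < c := zero_lt_one.trans hc1
  set Lb := Real.log b with hLb
  set Lc := Real.log c with hLc
  set Lp := Real.log p with hLp
  have hLb0 : 0 < Lb := Real.log_pos hb1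
  have hLc0 : 0 < Lc := Real.log_pos hc1
  have hLp0 : 0 < Lp := Real.log_pos hp1
  set vb : ℝ := (padicValNat p b : ℝ) with hvb
  set vc : ℝ := (padicValNat p c : ℝ) with hvc
  have hvc0 : 0 ≤ vc := Nat.cast_nonneg _
  have hvb0 : 0 < vb := by
    by_contra h
    have : vb * Lc ≤ 0 := mul_nonpos_of_nonpos_of_nonneg (not_lt.1 h) hLc0.le
    have h2 : 0 ≤ vc * Lb := mul_nonneg hvc0 hLb0.le
    linarith
  have hpb : p ∣ b := by
    refine dvd_of_one_le_padicValNat ?_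
    have : 0 < padicValNat p b := (Nat.cast_pos (α := ℝ)).1 hvb0
    exact this
  set r := Lc / Lp with hr
  have hr0 : 0 < r := div_pos hLc0 hLp0
  set δ := vb * Lc - vc * Lb with hδ
  have hδ0 : 0 < δ := by rw [hδ]; linarith
  set S := vc * Lb + 2 * r * Lb + Lc with hS
  have hS0 : 0 < S := by
    have : 0 ≤ vc * Lb := mul_nonneg hvc0 hLb0.le
    have : 0 < 2 * r * Lb := by positivity
    rw [hS]; linarith
  set ε := δ / (2 * S) with hε
  have hε0 : 0 < ε := by positivity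
  have hεS : ε * S = δ / 2 := by
    rw [hε]
    field_simp
  set K := (1 + ε) * vc * Lc + r * (Real.log 2 + ε * Lc) with hK
  refine ⟨p, hp, hpb, ε, hε0, ε, hε0, ?_⟩
  have hev : ∀ᶠ N : ℕ in atTop, K < N * (δ / 2) := by
    have := (tendsto_natCast_atTop_atTop (R := ℝ)).atTop_mul_const (half_pos hδ0)
    exact this.eventually_gt_atTop K
  filter_upwards [hev] with N hN M hM Y q₁ q₂ I J hY hvY hMI hIJ hJ hq₁ hq₂ hne hdvd
  -- the factorisation
  set Z : ℤ := q₁ * (c : ℤ) ^ (J - I) - q₂ with hZ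
  have hfac : q₁ * (c : ℤ) ^ J - q₂ * (c : ℤ) ^ I = (c : ℤ) ^ I * Z := by
    have : (c : ℤ) ^ J = (c : ℤ) ^ I * (c : ℤ) ^ (J - I) := by
      rw [← pow_add, Nat.add_sub_cancel' hIJ]
    rw [hZ, this]
    ring
  have hZ0 : Z ≠ 0 := by
    intro h
    rw [h, mul_zero] at hfac
    exact hne (sub_eq_zero.1 hfac)
  rw [hfac] at hdvd
  have h1 := nv_val p hp b c N I hc Z Y hZ0 hY hdvd
  have h1' : (N : ℝ) * vb ≤ I * vc + (padicValInt p Z : ℝ) + (padicValInt p Y : ℝ) := by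
    rw [hvb, hvc]
    exact_mod_cast h1
  -- the size of `Z`
  have hpow1 : (1 : ℝ) ≤ (c : ℝ) ^ (J - I) := one_le_pow₀ hc1.le
  have hbe : (0 : ℝ) < (b : ℝ) ^ (ε * N) := Real.rpow_pos_of_pos hb0 _
  have hZle : |(Z : ℝ)| ≤ 2 * (b : ℝ) ^ (ε * N) * (c : ℝ) ^ (J - I) := by
    have e : (Z : ℝ) = q₁ * (c : ℝ) ^ (J - I) - q₂ := by
      rw [hZ]
      push_cast
      rfl
    rw [e]
    calc |(q₁ : ℝ) * (c : ℝ) ^ (J - I) - q₂| ≤ |(q₁ : ℝ) * (c : ℝ) ^ (J - I)| + |(q₂ : ℝ)| :=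
          abs_sub _ _
      _ = |(q₁ : ℝ)| * (c : ℝ) ^ (J - I) + |(q₂ : ℝ)| := by
          rw [abs_mul, abs_of_pos (zero_lt_one.trans_le hpow1)]
      _ ≤ (b : ℝ) ^ (ε * N) * (c : ℝ) ^ (J - I) + (b : ℝ) ^ (ε * N) * (c : ℝ) ^ (J - I) := by
          refine add_le_add (mul_le_mul_of_nonneg_right hq₁ (zero_le_one.trans hpow1)) ?_
          calc |(q₂ : ℝ)| ≤ (b : ℝ) ^ (ε * N) := hq₂
            _ ≤ (b : ℝ) ^ (ε * N) * (c : ℝ) ^ (J - I) := le_mul_of_one_le_right hbe.le hpow1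
      _ = 2 * (b : ℝ) ^ (ε * N) * (c : ℝ) ^ (J - I) := by ring
  have hZpos : (0 : ℝ) < |(Z : ℝ)| := abs_pos.2 (by exact_mod_cast hZ0)
  have h2 : (padicValInt p Z : ℝ) * Lp ≤ Real.log 2 + ε * N * Lb + ((J : ℝ) - I) * Lc := by
    calc (padicValInt p Z : ℝ) * Lp ≤ Real.log |(Z : ℝ)| := nv_log p hp Z hZ0
      _ ≤ Real.log (2 * (b : ℝ) ^ (ε * N) * (c : ℝ) ^ (J - I)) := Real.log_le_log hZpos hZle
      _ = Real.log 2 + ε * N * Lb + ((J : ℝ) - I) * Lc := by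
          rw [Real.log_mul (by positivity) (by positivity), Real.log_mul (by norm_num) hbe.ne',
            Real.log_rpow hb0, Real.log_pow, Nat.cast_sub hIJ]
  -- the bounds of the exponents
  have hM' : (M : ℝ) * Lc ≤ Lc + N * Lb := by
    have := Real.log_le_log (pow_pos hc0 M) hM
    rw [Real.log_pow, Real.log_mul hc0.ne' (pow_pos hb0 N).ne', Real.log_pow] at this
    exact this
  have hMI' : (M : ℝ) ≤ I := by exact_mod_cast hMI
  have hIJ' : (I : ℝ) ≤ J := by exact_mod_cast hIJ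
  have hI : (I : ℝ) ≤ (1 + ε) * M := hIJ'.trans hJ
  have hJI : (J : ℝ) - I ≤ ε * M := by linarith
  have a1 : (I : ℝ) * vc * Lc ≤ (1 + ε) * vc * (Lc + N * Lb) := by
    calc (I : ℝ) * vc * Lc ≤ (1 + ε) * M * vc * Lc := by gcongr
      _ = (1 + ε) * vc * (M * Lc) := by ring
      _ ≤ (1 + ε) * vc * (Lc + N * Lb) := by gcongr
  have a2 : (padicValInt p Z : ℝ) * Lc ≤
      r * (Real.log 2 + ε * N * Lb + ε * (Lc + N * Lb)) := by
    have e : (padicValInt p Z : ℝ) * Lc = r * ((padicValInt p Z : ℝ) * Lp) := by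
      rw [hr]
      field_simp
    rw [e]
    refine mul_le_mul_of_nonneg_left (h2.trans ?_) hr0.le
    have : ((J : ℝ) - I) * Lc ≤ ε * (Lc + N * Lb) := by
      calc ((J : ℝ) - I) * Lc ≤ ε * M * Lc := by gcongr
        _ = ε * (M * Lc) := by ring
        _ ≤ ε * (Lc + N * Lb) := by gcongr
    linarith
  have a3 : (padicValInt p Y : ℝ) * Lc ≤ ε * N * Lc := mul_le_mul_of_nonneg_right hvY hLc0.le
  have a4 : (N : ℝ) * vb * Lc ≤
      (I * vc + (padicValInt p Z : ℝ) + (padicValInt p Y : ℝ)) * Lc :=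
    mul_le_mul_of_nonneg_right h1' hLc0.le
  have a5 : (N : ℝ) * δ ≤ K + N * (ε * S) := by
    have e1 : (I * vc + (padicValInt p Z : ℝ) + (padicValInt p Y : ℝ)) * Lc =
      (I : ℝ) * vc * Lc + (padicValInt p Z : ℝ) * Lc + (padicValInt p Y : ℝ) * Lc := by ring
    have e2 : (N : ℝ) * δ = N * vb * Lc - vc * (N * Lb) := by rw [hδ]; ring
    have e3 : K + N * (ε * S) = (1 + ε) * vc * (Lc + N * Lb) +
        r * (Real.log 2 + ε * N * Lb + ε * (Lc + N * Lb)) + ε * N * Lc - vc * (N * Lb) := by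
      rw [hK, hS]; ring
    rw [e2, e3]
    linarith
  rw [hεS] at a5
  linarith

end Pool.Agent.Lib.MP_acd137_lc
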