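import Pool.Agent.Lib.MP_acd137_lc.Spec

/-!
# MP_acd137_lc: one piece of the expansion
-/

set_option autoImplicit false

namespace Pool.Agent.Lib.MP_acd137_lc

open Filter Topology

theorem tPiece : S_piece := by
  intro b x a a' q A hb haa hq h
  have hb0 : (0 : ℝ) < b := by exact_mod_cast (by omega : 0 < b)
  have hb1 : (1 : ℝ) ≤ b := by exact_mod_cast (by omega : 1 ≤ b)
  have hq0 : (0 : ℝ) < q := by exact_mod_cast hq
  have hp : (0 : ℝ) < (b : ℝ) ^ (a' - a) := by positivity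
  have hp1 : (1 : ℝ) ≤ (b : ℝ) ^ (a' - a) := one_le_pow₀ hb1
  have hinv : ((b : ℝ) ^ (a' - a))⁻¹ ≤ 1 := inv_le_one_of_one_le₀ hp1
  have hbb : (b : ℝ) ^ a' = (b : ℝ) ^ (a' - a) * (b : ℝ) ^ a := by
    rw [← pow_add]
    congr 1
    omega
  set y : ℝ := (b : ℝ) ^ a * x with hy
  have h1 := Int.floor_le y
  have h2 := Int.lt_floor_add_one y
  have h3 := Int.floor_le ((b : ℝ) ^ a' * x)
  have h4 := Int.lt_floor_add_one ((b : ℝ) ^ a' * x)
  have h5 := abs_le.1 h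
  have hA : (A : ℝ) = q * (A / q) := by field_simp
  have h6 : (b : ℝ) ^ (a' - a) * |y - A / q| ≤ 1 := by
    calc (b : ℝ) ^ (a' - a) * |y - A / q| ≤ (b : ℝ) ^ (a' - a) * ((b : ℝ) ^ (a' - a))⁻¹ :=
          mul_le_mul_of_nonneg_left h hp.le
      _ = 1 := mul_inv_cancel₀ hp.ne'
  have h7 : |(b : ℝ) ^ (a' - a) * (y - A / q)| ≤ 1 := by
    rw [abs_mul, abs_of_pos hp]
    exact h6
  have h8 := abs_le.1 h7
  have h9 : (b : ℝ) ^ a' * x = (b : ℝ) ^ (a' - a) * y := by rw [hbb, hy, mul_assoc]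
  refine ⟨A - q * pre b x a, (b : ℤ) ^ (a' - a) * A - q * pre b x a', ?_, ?_, by ring⟩
  · have e1 : |((A - q * pre b x a : ℤ) : ℝ)| ≤ 2 * q := by
      push_cast
      unfold pre
      rw [← hy]
      rw [hA]
      rw [← mul_sub, abs_mul, abs_of_pos hq0, mul_comm (2 : ℝ)]
      apply mul_le_mul_of_nonneg_left _ hq0.le
      rw [abs_le]
      constructor <;> linarith
    exact_mod_cast e1
  · have e1 : |(((b : ℤ) ^ (a' - a) * A - q * pre b x a' : ℤ) : ℝ)| ≤ 2 * q := by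
      push_cast
      unfold pre
      have e2 : (b : ℝ) ^ (a' - a) * A - q * (⌊(b : ℝ) ^ a' * x⌋ : ℝ) =
          q * ((b : ℝ) ^ (a' - a) * (A / q) - ⌊(b : ℝ) ^ a' * x⌋) := by
        field_simp
      rw [e2, abs_mul, abs_of_pos hq0, mul_comm (2 : ℝ)]
      apply mul_le_mul_of_nonneg_left _ hq0.le
      rw [mul_sub] at h8
      rw [h9] at h3 h4 ⊢
      rw [abs_le]
      constructor <;> linarith
    exact_mod_cast e1

end Pool.Agent.Lib.MP_acd137_lc
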