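import Pool.Agent.Lib.MP_acd137_lc.Spec

/-!
`S_pig`: pigeonhole for words.
-/

set_option autoImplicit false

namespace Pool.Agent.Lib.MP_acd137_lc

open Filter Topology

theorem tPig : S_digits → S_pig := by
  intro hd c x C n M hc hC
  have hfin : (Set.range fun m : ℕ => fun i : Fin n => digit c x (m + 1 + i)).Finite := by
    apply Set.Finite.subset (Set.Finite.pi' (fun _ : Fin n => Set.finite_Ico (0 : ℤ) c))
    rintro w ⟨m, rfl⟩ i
    exact ⟨((hd c x hc).1 _ (by omega)).1, ((hd c x hc).1 _ (by omega)).2⟩
  have hcard : hfin.toFinset.card ≤ C * n := by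
    rw [← Set.ncard_eq_toFinset_card _ hfin]
    exact hC
  obtain ⟨i, hi, j, hj, hij, he⟩ := Finset.exists_ne_map_eq_of_card_lt_of_maps_to
    (s := Finset.range (C * n + 1)) (t := hfin.toFinset)
    (by rw [Finset.card_range]; omega)
    (f := fun i => (fun l : Fin n => digit c x (M + i + 1 + l)))
    (by
      intro a _
      simp only [Set.Finite.coe_toFinset, Set.mem_range]
      exact ⟨M + a, rfl⟩)
  have hi' := Finset.mem_range.1 hi
  have hj' := Finset.mem_range.1 hj
  have hdig : ∀ t, 1 ≤ t → t ≤ n → digit c x (M + i + t) = digit c x (M + j + t) := by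
    intro t ht1 ht2
    have h1 := congrFun he ⟨t - 1, by omega⟩
    have e1 : M + i + 1 + (t - 1) = M + i + t := by omega
    have e2 : M + j + 1 + (t - 1) = M + j + t := by omega
    simp only [e1, e2] at h1
    exact h1
  rcases lt_or_gt_of_ne hij with h | h
  · exact ⟨M + i, M + j, by omega, by omega, by omega, hdig⟩
  · exact ⟨M + j, M + i, by omega, by omega, by omega, fun t h1 h2 => (hdig t h1 h2).symm⟩

end Pool.Agent.Lib.MP_acd137_lc
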