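import Pool.Agent.Lib.MP_acd137_lc.Spec

set_option autoImplicit false

namespace Pool.Agent.Lib.MP_acd137_lc

open Filter Topology

/-- the logarithm of a natural number as a sum over a finite set containing its prime factors -/
private lemma log_eq_sum_aux (n : ℕ) (S : Finset ℕ) (h : n.primeFactors ⊆ S) (hS : ∀ p ∈ S, p.Prime) :
    Real.log n = ∑ p ∈ S, (padicValNat p n : ℝ) * Real.log p := by
  rw [Real.log_nat_eq_sum_factorization]
  have h0 : (n.factorization.sum fun p t => (t : ℝ) * Real.log p)
      = ∑ p ∈ S, (n.factorization p : ℝ) * Real.log p := by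
    apply Finsupp.sum_of_support_subset
    · rw [Nat.support_factorization]; exact h
    · intro i _; simp
  rw [h0]
  apply Finset.sum_congr rfl
  intro p hp
  rw [Nat.factorization_def n (hS p hp)]

theorem tPrime : S_prime := by
  intro b c hb hc hI
  by_contra hcon
  push Not at hcon
  set S : Finset ℕ := b.primeFactors ∪ c.primeFactors with hS
  have hSp : ∀ p ∈ S, p.Prime := by
    intro p hp
    rcases Finset.mem_union.mp hp with h | h
    · exact Nat.prime_of_mem_primeFactors h
    · exact Nat.prime_of_mem_primeFactors h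
  have hlb := log_eq_sum_aux b S Finset.subset_union_left hSp
  have hlc := log_eq_sum_aux c S Finset.subset_union_right hSp
  have hz : ∑ p ∈ S, ((padicValNat p c : ℝ) * Real.log b - (padicValNat p b : ℝ) * Real.log c) * Real.log p
      = 0 := by
    have : ∑ p ∈ S, ((padicValNat p c : ℝ) * Real.log b - (padicValNat p b : ℝ) * Real.log c) * Real.log p
        = (∑ p ∈ S, (padicValNat p c : ℝ) * Real.log p) * Real.log b
          - (∑ p ∈ S, (padicValNat p b : ℝ) * Real.log p) * Real.log c := by
      rw [Finset.sum_mul, Finset.sum_mul, ← Finset.sum_sub_distrib]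
      apply Finset.sum_congr rfl
      intro p _
      ring
    rw [this, ← hlb, ← hlc]
    ring
  have hnn : ∀ p ∈ S, 0 ≤ ((padicValNat p c : ℝ) * Real.log b - (padicValNat p b : ℝ) * Real.log c)
      * Real.log p := by
    intro p hp
    apply mul_nonneg
    · linarith [hcon p (hSp p hp)]
    · exact Real.log_nonneg (by exact_mod_cast (hSp p hp).one_lt.le)
  have hall := (Finset.sum_eq_zero_iff_of_nonneg hnn).mp hz
  obtain ⟨p, hp, hpb⟩ := Nat.exists_prime_and_dvd (n := b) (by omega)
  have hpS : p ∈ S := by
    apply Finset.mem_union_left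
    exact Nat.mem_primeFactors.mpr ⟨hp, hpb, by omega⟩
  have h1 := hall p hpS
  have hlogp : Real.log p ≠ 0 := by
    have : (1 : ℝ) < p := by exact_mod_cast hp.one_lt
    exact (Real.log_pos this).ne'
  have h2 : (padicValNat p c : ℝ) * Real.log b = (padicValNat p b : ℝ) * Real.log c := by
    rcases mul_eq_zero.mp h1 with h | h
    · linarith
    · exact absurd h hlogp
  have hn1 : 1 ≤ padicValNat p b := by
    haveI := Fact.mk hp
    exact one_le_padicValNat_of_dvd (by omega) hpb
  have h3 : b ^ padicValNat p c = c ^ padicValNat p b := by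
    have h4 : Real.log ((b : ℝ) ^ padicValNat p c) = Real.log ((c : ℝ) ^ padicValNat p b) := by
      rw [Real.log_pow, Real.log_pow, h2]
    have h5 : ((b : ℝ) ^ padicValNat p c) = ((c : ℝ) ^ padicValNat p b) := by
      apply Real.log_injOn_pos _ _ h4
      · show (0 : ℝ) < _
        positivity
      · show (0 : ℝ) < _
        positivity
    exact_mod_cast h5
  have h6 := (hI _ _ h3).2
  omega

end Pool.Agent.Lib.MP_acd137_lc
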