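import Pool.Agent.Lib.MP_acd137_lc.Spec

/-!
# MP_acd137_lc: the structure of the integer part
-/

set_option autoImplicit false

namespace Pool.Agent.Lib.MP_acd137_lc

open Filter Topology

private theorem struct_sum (b R N : ℕ) (a q : ℕ → ℕ) (X U V : ℕ → ℤ) (hm : Monotone a)
    (haR : a R = N)
    (h : ∀ s < R, (q s : ℤ) * X (s + 1) = (b : ℤ) ^ (a (s + 1) - a s) * (q s * X s + U s) - V s)
    (r : ℕ) (hr : r ≤ R) (D : ℤ) (Q : ℕ → ℤ) (hD : ∀ s < R, D = Q s * q s) :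
    D * X r * (b : ℤ) ^ (N - a r) = D * X 0 * (b : ℤ) ^ (N - a 0) +
      (∑ s ∈ Finset.range r, (Q s * U s) * (b : ℤ) ^ (N - a s) +
      ∑ s ∈ Finset.range r, (-(Q s * V s)) * (b : ℤ) ^ (N - a (s + 1))) := by
  induction r with
  | zero => simp
  | succ r ih =>
    have h1 := ih (by omega)
    have h2 := h r (by omega)
    have h3 := hD r (by omega)
    have e1 : a r ≤ a (r + 1) := hm (by omega)
    have e2 : a (r + 1) ≤ N := by
      rw [← haR]
      exact hm hr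
    have e3 : (b : ℤ) ^ (N - a r) = (b : ℤ) ^ (a (r + 1) - a r) * (b : ℤ) ^ (N - a (r + 1)) := by
      rw [← pow_add]
      congr 1
      omega
    rw [Finset.sum_range_succ, Finset.sum_range_succ]
    have h4 : D * X (r + 1) * (b : ℤ) ^ (N - a (r + 1)) =
        D * X r * (b : ℤ) ^ (N - a r) + (Q r * U r) * (b : ℤ) ^ (N - a r) +
          (-(Q r * V r)) * (b : ℤ) ^ (N - a (r + 1)) := by
      calc D * X (r + 1) * (b : ℤ) ^ (N - a (r + 1))
          = Q r * ((q r : ℤ) * X (r + 1)) * (b : ℤ) ^ (N - a (r + 1)) := by rw [h3]; ring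
        _ = _ := by
          rw [h2, e3, h3]
          ring
    rw [h4, h1]
    ring

private theorem ev_pow {b : ℕ} (hb : 2 ≤ b) (c κ : ℝ) (hκ : 0 < κ) :
    ∀ᶠ N : ℕ in atTop, c ≤ (b : ℝ) ^ (κ * N) := by
  have h1 : (1 : ℝ) < b := by exact_mod_cast (by omega : 1 < b)
  have h2 : Tendsto (fun N : ℕ => κ * (N : ℝ)) atTop atTop :=
    tendsto_natCast_atTop_atTop.const_mul_atTop hκ
  exact ((tendsto_rpow_atTop_of_base_gt_one (b : ℝ) h1).comp h2).eventually_ge_atTop c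

private theorem abs_app {R : ℕ} (f g : Fin R → ℤ) (B : ℝ) (hf : ∀ s, |((f s : ℤ) : ℝ)| ≤ B)
    (hg : ∀ s, |((g s : ℤ) : ℝ)| ≤ B) (i : Fin (R + R)) : |((Fin.append f g i : ℤ) : ℝ)| ≤ B := by
  refine Fin.addCases (fun s => ?_) (fun s => ?_) i
  · rw [Fin.append_left]
    exact hf s
  · rw [Fin.append_right]
    exact hg s

theorem tStruct : S_clip → S_piece → S_struct := by
  intro hclip hpiece b x hb hS ε hε
  obtain ⟨R₀, hR⟩ := hS ε hε
  refine ⟨R₀ + R₀, ?_⟩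
  intro η hη
  have hb1 : (1 : ℝ) < b := by exact_mod_cast (by omega : 1 < b)
  have hb0 : (0 : ℝ) < b := by linarith
  have hη1 : 0 < η / (4 * ((R₀ : ℝ) + 1)) := by positivity
  have hev := ev_pow hb (|x| + 2) (3 / 4 * η) (by positivity)
  filter_upwards [hR _ hη1, hev] with N hN hN2
  obtain ⟨a, hmono, ha0, haR, hs⟩ := hN
  obtain ⟨a', hm', ha0', haR', hs'⟩ := hclip b x _ N R₀ a hb hη1 hmono haR hs
  have hpc : ∀ s, s < R₀ → ∃ (q : ℕ) (U V : ℤ), 1 ≤ q ∧
      (q : ℝ) ≤ (b : ℝ) ^ (η / (4 * ((R₀ : ℝ) + 1)) * N) ∧ |U| ≤ 2 * q ∧ |V| ≤ 2 * q ∧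
      (q : ℤ) * pre b x (a' (s + 1)) =
        (b : ℤ) ^ (a' (s + 1) - a' s) * (q * pre b x (a' s) + U) - V := by
    intro s hs0
    obtain ⟨q, A, hq1, hq2, hq3⟩ := hs' s hs0
    obtain ⟨U, V, h1, h2, h3⟩ := hpiece b x (a' s) (a' (s + 1)) q A hb (hm' (by omega)) hq1 hq3
    exact ⟨q, U, V, hq1, hq2, h1, h2, h3⟩
  choose! q U V hq using hpc
  set D : ℕ := ∏ s ∈ Finset.range R₀, q s with hDdef
  set Q : ℕ → ℕ := fun s => ∏ t ∈ (Finset.range R₀).erase s, q t with hQdef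
  have hDQ : ∀ s < R₀, D = Q s * q s := by
    intro s hs0
    rw [hDdef, hQdef, mul_comm]
    exact (Finset.mul_prod_erase _ _ (Finset.mem_range.2 hs0)).symm
  have hD1 : 1 ≤ D := by
    rw [hDdef]
    exact Finset.one_le_prod' (fun s hs0 => (hq s (Finset.mem_range.1 hs0)).1)
  have hDle : (D : ℝ) ≤ (b : ℝ) ^ (η / 4 * N) := by
    have h1 : (D : ℝ) ≤ ∏ _s ∈ Finset.range R₀, (b : ℝ) ^ (η / (4 * ((R₀ : ℝ) + 1)) * N) := by
      rw [hDdef, Nat.cast_prod]
      exact Finset.prod_le_prod (fun _ _ => Nat.cast_nonneg _)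
        (fun s hs0 => (hq s (Finset.mem_range.1 hs0)).2.1)
    rw [Finset.prod_const, Finset.card_range, ← Real.rpow_natCast, ← Real.rpow_mul hb0.le] at h1
    refine h1.trans (Real.rpow_le_rpow_of_exponent_le hb1.le ?_)
    have h2 : η / (4 * ((R₀ : ℝ) + 1)) * N * R₀ = (η / 4 * N) * (R₀ / ((R₀ : ℝ) + 1)) := by
      field_simp
    have h3 : (R₀ : ℝ) / ((R₀ : ℝ) + 1) ≤ 1 := by
      rw [div_le_one (by positivity)]
      linarith
    rw [h2]
    exact mul_le_of_le_one_right (by positivity) h3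
  have hx0 : 0 ≤ |x| := abs_nonneg x
  have hbig : 0 < (b : ℝ) ^ (η / 4 * N) := Real.rpow_pos_of_pos hb0 _
  have hsplit : (b : ℝ) ^ (η / 4 * N) * (b : ℝ) ^ (3 / 4 * η * N) = (b : ℝ) ^ (η * N) := by
    rw [← Real.rpow_add hb0]
    congr 1
    ring
  have h2D : 2 * (D : ℝ) ≤ (b : ℝ) ^ (η * N) := by
    rw [← hsplit]
    calc 2 * (D : ℝ) = D * 2 := mul_comm _ _
      _ ≤ (b : ℝ) ^ (η / 4 * N) * (b : ℝ) ^ (3 / 4 * η * N) :=
        mul_le_mul hDle (by linarith) (by norm_num) hbig.le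
  have ha0N : (a' 0 : ℝ) ≤ ε * N := le_trans (by exact_mod_cast ha0') ha0
  have haN : ∀ s, s ≤ R₀ → a' s ≤ N := by
    intro s hs0
    rw [← haR']
    exact hm' hs0
  have hUV : ∀ (W : ℕ → ℤ), (∀ s < R₀, |W s| ≤ 2 * q s) → ∀ s < R₀,
      |(((Q s : ℤ) * W s : ℤ) : ℝ)| ≤ (b : ℝ) ^ (η * N) := by
    intro W hW s hs0
    refine le_trans ?_ h2D
    have h1 : |(Q s : ℤ) * W s| ≤ 2 * (D : ℤ) := by
      rw [abs_mul, Nat.abs_cast, hDQ s hs0]
      push_cast
      calc (Q s : ℤ) * |W s| ≤ Q s * (2 * q s) :=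
            mul_le_mul_of_nonneg_left (hW s hs0) (Int.natCast_nonneg _)
        _ = 2 * (Q s * q s) := by ring
    exact_mod_cast h1
  have hsum := struct_sum b R₀ N a' q (fun s => pre b x (a' s)) U V hm' haR'
    (fun s hs0 => (hq s hs0).2.2.2.2) R₀ le_rfl D (fun s => (Q s : ℤ))
    (fun s hs0 => by rw [hDQ s hs0]; push_cast; ring)
  refine ⟨D, Fin.cons ((D : ℤ) * pre b x (a' 0))
    (Fin.append (fun s : Fin R₀ => (Q s : ℤ) * U s) (fun s : Fin R₀ => -((Q s : ℤ) * V s))),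
    Fin.cons (N - a' 0)
    (Fin.append (fun s : Fin R₀ => N - a' s) (fun s : Fin R₀ => N - a' (s + 1))),
    hD1, ?_, ?_, ?_, ?_, ?_, ?_⟩
  · linarith [Nat.cast_nonneg (α := ℝ) D]
  · rw [Fin.cons_zero]
    push_cast
    rw [abs_mul, Nat.abs_cast]
    have h1 : |(pre b x (a' 0) : ℝ)| ≤ (b : ℝ) ^ (ε * N) * (|x| + 2) := by
      unfold pre
      have e1 := Int.floor_le ((b : ℝ) ^ a' 0 * x)
      have e2 := Int.lt_floor_add_one ((b : ℝ) ^ a' 0 * x)
      have e3 : |(b : ℝ) ^ a' 0 * x| ≤ (b : ℝ) ^ (ε * N) * |x| := by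
        rw [abs_mul, abs_of_pos (by positivity : (0 : ℝ) < (b : ℝ) ^ a' 0)]
        apply mul_le_mul_of_nonneg_right _ hx0
        rw [← Real.rpow_natCast]
        exact Real.rpow_le_rpow_of_exponent_le hb1.le ha0N
      have e4 : (1 : ℝ) ≤ (b : ℝ) ^ (ε * N) := by
        rw [← Real.rpow_zero (b : ℝ)]
        exact Real.rpow_le_rpow_of_exponent_le hb1.le (by positivity)
      have e5 := abs_le.1 e3
      rw [abs_le]
      constructor <;> nlinarith
    have h2 : (b : ℝ) ^ ((ε + η) * N) =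
        (b : ℝ) ^ (η / 4 * N) * ((b : ℝ) ^ (ε * N) * (b : ℝ) ^ (3 / 4 * η * N)) := by
      rw [← Real.rpow_add hb0, ← Real.rpow_add hb0]
      congr 1
      ring
    rw [h2]
    apply mul_le_mul hDle _ (abs_nonneg _) hbig.le
    refine h1.trans ?_
    exact mul_le_mul_of_nonneg_left hN2 (by positivity)
  · intro s hs0
    obtain ⟨i, rfl⟩ := Fin.exists_succ_eq.2 hs0
    rw [Fin.cons_succ]
    refine abs_app _ _ _ (fun s => ?_) (fun s => ?_) i
    · exact_mod_cast hUV U (fun s hs0 => (hq s hs0).2.2.1) s s.2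
    · have := hUV V (fun s hs0 => (hq s hs0).2.2.2.1) s s.2
      rw [Int.cast_neg, abs_neg]
      exact this
  · intro s
    refine Fin.cases ?_ (fun i => ?_) s
    · rw [Fin.cons_zero]
      exact Nat.sub_le _ _
    · rw [Fin.cons_succ]
      refine Fin.addCases (fun s => ?_) (fun s => ?_) i
      · rw [Fin.append_left]
        exact Nat.sub_le _ _
      · rw [Fin.append_right]
        exact Nat.sub_le _ _
  · rw [Fin.cons_zero, Nat.cast_sub (haN 0 (by omega))]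
    linarith
  · rw [Fin.sum_univ_succ, Fin.cons_zero, Fin.cons_zero]
    simp only [Fin.cons_succ]
    rw [Fin.sum_univ_add]
    simp only [Fin.append_left, Fin.append_right]
    rw [haR', Nat.sub_self, pow_zero, mul_one] at hsum
    rw [hsum, Finset.sum_range, Finset.sum_range]

end Pool.Agent.Lib.MP_acd137_lc
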