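import Pool.Agent.Lib.MP_acd137_lc.Spec

/-!
# MP_acd137_lc: from sequences to the finite statement
-/

set_option autoImplicit false

namespace Pool.Agent.Lib.MP_acd137_lc

open Filter Topology

namespace SubAux

/-- the primes dividing `m` -/
noncomputable def pq (m : ℕ) : Fin m.primeFactors.card → ℕ := fun i => (m.primeFactors.equivFin.symm i : ℕ)

theorem pq_pls (m : ℕ) : SubQ.Pls (pq m) where
  prime v := Nat.prime_of_mem_primeFactors (m.primeFactors.equivFin.symm v).2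
  inj := fun _ _ h => m.primeFactors.equivFin.symm.injective (Subtype.ext h)

theorem pq_surj {m p : ℕ} (hp : p ∈ m.primeFactors) : ∃ v, pq m v = p :=
  ⟨m.primeFactors.equivFin ⟨p, hp⟩, by simp [pq]⟩

/-- the `S`-part -/
theorem lv_le {s : ℕ} {q : Fin s → ℕ} (hq : SubQ.Pls q) {m : ℕ}
    (hp : ∀ p, p ∈ m.primeFactors → ∃ v, q v = p) {z : ℤ} (hz : z ≠ 0) (hd : (m : ℤ) ∣ z) :
    ∑ v, SubQ.lv q (some v) z ≤ -Real.log m := by
  rw [Real.log_nat_eq_sum_factorization m, Finsupp.sum, Nat.support_factorization]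
  simp only [SubQ.lv, Finset.sum_neg_distrib, neg_le_neg_iff]
  have h1 : ∑ v, (padicValInt (q v) z : ℝ) * Real.log (q v) =
      ∑ p ∈ Finset.univ.image q, (padicValInt p z : ℝ) * Real.log p := by
    rw [Finset.sum_image (fun x _ y _ h => hq.inj h)]
  rw [h1]
  have h2 : m.primeFactors ⊆ Finset.univ.image q := by
    intro p h
    obtain ⟨v, hv⟩ := hp p h
    exact Finset.mem_image.2 ⟨v, Finset.mem_univ _, hv⟩
  have hpos : ∀ p ∈ Finset.univ.image q, 0 ≤ Real.log (p : ℝ) := by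
    intro p h
    obtain ⟨v, -, hv⟩ := Finset.mem_image.1 h
    refine Real.log_nonneg ?_
    rw [← hv]
    exact_mod_cast (hq.prime v).one_lt.le
  refine (Finset.sum_le_sum ?_).trans (Finset.sum_le_sum_of_subset_of_nonneg h2 fun p h _ =>
    mul_nonneg (Nat.cast_nonneg _) (hpos p h))
  intro p h
  refine mul_le_mul_of_nonneg_right ?_ (hpos p (h2 h))
  have hpp : p.Prime := Nat.prime_of_mem_primeFactors h
  have : Fact p.Prime := ⟨hpp⟩
  have hd' : m ∣ z.natAbs := Int.natCast_dvd.1 hd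
  have h3 : padicValNat p m ≤ padicValNat p z.natAbs := by
    rw [← padicValNat_dvd_iff_le (Int.natAbs_ne_zero.2 hz)]
    exact (pow_padicValNat_dvd).trans hd'
  rw [Nat.factorization_def m hpp]
  exact_mod_cast h3

/-- the data at one `N` -/
structure Bad (b c R : ℕ) (κ C ε η : ℝ) (N D : ℕ) (Y : ℤ) (A : Fin (R + 1) → ℤ)
    (α : Fin (R + 1) → ℕ) (q₁ q₂ u : ℤ) (I J : ℕ) : Prop where
  rep : Rep b R ε η N D Y A α
  h1 : (b : ℝ) ^ N ≤ (c : ℝ) ^ I
  h2 : I ≤ J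
  h3 : (c : ℝ) ^ J ≤ (b : ℝ) ^ (C * N)
  h4 : (|q₁| : ℝ) ≤ (b : ℝ) ^ (η * N)
  h5 : (|q₂| : ℝ) ≤ (b : ℝ) ^ (η * N)
  h6 : (b : ℤ) ^ N ∣ u
  h7 : (q₁ * (c : ℤ) ^ J - q₂ * (c : ℤ) ^ I) * (D * Y) - u ≠ 0
  h8 : (|(q₁ * (c : ℤ) ^ J - q₂ * (c : ℤ) ^ I) * (D * Y) - u| : ℝ) ≤ (b : ℝ) ^ ((1 - κ) * N)

/-- the terms -/
def tt {R : ℕ} (b c : ℕ) (q₁ q₂ : ℤ) (I J : ℕ) (A : Fin (R + 1) → ℤ) (α : Fin (R + 1) → ℕ) :
    Fin (R + 1) × Bool → ℤ
  | (s, true) => q₁ * A s * ((b ^ α s * c ^ J : ℕ) : ℤ)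
  | (s, false) => -q₂ * A s * ((b ^ α s * c ^ I : ℕ) : ℤ)

theorem sum_tt {R : ℕ} (b c : ℕ) (q₁ q₂ : ℤ) (I J : ℕ) (A : Fin (R + 1) → ℤ)
    (α : Fin (R + 1) → ℕ) : ∑ i, tt b c q₁ q₂ I J A α i =
      (q₁ * (c : ℤ) ^ J - q₂ * (c : ℤ) ^ I) * ∑ s, A s * (b : ℤ) ^ α s := by
  rw [Fintype.sum_prod_type, Finset.mul_sum]
  refine Finset.sum_congr rfl fun s _ => ?_
  rw [Fintype.sum_bool]
  simp only [tt]
  push_cast
  ring

/-- one term -/
theorem term {b c : ℕ} (hb : 2 ≤ b) (hc : 2 ≤ c) {N : ℕ} {x y : ℝ} {w a : ℤ} {α K : ℕ}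
    (hw : (|w| : ℝ) ≤ (b : ℝ) ^ x) (ha : (|a| : ℝ) ≤ (b : ℝ) ^ y) (hα : α ≤ N)
    (h1 : (b : ℝ) ^ N ≤ (c : ℝ) ^ K) {z : ℝ} (h3 : (c : ℝ) ^ K ≤ (b : ℝ) ^ z)
    (h0 : w * a * ((b ^ α * c ^ K : ℕ) : ℤ) ≠ 0) :
    N * Real.log b ≤ Real.log |((w * a * ((b ^ α * c ^ K : ℕ) : ℤ) : ℤ) : ℝ)| ∧
    Real.log |((w * a * ((b ^ α * c ^ K : ℕ) : ℤ) : ℤ) : ℝ)| ≤ (x + y + N + z) * Real.log b ∧
    Real.log |((w * a * ((b ^ α * c ^ K : ℕ) : ℤ) : ℤ) : ℝ)| +
      ∑ v, SubQ.lv (pq (b * c)) (some v) (w * a * ((b ^ α * c ^ K : ℕ) : ℤ)) ≤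
        (x + y) * Real.log b := by
  have hb0 : (0 : ℝ) < b := by positivity
  have hb1 : (1 : ℝ) ≤ b := by exact_mod_cast (by omega : 1 ≤ b)
  have hc1 : (1 : ℝ) ≤ c := by exact_mod_cast (by omega : 1 ≤ c)
  have hlb : 0 ≤ Real.log b := Real.log_nonneg hb1
  have hw0 : w ≠ 0 := by
    rintro rfl
    simp at h0
  have ha0 : a ≠ 0 := by
    rintro rfl
    simp at h0
  have hwp : 0 < (|w| : ℝ) := by
    have : (w : ℝ) ≠ 0 := by exact_mod_cast hw0
    positivity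
  have hap : 0 < (|a| : ℝ) := by
    have : (a : ℝ) ≠ 0 := by exact_mod_cast ha0
    positivity
  have hw1 : (1 : ℝ) ≤ |(w : ℝ)| := by
    have := Int.one_le_abs hw0
    exact_mod_cast this
  have ha1 : (1 : ℝ) ≤ |(a : ℝ)| := by
    have := Int.one_le_abs ha0
    exact_mod_cast this
  have hm0 : b ^ α * c ^ K ≠ 0 := by positivity
  have hmp : (0 : ℝ) < (b : ℝ) ^ α * (c : ℝ) ^ K := by positivity
  have hlog : Real.log |((w * a * ((b ^ α * c ^ K : ℕ) : ℤ) : ℤ) : ℝ)| =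
      Real.log |(w : ℝ)| + Real.log |(a : ℝ)| + (α * Real.log b + K * Real.log c) := by
    push_cast
    rw [abs_mul, abs_mul, abs_of_pos hmp, Real.log_mul (mul_pos hwp hap).ne' hmp.ne',
      Real.log_mul hwp.ne' hap.ne', Real.log_mul (by positivity) (by positivity), Real.log_pow,
      Real.log_pow]
  have lw : Real.log |(w : ℝ)| ≤ x * Real.log b := by
    rw [← Real.log_rpow hb0]
    exact Real.log_le_log hwp hw
  have la : Real.log |(a : ℝ)| ≤ y * Real.log b := by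
    rw [← Real.log_rpow hb0]
    exact Real.log_le_log hap ha
  have lw0 : 0 ≤ Real.log |(w : ℝ)| := Real.log_nonneg hw1
  have la0 : 0 ≤ Real.log |(a : ℝ)| := Real.log_nonneg ha1
  have lK1 : N * Real.log b ≤ K * Real.log c := by
    rw [← Real.log_pow, ← Real.log_pow]
    exact Real.log_le_log (by positivity) h1
  have lK2 : K * Real.log c ≤ z * Real.log b := by
    rw [← Real.log_pow, ← Real.log_rpow hb0]
    exact Real.log_le_log (by positivity) h3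
  have lα : α * Real.log b ≤ N * Real.log b :=
    mul_le_mul_of_nonneg_right (by exact_mod_cast hα) hlb
  have lα0 : 0 ≤ α * Real.log b := by positivity
  have hv := lv_le (pq_pls (b * c)) (fun p hp => by
    refine pq_surj (Nat.mem_primeFactors.2 ⟨Nat.prime_of_mem_primeFactors hp, ?_, by positivity⟩)
    have hpp := Nat.prime_of_mem_primeFactors hp
    rcases (Nat.Prime.dvd_mul hpp).1 (Nat.dvd_of_mem_primeFactors hp) with h | h
    · exact (hpp.dvd_of_dvd_pow h).mul_right c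
    · exact (hpp.dvd_of_dvd_pow h).mul_left b) h0 (Dvd.intro_left (w * a) rfl)
  have hlm : Real.log ((b ^ α * c ^ K : ℕ) : ℝ) = α * Real.log b + K * Real.log c := by
    push_cast
    rw [Real.log_mul (by positivity) (by positivity), Real.log_pow, Real.log_pow]
  rw [hlm] at hv
  rw [hlog]
  refine ⟨by linarith, by nlinarith, by nlinarith⟩

end SubAux

open SubAux

theorem tSub : S_sub0 → S_sub := by
  intro h0 b c R κ C ε η hb hc hε hη hκ
  by_contra hne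
  rw [Filter.not_eventually] at hne
  let P : ℕ → Prop := fun N => ∃ (D : ℕ) (Y : ℤ) (A : Fin (R + 1) → ℤ) (α : Fin (R + 1) → ℕ)
    (q₁ q₂ u : ℤ) (I J : ℕ), Bad b c R κ C ε η N D Y A α q₁ q₂ u I J
  have hfr : ∃ᶠ N in atTop, N ∈ {N | P N} := by
    refine hne.mono fun N hN => ?_
    by_contra hcon
    apply hN
    intro D Y A α hrep q₁ q₂ u I J h1 h2 h3 h4 h5 h6 h7 h8
    exact hcon ⟨D, Y, A, α, q₁, q₂, u, I, J, ⟨hrep, h1, h2, h3, h4, h5, h6, h7, h8⟩⟩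
  have hch : ∀ N, ∃ (D : ℕ) (Y : ℤ) (A : Fin (R + 1) → ℤ) (α : Fin (R + 1) → ℕ)
      (q₁ q₂ u : ℤ) (I J : ℕ), P N → Bad b c R κ C ε η N D Y A α q₁ q₂ u I J := by
    intro N
    by_cases h : P N
    · obtain ⟨D, Y, A, α, q₁, q₂, u, I, J, h'⟩ := h
      exact ⟨D, Y, A, α, q₁, q₂, u, I, J, fun _ => h'⟩
    · exact ⟨0, 0, 0, 0, 0, 0, 0, 0, 0, fun h' => absurd h' h⟩
  choose D Y A α q₁ q₂ u I J hB using hch
  have hNB : (atTop ⊓ 𝓟 {N | P N}).NeBot := Filter.frequently_mem_iff_neBot.1 hfr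
  let 𝒰 : Ultrafilter ℕ := Ultrafilter.of (atTop ⊓ 𝓟 {N | P N})
  have hU : (𝒰 : Filter ℕ) ≤ atTop ⊓ 𝓟 {N | P N} := Ultrafilter.of_le _
  have hUP : ∀ᶠ N in (𝒰 : Filter ℕ), P N := (hU.trans inf_le_right) (mem_principal_self _)
  have hUT : (𝒰 : Filter ℕ) ≤ atTop := hU.trans inf_le_left
  have hb0 : (0 : ℝ) < b := by positivity
  have hb1 : (1 : ℝ) < b := by exact_mod_cast (by omega : 1 < b)
  have hlb : 0 < Real.log b := Real.log_pos hb1
  have hT : Tendsto (fun N : ℕ => (N : ℝ) * Real.log b) 𝒰 atTop :=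
    ((tendsto_natCast_atTop_atTop (R := ℝ)).atTop_mul_const hlb).mono_left hUT
  have hc1 : (1 : ℝ) ≤ c := by exact_mod_cast (by omega : 1 ≤ c)
  -- the weights
  have he : ∑ i : Fin (R + 1) × Bool, (if i.1 = 0 then ε + 2 * η else 2 * η) < κ := by
    rw [Fintype.sum_prod_type]
    simp only [Fintype.sum_bool]
    rw [Fin.sum_univ_succ]
    simp only [if_true, Fin.succ_ne_zero, if_false, Finset.sum_const, Finset.card_univ,
      Fintype.card_fin, nsmul_eq_mul]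
    linarith
  refine h0 (Fin (R + 1) × Bool) inferInstance _ (pq (b * c)) (pq_pls _) 𝒰
    (fun N => (N : ℝ) * Real.log b) hT
    (fun i N => tt b c (q₁ N) (q₂ N) (I N) (J N) (A N) (α N) i) u
    (fun i => if i.1 = 0 then ε + 2 * η else 2 * η) κ (C + 1 + ε + 2 * η) ?_ he ?_ ?_ ?_
  · intro i
    split_ifs <;> positivity
  · intro i
    filter_upwards [hUP] with N hN hne0
    have hBN := hB N hN
    obtain ⟨-, -, hA0, hA, hα, -, -⟩ := hBN.rep
    have hA' : (|A N i.1| : ℝ) ≤ (b : ℝ) ^ ((if i.1 = 0 then ε + η else η) * N) := by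
      split_ifs with h
      · rw [h]
        exact hA0
      · exact hA _ h
    have hIJ : (c : ℝ) ^ I N ≤ (c : ℝ) ^ J N := pow_le_pow_right₀ hc1 hBN.h2
    have key : (N : ℝ) * Real.log b ≤ Real.log |(tt b c (q₁ N) (q₂ N) (I N) (J N) (A N) (α N) i : ℝ)| ∧
        Real.log |(tt b c (q₁ N) (q₂ N) (I N) (J N) (A N) (α N) i : ℝ)| ≤
          (η * N + (if i.1 = 0 then ε + η else η) * N + N + C * N) * Real.log b ∧
        Real.log |(tt b c (q₁ N) (q₂ N) (I N) (J N) (A N) (α N) i : ℝ)| +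
          ∑ v, SubQ.lv (pq (b * c)) (some v) (tt b c (q₁ N) (q₂ N) (I N) (J N) (A N) (α N) i) ≤
            (η * N + (if i.1 = 0 then ε + η else η) * N) * Real.log b := by
      obtain ⟨s, b'⟩ := i
      cases b' with
      | true => exact term hb hc hBN.h4 hA' (hα s) (hBN.h1.trans hIJ) hBN.h3 hne0
      | false =>
        refine term hb hc (w := -q₂ N) ?_ hA' (hα s) hBN.h1 (hIJ.trans hBN.h3) hne0
        push_cast
        rw [abs_neg]
        exact hBN.h5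
    obtain ⟨k1, k2, k3⟩ := key
    have hN0 : (0 : ℝ) ≤ N * Real.log b := by positivity
    refine ⟨k1, k2.trans ?_, k3.trans ?_⟩
    · split_ifs with h
      · nlinarith
      · nlinarith [mul_nonneg hε hN0]
    · split_ifs with h
      · nlinarith
      · nlinarith
  · filter_upwards [hUP] with N hN hne0
    have hBN := hB N hN
    have hd : ((b ^ N : ℕ) : ℤ) ∣ u N := by
      push_cast
      exact hBN.h6
    have := lv_le (pq_pls (b * c)) (m := b ^ N) (fun p hp => by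
      refine pq_surj (Nat.mem_primeFactors.2 ⟨Nat.prime_of_mem_primeFactors hp, ?_, by positivity⟩)
      exact ((Nat.prime_of_mem_primeFactors hp).dvd_of_dvd_pow
        (Nat.dvd_of_mem_primeFactors hp)).mul_right c) hne0 hd
    rw [Nat.cast_pow, Real.log_pow] at this
    exact this
  · filter_upwards [hUP] with N hN
    have hBN := hB N hN
    obtain ⟨-, -, -, -, -, -, hDY⟩ := hBN.rep
    have hs : ∑ i, tt b c (q₁ N) (q₂ N) (I N) (J N) (A N) (α N) i - u N =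
        (q₁ N * (c : ℤ) ^ J N - q₂ N * (c : ℤ) ^ I N) * (D N * Y N) - u N := by
      rw [sum_tt, hDY]
    rw [hs]
    refine ⟨hBN.h7, ?_⟩
    have hpos : (0 : ℝ) < |(((q₁ N * (c : ℤ) ^ J N - q₂ N * (c : ℤ) ^ I N) * (D N * Y N) - u N : ℤ) : ℝ)| := by
      rw [abs_pos]
      exact_mod_cast hBN.h7
    have h8 := hBN.h8
    have hcast : (|(q₁ N * (c : ℤ) ^ J N - q₂ N * (c : ℤ) ^ I N) * (D N * Y N) - u N| : ℝ) =
        |(((q₁ N * (c : ℤ) ^ J N - q₂ N * (c : ℤ) ^ I N) * (D N * Y N) - u N : ℤ) : ℝ)| := by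
      push_cast
      rfl
    have h9 := Real.log_le_log hpos (hcast ▸ h8)
    rw [Real.log_rpow hb0] at h9
    calc _ ≤ _ := h9
      _ = _ := by ring

end Pool.Agent.Lib.MP_acd137_lc
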