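import Pool.Agent.Lib.MP_acd137_lc.Spec

set_option autoImplicit false

namespace Pool.Agent.Lib.MP_acd137_lc

open Filter Topology

private theorem sub0_bound {ι : Type} [Fintype ι] (t : ι → ℤ) (u : ℤ) (C κ T : ℝ) (hT : 0 ≤ T)
    (hT2 : Real.log ((Fintype.card ι : ℝ) + 1) ≤ T) (hu : u ≠ 0)
    (ht : ∀ i, t i ≠ 0 → Real.log |(t i : ℝ)| ≤ C * T)
    (hL : ∑ i, t i - u ≠ 0) (hL2 : Real.log |((∑ i, t i - u : ℤ) : ℝ)| ≤ (1 - κ) * T) :
    Real.log |(u : ℝ)| ≤ (1 + |C| + |1 - κ|) * T := by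
  set E := Real.exp ((|C| + |1 - κ|) * T) with hE
  have h1 : ∀ i, |(t i : ℝ)| ≤ E := by
    intro i
    by_cases h : t i = 0
    · rw [h]
      simp only [Int.cast_zero, abs_zero]
      exact (Real.exp_pos _).le
    · have h2 : 0 < |(t i : ℝ)| := abs_pos.2 (Int.cast_ne_zero.2 h)
      rw [← Real.exp_log h2]
      refine Real.exp_le_exp.2 ((ht i h).trans ?_)
      refine mul_le_mul_of_nonneg_right ?_ hT
      have := le_abs_self C
      have := abs_nonneg (1 - κ)
      linarith
  have h3 : |((∑ i, t i - u : ℤ) : ℝ)| ≤ E := by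
    have h2 : 0 < |((∑ i, t i - u : ℤ) : ℝ)| := abs_pos.2 (Int.cast_ne_zero.2 hL)
    rw [← Real.exp_log h2]
    refine Real.exp_le_exp.2 (hL2.trans ?_)
    refine mul_le_mul_of_nonneg_right ?_ hT
    have := le_abs_self (1 - κ)
    have := abs_nonneg C
    linarith
  have h4 : |(u : ℝ)| ≤ ((Fintype.card ι : ℝ) + 1) * E := by
    have h5 : (u : ℝ) = (∑ i, (t i : ℝ)) - ((∑ i, t i - u : ℤ) : ℝ) := by
      push_cast
      ring
    rw [h5]
    calc |(∑ i, (t i : ℝ)) - ((∑ i, t i - u : ℤ) : ℝ)|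
        ≤ |∑ i, (t i : ℝ)| + |((∑ i, t i - u : ℤ) : ℝ)| := abs_sub _ _
      _ ≤ ∑ i, |(t i : ℝ)| + E := add_le_add (Finset.abs_sum_le_sum_abs _ _) h3
      _ ≤ ∑ _i : ι, E + E := by
          gcongr with i _
          exact h1 i
      _ = ((Fintype.card ι : ℝ) + 1) * E := by
          rw [Finset.sum_const, Finset.card_univ, nsmul_eq_mul]
          ring
  have h6 : 0 < |(u : ℝ)| := abs_pos.2 (Int.cast_ne_zero.2 hu)
  have h7 : (0 : ℝ) < (Fintype.card ι : ℝ) + 1 := by positivity
  calc Real.log |(u : ℝ)| ≤ Real.log (((Fintype.card ι : ℝ) + 1) * E) := Real.log_le_log h6 h4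
    _ = Real.log ((Fintype.card ι : ℝ) + 1) + (|C| + |1 - κ|) * T := by
        rw [Real.log_mul h7.ne' (Real.exp_pos _).ne', Real.log_exp]
    _ ≤ T + (|C| + |1 - κ|) * T := by linarith
    _ = (1 + |C| + |1 - κ|) * T := by ring

theorem tSub0 : S_basis → S_core → S_sub0 := by
  classical
  intro hbas hcore ι _ s q hq 𝒰 T hT t u e κ C he hsum ht hu hL
  obtain ⟨d, e', hinj, hgen, hspan⟩ := hbas ι inferInstance 𝒰 (fun i l => (t i l : ℚ))
  choose γ₁ hγ₁ using hspan
  set γ₀ : Fin d → ℚ := fun i => ∑ j, γ₁ j i with hγ₀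
  -- the sum
  have hS : ∀ᶠ l in (𝒰 : Filter ℕ), ((∑ j, t j l : ℤ) : ℚ) = ∑ i, γ₀ i * (t (e' i) l : ℚ) := by
    have h1 : ∀ᶠ l in (𝒰 : Filter ℕ), ∀ j, (t j l : ℚ) = ∑ i, γ₁ j i * (t (e' i) l : ℚ) :=
      eventually_all.2 hγ₁
    filter_upwards [h1] with l hl
    push_cast
    rw [Finset.sum_congr rfl fun j _ => hl j, Finset.sum_comm]
    refine Finset.sum_congr rfl fun i _ => ?_
    rw [hγ₀, Finset.sum_mul]
  -- the basis elements are not zero
  have hne : ∀ i, ∀ᶠ l in (𝒰 : Filter ℕ), t (e' i) l ≠ 0 := by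
    intro i
    have h1 : (Pi.single i 1 : Fin d → ℚ) ≠ 0 := by
      intro h
      have := congrFun h i
      rw [Pi.single_eq_same] at this
      exact one_ne_zero this
    filter_upwards [hgen _ h1] with l hl h0
    refine hl (Finset.sum_eq_zero fun j _ => ?_)
    by_cases hj : j = i
    · rw [hj, h0]
      simp
    · rw [Pi.single_eq_of_ne hj, zero_mul]
  have hsum' : ∑ i, e (e' i) < κ := by
    refine lt_of_le_of_lt ?_ hsum
    rw [← Finset.sum_image (s := Finset.univ) (g := e') (f := e) (fun i _ j _ h => hinj h)]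
    exact Finset.sum_le_sum_of_subset_of_nonneg (Finset.subset_univ _) fun i _ _ => he i
  have hTe : ∀ᶠ l in (𝒰 : Filter ℕ), 0 ≤ T l := hT.eventually_ge_atTop 0
  by_cases hcase : ∃ γ' : Fin d → ℚ, ∀ᶠ l in (𝒰 : Filter ℕ),
      (u l : ℚ) = ∑ i, γ' i * (t (e' i) l : ℚ)
  · -- `u` is a combination
    obtain ⟨γ', hγ'⟩ := hcase
    have hLeq : ∀ᶠ l in (𝒰 : Filter ℕ), ((∑ j, t j l - u l : ℤ) : ℚ)
        = ∑ i, (γ₀ i - γ' i) * (t (e' i) l : ℚ) := by
      filter_upwards [hS, hγ'] with l h1 h2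
      rw [Int.cast_sub, h1, h2, ← Finset.sum_sub_distrib]
      refine Finset.sum_congr rfl fun i _ => ?_
      ring
    have hk : ∃ k, γ₀ k - γ' k ≠ 0 := by
      by_contra hcon
      have hcon' : ∀ k, γ₀ k - γ' k = 0 := fun k => not_not.1 fun h => hcon ⟨k, h⟩
      have h1 : ∀ᶠ l in (𝒰 : Filter ℕ), False := by
        filter_upwards [hLeq, hL] with l h2 h3
        refine h3.1 ?_
        have h4 : ((∑ j, t j l - u l : ℤ) : ℚ) = 0 := by
          rw [h2]
          refine Finset.sum_eq_zero fun i _ => ?_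
          rw [hcon', zero_mul]
        exact_mod_cast h4
      exact h1.exists.elim fun _ h => h
    obtain ⟨k, hk⟩ := hk
    refine hcore d s q hq 𝒰 T hT (fun i => t (e' i)) (fun l => ∑ j, t j l - u l)
      (fun i => γ₀ i - γ' i) k (fun i => e (e' i)) C (1 - e (e' k)) (1 - κ) hgen hk hLeq
      ?_ ?_ ?_ ?_ ?_
    · intro i
      filter_upwards [hne i, ht (e' i)] with l h1 h2
      exact (h2 h1).2.1
    · intro i _
      filter_upwards [hne i, ht (e' i)] with l h1 h2
      exact (h2 h1).2.2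
    · filter_upwards [hne k, ht (e' k)] with l h1 h2
      obtain ⟨h3, -, h4⟩ := h2 h1
      have h5 : (1 - e (e' k)) * T l = T l - e (e' k) * T l := by ring
      linarith
    · filter_upwards [hL] with l h1
      exact h1.2
    · have h1 := Finset.add_sum_erase Finset.univ (fun i => e (e' i)) (Finset.mem_univ k)
      linarith
  · -- `u` is independent
    have hgen2 : ∀ z : Fin (d + 1) → ℚ, z ≠ 0 → ∀ᶠ l in (𝒰 : Filter ℕ),
        ∑ i, z i * ((Fin.cons u (fun i => t (e' i)) : Fin (d + 1) → ℕ → ℤ) i l : ℚ) ≠ 0 := by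
      intro z hz
      by_cases h0 : z 0 = 0
      · have h1 : (fun i : Fin d => z i.succ) ≠ 0 := by
          intro h
          refine hz (funext fun i => ?_)
          refine Fin.cases h0 (fun j => congrFun h j) i
        filter_upwards [hgen _ h1] with l hl
        rw [Fin.sum_univ_succ, h0, zero_mul, zero_add]
        simpa only [Fin.cons_succ] using hl
      · have h1 : ∀ᶠ l in (𝒰 : Filter ℕ),
            ¬ (u l : ℚ) = ∑ i, (-(z (Fin.succ i)) / z 0) * (t (e' i) l : ℚ) := by
          rw [Ultrafilter.eventually_not]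
          exact fun h => hcase ⟨_, h⟩
        filter_upwards [h1] with l hl h2
        refine hl ?_
        rw [Fin.sum_univ_succ] at h2
        simp only [Fin.cons_succ, Fin.cons_zero] at h2
        have h3 : ∑ i, (-(z (Fin.succ i)) / z 0) * (t (e' i) l : ℚ)
            = -(∑ i : Fin d, z i.succ * (t (e' i) l : ℚ)) / z 0 := by
          rw [← Finset.sum_neg_distrib, Finset.sum_div]
          refine Finset.sum_congr rfl fun i _ => ?_
          ring
        rw [h3, eq_div_iff h0]
        linarith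
    have hune : ∀ᶠ l in (𝒰 : Filter ℕ), u l ≠ 0 := by
      have h1 : (Pi.single 0 1 : Fin (d + 1) → ℚ) ≠ 0 := by
        intro h
        have := congrFun h 0
        rw [Pi.single_eq_same] at this
        exact one_ne_zero this
      filter_upwards [hgen2 _ h1] with l hl h0
      refine hl ?_
      rw [Fin.sum_univ_succ]
      simp only [Pi.single_eq_same, Fin.cons_zero, h0, Int.cast_zero, mul_zero, zero_add]
      refine Finset.sum_eq_zero fun i _ => ?_
      rw [Pi.single_eq_of_ne (Fin.succ_ne_zero i), zero_mul]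
    have hTl : ∀ᶠ l in (𝒰 : Filter ℕ), Real.log ((Fintype.card ι : ℝ) + 1) ≤ T l :=
      hT.eventually_ge_atTop _
    have hall : ∀ᶠ l in (𝒰 : Filter ℕ), ∀ i, t i l ≠ 0 → Real.log |(t i l : ℝ)| ≤ C * T l := by
      refine eventually_all.2 fun i => ?_
      filter_upwards [ht i] with l h1 h2
      exact (h1 h2).2.1
    refine hcore (d + 1) s q hq 𝒰 T hT (Fin.cons u (fun i => t (e' i)))
      (fun l => ∑ j, t j l - u l) (Fin.cons (-1) γ₀) 0 (Fin.cons 0 (fun i => e (e' i)))
      (1 + |C| + |1 - κ|) 1 (1 - κ) hgen2 ?_ ?_ ?_ ?_ ?_ ?_ ?_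
    · rw [Fin.cons_zero]
      norm_num
    · filter_upwards [hS] with l h1
      rw [Fin.sum_univ_succ, Int.cast_sub, h1]
      simp only [Fin.cons_zero, Fin.cons_succ]
      ring
    · intro i
      refine Fin.cases ?_ (fun j => ?_) i
      · filter_upwards [hune, hTe, hTl, hall, hL] with l h1 h2 h3 h4 h5
        simp only [Fin.cons_zero]
        exact sub0_bound (fun i => t i l) (u l) C κ (T l) h2 h3 h1 h4 h5.1 h5.2
      · filter_upwards [hne j, ht (e' j), hTe] with l h1 h2 h3
        simp only [Fin.cons_succ]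
        refine (h2 h1).2.1.trans (mul_le_mul_of_nonneg_right ?_ h3)
        have := le_abs_self C
        have := abs_nonneg (1 - κ)
        linarith
    · intro i hi
      obtain ⟨j, rfl⟩ := Fin.exists_succ_eq.2 hi
      filter_upwards [hne j, ht (e' j)] with l h1 h2
      simp only [Fin.cons_succ]
      exact (h2 h1).2.2
    · filter_upwards [hune, hu] with l h1 h2
      simp only [Fin.cons_zero, one_mul]
      exact h2 h1
    · filter_upwards [hL] with l h1
      exact h1.2
    · have h1 := Finset.add_sum_erase Finset.univ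
        (Fin.cons 0 (fun i => e (e' i)) : Fin (d + 1) → ℝ) (Finset.mem_univ 0)
      rw [Fin.sum_univ_succ] at h1
      simp only [Fin.cons_zero, Fin.cons_succ, zero_add] at h1
      rw [h1]
      linarith

end Pool.Agent.Lib.MP_acd137_lc
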