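import Pool.Agent.Lib.MP_acd137_lc.Spec

set_option autoImplicit false

/-!
# MP_acd137_lc: transitions near non-simple scales (`S_t1`)
-/

namespace Pool.Agent.Lib.MP_acd137_lc

open Filter Topology

/-- A chain which covers `(N, 2 N]` has a long piece. -/
private lemma long_piece (a : ℕ → ℕ) (R N : ℕ) (hN : 1 ≤ N) (ha : Monotone a) (h0 : a 0 ≤ N)
    (hR : 2 * N ≤ a R) :
    ∃ s < R, a s ≤ 2 * N ∧ N ≤ a (s + 1) ∧ (N : ℝ) ≤ R * ((a (s + 1) - a s : ℕ) : ℝ) := by
  have hRpos : 0 < R := by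
    rcases Nat.eq_zero_or_pos R with h | h
    · subst h; omega
    · exact h
  set c : ℕ → ℕ := fun s => max N (min (a s) (2 * N)) with hc
  have hsum : ∑ s ∈ Finset.range R, ((c (s + 1) : ℝ) - c s) = c R - c 0 :=
    Finset.sum_range_sub (fun s => (c s : ℝ)) R
  have hcR : c R = 2 * N := by simp only [hc]; omega
  have hc0 : c 0 = N := by simp only [hc]; omega
  obtain ⟨s, hs, hle⟩ := Finset.exists_le_of_sum_le (s := Finset.range R)
    (f := fun _ => (N : ℝ)) (g := fun s => (R : ℝ) * ((c (s + 1) : ℝ) - c s))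
    ⟨0, Finset.mem_range.2 hRpos⟩ (by
      rw [Finset.sum_const, Finset.card_range, nsmul_eq_mul, ← Finset.mul_sum, hsum, hcR, hc0]
      push_cast
      apply mul_le_mul_of_nonneg_left _ (Nat.cast_nonneg _)
      linarith)
  have hs' := Finset.mem_range.1 hs
  have hRr : (0 : ℝ) < R := by exact_mod_cast hRpos
  have hNr : (0 : ℝ) < N := by exact_mod_cast hN
  have hlt : c s < c (s + 1) := by
    by_contra hge
    push Not at hge
    have : ((c (s + 1) : ℝ) - c s) ≤ 0 := by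
      have : (c (s + 1) : ℝ) ≤ c s := by exact_mod_cast hge
      linarith
    have : (R : ℝ) * ((c (s + 1) : ℝ) - c s) ≤ 0 := mul_nonpos_of_nonneg_of_nonpos hRr.le this
    linarith
  have hmono := ha (Nat.le_succ s)
  have h1 : a s ≤ c s := by
    have : c s < 2 * N := by
      have : c (s + 1) ≤ 2 * N := by simp only [hc]; omega
      omega
    simp only [hc] at this ⊢
    omega
  have h2 : c (s + 1) ≤ a (s + 1) := by
    have : N < c (s + 1) := by
      have : N ≤ c s := by simp only [hc]; omega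
      omega
    simp only [hc] at this ⊢
    omega
  refine ⟨s, hs', ?_, ?_, ?_⟩
  · have : c s ≤ 2 * N := by simp only [hc]; omega
    omega
  · have : N ≤ c (s + 1) := by simp only [hc]; omega
    omega
  · refine hle.trans ?_
    apply mul_le_mul_of_nonneg_left _ hRr.le
    have h3 : (c (s + 1) : ℝ) - c s = ((c (s + 1) - c s : ℕ) : ℝ) := by
      rw [Nat.cast_sub hlt.le]
    rw [h3]
    exact_mod_cast (by omega : c (s + 1) - c s ≤ a (s + 1) - a s)

/-- The least exponent. -/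
private lemma least (b : ℕ) (A : ℤ) (n : ℕ) :
    ∃ N0 ≤ n, ∃ Y : ℤ, A = (b : ℤ) ^ (n - N0) * Y ∧ (0 < N0 → ¬ (b : ℤ) ∣ Y) := by
  classical
  have hex : ∃ i, i ≤ n ∧ (b : ℤ) ^ (n - i) ∣ A := ⟨n, le_refl _, by simp⟩
  obtain ⟨h1, Y, hY⟩ := Nat.find_spec hex
  refine ⟨Nat.find hex, h1, Y, hY, ?_⟩
  intro hpos hdiv
  obtain ⟨Z, hZ⟩ := hdiv
  apply Nat.find_min hex (m := Nat.find hex - 1) (by omega)
  refine ⟨by omega, Z, ?_⟩
  have e : n - (Nat.find hex - 1) = (n - Nat.find hex) + 1 := by omega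
  rw [e]
  calc A = (b : ℤ) ^ (n - Nat.find hex) * Y := hY
    _ = (b : ℤ) ^ (n - Nat.find hex + 1) * Z := by rw [hZ, pow_succ]; ring

theorem tT1 : S_t1 := by
  intro b x hb hS
  obtain ⟨R, hR⟩ := hS (1 / 2) (by norm_num)
  have hb' : (2 : ℝ) ≤ b := by exact_mod_cast hb
  have hb0 : (0 : ℝ) < b := by linarith
  have hb1 : (1 : ℝ) ≤ b := by linarith
  have hR1 : (0 : ℝ) < (R : ℝ) + 1 := by positivity
  refine ⟨1 / (4 * (R + 1)), by positivity, ?_⟩
  intro κ hκ
  refine ⟨κ / 4, by positivity, ?_⟩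
  intro η hη
  set η₁ : ℝ := min (κ / 8) (min (1 / (4 * (R + 1))) (η * (κ / 4) / 2)) with hη₁
  have hη₁pos : 0 < η₁ := by
    rw [hη₁]
    exact lt_min (by positivity) (lt_min (by positivity) (by positivity))
  have e1 : η₁ ≤ κ / 8 := min_le_left _ _
  have e2 : η₁ ≤ 1 / (4 * (R + 1)) := (min_le_right _ _).trans (min_le_left _ _)
  have e3 : η₁ ≤ η * (κ / 4) / 2 := (min_le_right _ _).trans (min_le_right _ _)
  have h2N : Tendsto (fun N : ℕ => 2 * N) atTop atTop :=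
    tendsto_atTop_atTop.2 (fun m => ⟨m, fun n hn => by omega⟩)
  filter_upwards [h2N.eventually (hR η₁ hη₁pos), eventually_ge_atTop 1] with N hN hN1 hnear
  obtain ⟨a, hamono, ha0, haR, hpiece⟩ := hN
  have hNr : (1 : ℝ) ≤ N := by exact_mod_cast hN1
  have ha0' : a 0 ≤ N := by
    have : (a 0 : ℝ) ≤ N := by
      refine ha0.trans (le_of_eq ?_)
      push_cast
      ring
    exact_mod_cast this
  obtain ⟨s, hs, has, has1, hlen⟩ := long_piece a R N hN1 hamono ha0' haR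
  obtain ⟨q, A, hq1, hq, happ⟩ := hpiece s hs
  have hq' : (q : ℝ) ≤ (b : ℝ) ^ (2 * η₁ * N) := by
    refine hq.trans (le_of_eq ?_)
    congr 1
    push_cast
    ring
  have hqr : (0 : ℝ) < q := by exact_mod_cast hq1
  obtain ⟨N0, hN0le, Y, hY, hmin⟩ := least b A (a s)
  have hYr : (A : ℝ) = (b : ℝ) ^ (a s - N0) * Y := by
    rw [hY]
    push_cast
    ring
  have hbs : (b : ℝ) ^ (a s - N0) * (b : ℝ) ^ N0 = (b : ℝ) ^ a s := by
    rw [← pow_add]
    congr 1
    omega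
  have hone : (1 : ℝ) ≤ (b : ℝ) ^ (a s - N0) := one_le_pow₀ hb1
  -- the basic identity
  have hid : (b : ℝ) ^ (a s - N0) * (q * (b : ℝ) ^ N0 * x - Y) =
      q * ((b : ℝ) ^ a s * x - A / q) := by
    rw [mul_sub, mul_sub, mul_div_cancel₀ _ hqr.ne', ← hYr, ← hbs]
    ring
  have habs : (b : ℝ) ^ (a s - N0) * |q * (b : ℝ) ^ N0 * x - Y| ≤
      q * ((b : ℝ) ^ (a (s + 1) - a s))⁻¹ := by
    have h1 : |(b : ℝ) ^ (a s - N0) * (q * (b : ℝ) ^ N0 * x - Y)| ≤
        q * ((b : ℝ) ^ (a (s + 1) - a s))⁻¹ := by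
      rw [hid, abs_mul, abs_of_pos hqr]
      exact mul_le_mul_of_nonneg_left happ hqr.le
    rwa [abs_mul, abs_of_pos (by positivity : (0 : ℝ) < (b : ℝ) ^ (a s - N0))] at h1
  have hmono := hamono (Nat.le_succ s)
  -- `N0` is not small
  have hN0big : κ / 4 * N ≤ N0 := by
    by_contra hlt
    push Not at hlt
    apply hnear
    have hbN0 : (0 : ℝ) < (b : ℝ) ^ N0 := by positivity
    refine ⟨q * b ^ N0, Y, ?_, ?_, ?_⟩
    · have : 1 ≤ b ^ N0 := Nat.one_le_pow _ _ (by omega)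
      nlinarith
    · push_cast
      have h1 : (b : ℝ) ^ N0 ≤ (b : ℝ) ^ (κ / 4 * N) := by
        rw [← Real.rpow_natCast]
        exact Real.rpow_le_rpow_of_exponent_le hb1 hlt.le
      calc (q : ℝ) * (b : ℝ) ^ N0 ≤ (b : ℝ) ^ (2 * η₁ * N) * (b : ℝ) ^ (κ / 4 * N) :=
            mul_le_mul hq' h1 hbN0.le (by positivity)
        _ = (b : ℝ) ^ (2 * η₁ * N + κ / 4 * N) := (Real.rpow_add hb0 _ _).symm
        _ ≤ (b : ℝ) ^ (κ * N) := by
            apply Real.rpow_le_rpow_of_exponent_le hb1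
            nlinarith
    · push_cast
      have h2 : x - Y / (q * (b : ℝ) ^ N0) =
          (q * (b : ℝ) ^ N0 * x - Y) / (q * (b : ℝ) ^ N0) := by
        field_simp
      rw [h2, abs_div, abs_of_pos (by positivity : (0 : ℝ) < q * (b : ℝ) ^ N0),
        div_le_iff₀ (by positivity)]
      have h3 : (b : ℝ) ^ (a s - N0) * |q * (b : ℝ) ^ N0 * x - Y| ≤
          (b : ℝ) ^ (a s - N0) * (((b : ℝ) ^ N)⁻¹ * (q * (b : ℝ) ^ N0)) := by
        refine habs.trans ?_
        have h4 : (b : ℝ) ^ (a s - N0) * (((b : ℝ) ^ N)⁻¹ * (q * (b : ℝ) ^ N0)) =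
            q * (((b : ℝ) ^ N)⁻¹ * (b : ℝ) ^ a s) := by
          rw [← hbs]; ring
        rw [h4]
        apply mul_le_mul_of_nonneg_left _ hqr.le
        rw [inv_mul_eq_div, inv_eq_one_div, div_le_div_iff₀ (by positivity) (by positivity),
          one_mul, ← pow_add]
        exact pow_le_pow_right₀ hb1 (by omega)
      exact le_of_mul_le_mul_left h3 (by positivity)
  have hN0pos : 0 < N0 := by
    have : (0 : ℝ) < N0 := lt_of_lt_of_le (by positivity) hN0big
    exact_mod_cast this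
  have hN02 : N0 ≤ 2 * N := hN0le.trans has
  have hN02' : (N0 : ℝ) ≤ 2 * N := by exact_mod_cast hN02
  refine ⟨N0, q, Y, hN0big, hN02, hq1, ?_, hmin hN0pos, ?_⟩
  · refine hq'.trans (Real.rpow_le_rpow_of_exponent_le hb1 ?_)
    have h5 : 2 * η₁ * N ≤ η * (κ / 4) * N := by
      apply mul_le_mul_of_nonneg_right _ (by linarith)
      linarith
    have h6 : η * (κ / 4 * N) ≤ η * N0 := mul_le_mul_of_nonneg_left hN0big hη.le
    nlinarith
  · have h7 : |(q : ℝ) * (b : ℝ) ^ N0 * x - Y| ≤ q * ((b : ℝ) ^ (a (s + 1) - a s))⁻¹ := by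
      refine le_trans ?_ habs
      have := abs_nonneg ((q : ℝ) * (b : ℝ) ^ N0 * x - Y)
      nlinarith
    refine h7.trans ?_
    have h8 : ((b : ℝ) ^ (a (s + 1) - a s))⁻¹ =
        (b : ℝ) ^ (-((a (s + 1) - a s : ℕ) : ℝ)) := by
      rw [Real.rpow_neg hb0.le, Real.rpow_natCast]
    rw [h8]
    calc (q : ℝ) * (b : ℝ) ^ (-((a (s + 1) - a s : ℕ) : ℝ)) ≤
          (b : ℝ) ^ (2 * η₁ * N) * (b : ℝ) ^ (-((a (s + 1) - a s : ℕ) : ℝ)) :=
          mul_le_mul_of_nonneg_right hq' (by positivity)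
      _ = (b : ℝ) ^ (2 * η₁ * N + -((a (s + 1) - a s : ℕ) : ℝ)) := (Real.rpow_add hb0 _ _).symm
      _ ≤ (b : ℝ) ^ (-(1 / (4 * ((R : ℝ) + 1)) * N0)) := by
          apply Real.rpow_le_rpow_of_exponent_le hb1
          have h9 : (N : ℝ) ≤ ((R : ℝ) + 1) * ((a (s + 1) - a s : ℕ) : ℝ) := by
            refine hlen.trans (mul_le_mul_of_nonneg_right (by linarith) (Nat.cast_nonneg _))
          have h10 : 1 / ((R : ℝ) + 1) * N ≤ ((a (s + 1) - a s : ℕ) : ℝ) := by
            rw [one_div, inv_mul_le_iff₀ hR1]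
            exact h9
          have h11 : 2 * η₁ * N ≤ 2 * (1 / (4 * ((R : ℝ) + 1))) * N := by
            apply mul_le_mul_of_nonneg_right _ (by linarith)
            linarith
          have h12 : 1 / (4 * ((R : ℝ) + 1)) * N0 ≤ 1 / (4 * ((R : ℝ) + 1)) * (2 * N) :=
            mul_le_mul_of_nonneg_left hN02' (by positivity)
          have h13 : 1 / ((R : ℝ) + 1) = 4 * (1 / (4 * ((R : ℝ) + 1))) := by
            field_simp
          rw [h13] at h10
          linarith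

end Pool.Agent.Lib.MP_acd137_lc
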