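import Pool.Agent.Lib.MP_acd137_lc.Spec

set_option autoImplicit false

/-!
# MP_acd137_lc: infinitely many non-simple scales (`S_t2`)
-/

namespace Pool.Agent.Lib.MP_acd137_lc

open Filter Topology

/-- Two close fractions with small denominators are equal. -/
private lemma eq_of_close (b : ℕ) (x : ℝ) (N q q' : ℕ) (A A' : ℤ) (hb : 2 ≤ b) (hN : 2 ≤ N)
    (hq : 1 ≤ q) (hq' : 1 ≤ q') (h1 : (q : ℝ) ≤ (b : ℝ) ^ (1 / 8 * (N : ℝ)))
    (h2 : (q' : ℝ) ≤ (b : ℝ) ^ (1 / 8 * ((N + 1 : ℕ) : ℝ)))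
    (h3 : |x - A / q| ≤ ((b : ℝ) ^ N)⁻¹) (h4 : |x - A' / q'| ≤ ((b : ℝ) ^ (N + 1))⁻¹) :
    (A : ℝ) / q = A' / q' := by
  have hb' : (2 : ℝ) ≤ b := by exact_mod_cast hb
  have hb0 : (0 : ℝ) < b := by linarith
  have hb1 : (1 : ℝ) ≤ b := by linarith
  have hqr : (0 : ℝ) < q := by exact_mod_cast hq
  have hqr' : (0 : ℝ) < q' := by exact_mod_cast hq'
  have hN' : (2 : ℝ) ≤ N := by exact_mod_cast hN
  -- the product of the denominators
  have h5 : (q : ℝ) * q' ≤ (b : ℝ) ^ ((N : ℝ) - 1) := by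
    calc (q : ℝ) * q' ≤ (b : ℝ) ^ (1 / 8 * (N : ℝ)) * (b : ℝ) ^ (1 / 8 * ((N + 1 : ℕ) : ℝ)) :=
          mul_le_mul h1 h2 hqr'.le (by positivity)
      _ = (b : ℝ) ^ (1 / 8 * (N : ℝ) + 1 / 8 * ((N + 1 : ℕ) : ℝ)) :=
          (Real.rpow_add hb0 _ _).symm
      _ ≤ (b : ℝ) ^ ((N : ℝ) - 1) := by
          apply Real.rpow_le_rpow_of_exponent_le hb1
          push_cast
          linarith
  have h6 : (b : ℝ) ^ ((N : ℝ) - 1) * b = (b : ℝ) ^ N := by
    rw [Real.rpow_sub hb0, Real.rpow_natCast, Real.rpow_one]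
    field_simp
  have hbN : (0 : ℝ) < (b : ℝ) ^ N := by positivity
  have h7 : 2 * ((q : ℝ) * q') ≤ (b : ℝ) ^ N := by
    rw [← h6]
    have : 0 < (b : ℝ) ^ ((N : ℝ) - 1) := by positivity
    nlinarith
  have h8 : ((b : ℝ) ^ (N + 1))⁻¹ ≤ ((b : ℝ) ^ N)⁻¹ / 2 := by
    rw [pow_succ, mul_inv, div_eq_mul_inv]
    apply mul_le_mul_of_nonneg_left _ (by positivity)
    exact inv_anti₀ (by norm_num) hb'
  have h9 : |(A : ℝ) / q - A' / q'| ≤ ((b : ℝ) ^ N)⁻¹ * (3 / 2) := by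
    have : (A : ℝ) / q - A' / q' = (x - A' / q') - (x - A / q) := by ring
    rw [this]
    refine (abs_sub _ _).trans ?_
    linarith
  have h10 : |(A : ℝ) * q' - A' * q| < 1 := by
    have e : (A : ℝ) * q' - A' * q = ((A : ℝ) / q - A' / q') * (q * q') := by
      field_simp
    rw [e, abs_mul, abs_of_pos (mul_pos hqr hqr')]
    calc |(A : ℝ) / q - A' / q'| * (q * q') ≤ ((b : ℝ) ^ N)⁻¹ * (3 / 2) * (q * q') :=
          mul_le_mul_of_nonneg_right h9 (by positivity)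
      _ ≤ ((b : ℝ) ^ N)⁻¹ * (3 / 2) * ((b : ℝ) ^ N / 2) := by
          apply mul_le_mul_of_nonneg_left _ (by positivity)
          linarith
      _ = 3 / 4 := by field_simp; norm_num
      _ < 1 := by norm_num
  have h11 : |A * q' - A' * q| < 1 := by exact_mod_cast h10
  have h12 : A * q' - A' * q = 0 := Int.abs_lt_one_iff.1 h11
  have h13 : (A : ℝ) * q' = A' * q := by
    have : A * q' = A' * q := by linarith
    exact_mod_cast this
  rw [div_eq_div_iff hqr.ne' hqr'.ne']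
  exact h13

theorem tT2 : S_t2 := by
  intro b x hb hx
  by_contra hfr
  rw [not_frequently] at hfr
  simp only [not_not] at hfr
  obtain ⟨N₁, hN₁⟩ := eventually_atTop.1 hfr
  choose! q A h1 h2 h3 using (fun (N : ℕ) (hN : N₁ ≤ N) => (hN₁ N hN))
  set N₂ := max N₁ 2 with hN₂
  have hN₂1 : N₁ ≤ N₂ := le_max_left _ _
  have hN₂2 : 2 ≤ N₂ := le_max_right _ _
  have hconst : ∀ m, (A (N₂ + m) : ℝ) / q (N₂ + m) = A N₂ / q N₂ := by
    intro m
    induction m with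
    | zero => rfl
    | succ m ih =>
      rw [← ih]
      symm
      exact eq_of_close b x (N₂ + m) _ _ _ _ hb (by omega) (h1 _ (by omega)) (h1 _ (by omega))
        (h2 _ (by omega)) (h2 _ (by omega)) (h3 _ (by omega)) (h3 _ (by omega))
  have hb' : (2 : ℝ) ≤ b := by exact_mod_cast hb
  have hlim : Tendsto (fun m : ℕ => ((b : ℝ) ^ (N₂ + m))⁻¹) atTop (𝓝 0) := by
    have h4 : Tendsto (fun n : ℕ => ((b : ℝ)⁻¹) ^ n) atTop (𝓝 0) :=
      tendsto_pow_atTop_nhds_zero_of_lt_one (by positivity)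
        (inv_lt_one_of_one_lt₀ (by linarith))
    have h5 := h4.comp (tendsto_add_atTop_nat N₂)
    refine h5.congr (fun m => ?_)
    simp only [Function.comp]
    rw [inv_pow, add_comm m N₂]
  have hle : |x - A N₂ / q N₂| ≤ 0 := by
    refine ge_of_tendsto hlim (Eventually.of_forall (fun m => ?_))
    rw [← hconst m]
    exact h3 _ (by omega)
  have heq : x = A N₂ / q N₂ := by
    have := abs_nonpos_iff.1 hle
    linarith
  apply hx
  exact ⟨(A N₂ : ℚ) / (q N₂ : ℚ), by rw [heq]; push_cast; rfl⟩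

end Pool.Agent.Lib.MP_acd137_lc
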