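import Pool.Agent.Lib.MP_acd137_lc.Spec

set_option autoImplicit false

namespace Pool.Agent.Lib.MP_acd137_lc

open Filter Topology

/-- (t3) A number which is not a Liouville number is not near to rational numbers. -/
theorem tT3 : S_t3 := by
  intro b x hb hx hL
  unfold Liouville at hL
  push Not at hL
  obtain ⟨n, hn⟩ := hL
  have hne : ∀ a c : ℤ, x ≠ a / c := by
    intro a c h
    exact hx ⟨(a : ℚ) / c, by rw [h]; push_cast; rfl⟩
  have hn' : ∀ a c : ℤ, 1 < c → 1 / (c : ℝ) ^ n ≤ |x - a / c| := fun a c hc => hn a c hc (hne a c)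
  have hb1 : (1 : ℝ) < b := by exact_mod_cast (by omega : 1 < b)
  have hb2 : (2 : ℝ) ≤ b := by exact_mod_cast hb
  have hb0 : (0 : ℝ) < b := by linarith
  refine ⟨1 / (2 * (n + 1)), by positivity, ?_⟩
  filter_upwards [eventually_ge_atTop (n + 1)] with N hN
  rintro ⟨q, A, hq1, hq2, hq3⟩
  have hbN : (0 : ℝ) < (b : ℝ) ^ N := by positivity
  rcases Nat.lt_or_ge 1 q with hq | hq
  · have h1 := hn' A q (by exact_mod_cast hq)
    have h2 : ((q : ℤ) : ℝ) = (q : ℝ) := by push_cast; rfl
    rw [h2] at h1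
    have h3 : (q : ℝ) ^ n < (b : ℝ) ^ N := by
      calc (q : ℝ) ^ n ≤ ((b : ℝ) ^ (1 / (2 * ((n : ℝ) + 1)) * N)) ^ n :=
            pow_le_pow_left₀ (by positivity) hq2 n
        _ = (b : ℝ) ^ (1 / (2 * ((n : ℝ) + 1)) * N * n) := by
            rw [← Real.rpow_natCast, ← Real.rpow_mul hb0.le]
        _ < (b : ℝ) ^ (N : ℝ) := by
            apply Real.rpow_lt_rpow_of_exponent_lt hb1
            have hN0 : (0 : ℝ) < N := by exact_mod_cast (by omega : 0 < N)
            have h4 : 1 / (2 * ((n : ℝ) + 1)) * N * n = N * (n / (2 * (n + 1))) := by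
              field_simp
            rw [h4]
            have h5 : (n : ℝ) / (2 * (n + 1)) < 1 := by
              rw [div_lt_one (by positivity)]
              have : (0 : ℝ) ≤ n := Nat.cast_nonneg _
              linarith
            nlinarith
        _ = (b : ℝ) ^ N := Real.rpow_natCast _ _
    have h6 : ((b : ℝ) ^ N)⁻¹ < 1 / (q : ℝ) ^ n := by
      rw [one_div]
      apply inv_strictAnti₀ _ h3
      have : (0 : ℝ) < q := by exact_mod_cast (by omega : 0 < q)
      positivity
    linarith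
  · have hq' : q = 1 := by omega
    subst hq'
    have h1 := hn' (2 * A) 2 (by norm_num)
    have h2 : ((2 * A : ℤ) : ℝ) / ((2 : ℤ) : ℝ) = A / ((1 : ℕ) : ℝ) := by
      push_cast
      ring
    rw [h2] at h1
    have h3 : ((b : ℝ) ^ N)⁻¹ < 1 / ((2 : ℤ) : ℝ) ^ n := by
      rw [one_div]
      apply inv_strictAnti₀ (by norm_num)
      calc ((2 : ℤ) : ℝ) ^ n = (2 : ℝ) ^ n := by push_cast; rfl
        _ < (2 : ℝ) ^ N := pow_lt_pow_right₀ (by norm_num) (by omega)
        _ ≤ (b : ℝ) ^ N := pow_le_pow_left₀ (by norm_num) hb2 N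
    linarith

end Pool.Agent.Lib.MP_acd137_lc
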