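import Pool.Agent.Lib.MP_acd137_lc.Spec

set_option autoImplicit false

namespace Pool.Agent.Lib.MP_acd137_lc

open Filter Topology

/-- (tfreq) There are infinitely many transitions. -/
theorem tTfreq : S_t1 → S_t2 → S_tfreq := by
  intro h1 h2 b x hb hx hs
  obtain ⟨ρ, hρ, h3⟩ := h1 b x hb hs
  obtain ⟨κ', hκ', h4⟩ := h3 (1 / 8) (by norm_num)
  refine ⟨ρ, hρ, fun η hη => ?_⟩
  have h5 := (h2 b x hb hx).and_eventually (h4 η hη)
  rw [frequently_atTop] at h5 ⊢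
  intro m
  obtain ⟨N, hN, h6, h7⟩ := h5 ⌈(m : ℝ) / κ'⌉₊
  obtain ⟨N0, q, Y, h8, -, h9⟩ := h7 h6
  refine ⟨N0, ?_, q, Y, h9⟩
  have h10 : (m : ℝ) / κ' ≤ N := (Nat.le_ceil _).trans (Nat.cast_le.mpr hN)
  rw [div_le_iff₀ hκ'] at h10
  have h11 : (m : ℝ) ≤ N0 := by linarith
  exact_mod_cast h11

end Pool.Agent.Lib.MP_acd137_lc
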