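import Pool.Agent.Lib.MP_acd137_lc.Spec

set_option autoImplicit false

namespace Pool.Agent.Lib.MP_acd137_lc

open Filter Topology

theorem tVal : S_trans → S_gap → S_val := by
  intro hT hG b x hb hx p hp hpb ε' hε'
  obtain ⟨R, hR⟩ := hT b x hb hx (1 / 2) (by norm_num)
  obtain ⟨η, hη, hgap⟩ := hG b p (R + 0) ε' hb hp hpb hε'
  obtain ⟨η', hη', htr⟩ := hR η hη
  refine ⟨η', hη', ?_⟩
  intro ρ hρ
  filter_upwards [hgap, htr ρ hρ] with N h1 h2
  intro q Y hY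
  obtain ⟨D, A, α, hrep⟩ := h2 q Y hY
  exact h1 D Y A α hY.2.2.1 hrep

end Pool.Agent.Lib.MP_acd137_lc
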