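import Pool.Agent.Lib.SubQ.Final
import Pool.Agent.Lib.MP_acd137_lc.Asm
import Pool.Agent.Lib.MP_acd137_lc.Digits
import Pool.Agent.Lib.MP_acd137_lc.Pig
import Pool.Agent.Lib.MP_acd137_lc.T1
import Pool.Agent.Lib.MP_acd137_lc.T2
import Pool.Agent.Lib.MP_acd137_lc.T3
import Pool.Agent.Lib.MP_acd137_lc.Tfreq
import Pool.Agent.Lib.MP_acd137_lc.Clip
import Pool.Agent.Lib.MP_acd137_lc.Piece
import Pool.Agent.Lib.MP_acd137_lc.Struct
import Pool.Agent.Lib.MP_acd137_lc.Trans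
import Pool.Agent.Lib.MP_acd137_lc.Gap
import Pool.Agent.Lib.MP_acd137_lc.Val
import Pool.Agent.Lib.MP_acd137_lc.Prime
import Pool.Agent.Lib.MP_acd137_lc.Nv
import Pool.Agent.Lib.MP_acd137_lc.Basis
import Pool.Agent.Lib.MP_acd137_lc.Lim
import Pool.Agent.Lib.MP_acd137_lc.Core
import Pool.Agent.Lib.MP_acd137_lc.Sub0
import Pool.Agent.Lib.MP_acd137_lc.Sub
import Pool.Agent.Lib.MP_acd137_lc.Kp
import Pool.Agent.Lib.MP_acd137_lc.F1
import Pool.Agent.Lib.MP_acd137_lc.F2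
import Pool.Agent.Lib.MP_acd137_lc.F3
import Pool.Agent.Lib.MP_acd137_lc.Breaks
import Pool.Agent.Lib.MP_acd137_lc.Irr
import Pool.Agent.Lib.MP_acd137_lc.NonL
import Pool.Agent.Lib.MP_acd137_lc.Lac
import Pool.Agent.Lib.MP_acd137_lc.Champ
import Pool.Agent.Lib.MP_acd137_lc.Aut

/-!
# MP_acd137_lc: everything together, without hypotheses
-/

set_option autoImplicit false

namespace Pool.Agent.Lib.MP_acd137_lc

theorem kpT : S_kp :=
  tKp (tTrans (tStruct tClip tPiece)) (tVal (tTrans (tStruct tClip tPiece)) tGap) (tNv tPrime)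
    (tSub (tSub0 tBasis (tCore SubQ.subTh tLim)))

theorem mainT : S_main :=
  asm (tF1 (tTfreq tT1 tT2) kpT) (tF2 tDigits (tPig tDigits) (tTfreq tT1 tT2) kpT)
    (tF3 tDigits (tPig tDigits) tT1 tT3 kpT) tBreaks tIrr tNonL (tLac tBreaks tIrr tNonL) tChamp tAut

end Pool.Agent.Lib.MP_acd137_lc
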