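import Pool.Agent.Lib.MP_acd137_lc.Spec2

/-!
# MP_acd137_lc, GenA: lacunary sums with bounded coefficients
-/

set_option autoImplicit false

namespace Pool.Agent.Lib.MP_acd137_lc

open Filter Topology

namespace GenAAux

variable {b : ℕ} {g : ℕ → ℕ}

/-- the terms -/
private theorem sum_able (hb : 2 ≤ b) (hg : StrictMono g) :
    Summable fun k => ((b : ℝ) ^ g k)⁻¹ := by
  have hb1 : (1 : ℝ) < b := by exact_mod_cast (by omega : 1 < b)
  have h1 : Summable fun k : ℕ => ((b : ℝ) ^ k)⁻¹ := by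
    have := summable_geometric_of_lt_one (r := (b : ℝ)⁻¹) (by positivity)
      (inv_lt_one_of_one_lt₀ hb1)
    simpa [inv_pow] using this
  exact h1.comp_injective hg.injective

/-- the tail -/
private theorem tail_le (hb : 2 ≤ b) (hg : StrictMono g) (k : ℕ) :
    ∑' j, ((b : ℝ) ^ g (j + (k + 1)))⁻¹ ≤ b * ((b : ℝ) ^ g (k + 1))⁻¹ := by
  have hb2 : (2 : ℝ) ≤ b := by exact_mod_cast hb
  have hb1 : (1 : ℝ) < b := by linarith
  have hb0 : (0 : ℝ) < b := by linarith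
  have hS := (summable_nat_add_iff (k + 1)).2 (sum_able hb hg)
  have h2 : HasSum (fun j : ℕ => ((b : ℝ) ^ g (k + 1))⁻¹ * (b : ℝ)⁻¹ ^ j)
      (((b : ℝ) ^ g (k + 1))⁻¹ * (1 - (b : ℝ)⁻¹)⁻¹) :=
    (hasSum_geometric_of_lt_one (by positivity) (inv_lt_one_of_one_lt₀ hb1)).mul_left _
  have h3 : ∀ j, ((b : ℝ) ^ g (j + (k + 1)))⁻¹ ≤ ((b : ℝ) ^ g (k + 1))⁻¹ * (b : ℝ)⁻¹ ^ j := by
    intro j
    rw [inv_pow, ← mul_inv, ← pow_add]
    apply inv_anti₀ (by positivity)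
    apply pow_le_pow_right₀ hb1.le
    have := hg.add_le_nat j (k + 1)
    omega
  have h4 := hS.tsum_le_tsum (f := fun j : ℕ => ((b : ℝ) ^ g (j + (k + 1)))⁻¹) h3 h2.summable
  rw [h2.tsum_eq] at h4
  refine h4.trans ?_
  rw [mul_comm]
  apply mul_le_mul_of_nonneg_right _ (by positivity)
  have h5 : (1 : ℝ) / 2 ≤ 1 - (b : ℝ)⁻¹ := by
    have : (b : ℝ)⁻¹ ≤ 1 / 2 := by
      rw [inv_eq_one_div]
      exact one_div_le_one_div_of_le (by norm_num) hb2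
    linarith
  calc (1 - (b : ℝ)⁻¹)⁻¹ ≤ (1 / 2 : ℝ)⁻¹ := inv_anti₀ (by norm_num) h5
    _ = 2 := by norm_num
    _ ≤ b := hb2

/-- the numerators -/
private def AA (b : ℕ) (g : ℕ → ℕ) (u : ℤ) (e : ℕ → ℤ) (k : ℕ) : ℤ :=
  u * (b : ℤ) ^ g k + ∑ j ∈ Finset.range (k + 1), e j * (b : ℤ) ^ (g k - g j)

private theorem AA_eq (hb : 2 ≤ b) (hg : StrictMono g) (u : ℤ) (e : ℕ → ℤ) (k : ℕ) :
    (AA b g u e k : ℝ) =
      (b : ℝ) ^ g k * (u + ∑ j ∈ Finset.range (k + 1), (e j : ℝ) / (b : ℝ) ^ g j) := by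
  have hb0 : (b : ℝ) ≠ 0 := by
    have : (2 : ℝ) ≤ b := by exact_mod_cast hb
    linarith
  unfold AA
  push_cast
  rw [mul_add, Finset.mul_sum, mul_comm (u : ℝ)]
  congr 1
  refine Finset.sum_congr rfl fun j hj => ?_
  rw [Finset.mem_range] at hj
  rw [pow_sub₀ _ hb0 (hg.monotone (by omega))]
  ring

/-- the terms of the series -/
private theorem abs_term (e : ℕ → ℤ) (D : ℕ) (he : ∀ i, e i ≠ 0 ∧ |e i| ≤ D) (i : ℕ) :
    |(e i : ℝ) / (b : ℝ) ^ g i| ≤ D * ((b : ℝ) ^ g i)⁻¹ := by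
  rw [div_eq_mul_inv, abs_mul, abs_of_nonneg (a := ((b : ℝ) ^ g i)⁻¹) (by positivity)]
  refine mul_le_mul_of_nonneg_right ?_ (by positivity)
  have := (he i).2
  have h2 : ((|e i| : ℤ) : ℝ) ≤ ((D : ℤ) : ℝ) := by exact_mod_cast this
  rw [Int.cast_abs] at h2
  simpa using h2

private theorem sum_able2 (hb : 2 ≤ b) (hg : StrictMono g) (e : ℕ → ℤ) (D : ℕ)
    (he : ∀ i, e i ≠ 0 ∧ |e i| ≤ D) : Summable fun i => (e i : ℝ) / (b : ℝ) ^ g i :=
  Summable.of_norm_bounded ((sum_able hb hg).mul_left (D : ℝ)) fun i => abs_term e D he i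

private theorem tail2 (hb : 2 ≤ b) (hg : StrictMono g) (e : ℕ → ℤ) (D : ℕ)
    (he : ∀ i, e i ≠ 0 ∧ |e i| ≤ D) (k : ℕ) :
    |∑' j, (e (j + (k + 1)) : ℝ) / (b : ℝ) ^ g (j + (k + 1))| ≤
      D * (b * ((b : ℝ) ^ g (k + 1))⁻¹) := by
  have hS := (summable_nat_add_iff (k + 1)).2 (sum_able hb hg)
  have h1 : Summable fun j => (D : ℝ) * ((b : ℝ) ^ g (j + (k + 1)))⁻¹ := hS.mul_left _
  have h2 : ‖∑' j, (e (j + (k + 1)) : ℝ) / (b : ℝ) ^ g (j + (k + 1))‖ ≤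
      ∑' j, (D : ℝ) * ((b : ℝ) ^ g (j + (k + 1)))⁻¹ :=
    tsum_of_norm_bounded h1.hasSum fun j => abs_term e D he (j + (k + 1))
  rw [Real.norm_eq_abs] at h2
  refine h2.trans ?_
  rw [tsum_mul_left]
  exact mul_le_mul_of_nonneg_left (tail_le hb hg k) (by positivity)

end GenAAux

open GenAAux

/-- **genA** -/
theorem tGenA : S_genA := by
  intro b m lam x h D u e hb hm hlam hlac hh he hx
  have hb2 : (2 : ℝ) ≤ b := by exact_mod_cast hb
  have hb1 : (1 : ℝ) < b := by linarith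
  have hbp : (0 : ℝ) < b := by linarith
  have hb0 : (b : ℝ) ≠ 0 := hbp.ne'
  have hh0 : (0 : ℝ) < h := by exact_mod_cast hh
  have hh1 : (1 : ℝ) ≤ h := by exact_mod_cast hh
  refine ⟨fun _ => h, AA b m u e, ⟨hm.tendsto_atTop, hlac, fun _ => hh, ?_, D + 1, ?_⟩, ?_⟩
  · intro η hη
    have h1 : Tendsto (fun k => (b : ℝ) ^ (η * (m k : ℝ))) atTop atTop :=
      (tendsto_rpow_atTop_of_base_gt_one (b : ℝ) hb1).comp
        ((tendsto_natCast_atTop_atTop.comp hm.tendsto_atTop).const_mul_atTop hη)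
    exact h1.eventually_ge_atTop (h : ℝ)
  · refine Eventually.of_forall fun k => ?_
    have h1 := (sum_able2 hb hm e D he).sum_add_tsum_nat_add (k + 1)
    have h2 : (b : ℝ) ^ m k * x - (AA b m u e k : ℝ) / (h : ℝ) =
        ((b : ℝ) ^ m k * ∑' j, (e (j + (k + 1)) : ℝ) / (b : ℝ) ^ m (j + (k + 1))) / h := by
      rw [eq_div_iff hh0.ne', sub_mul, div_mul_cancel₀ _ hh0.ne', AA_eq hb hm, mul_assoc,
        mul_comm x, hx, ← h1]
      ring
    have h3 := tail2 hb hm e D he k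
    have h4 : |(b : ℝ) ^ m k * x - (AA b m u e k : ℝ) / (h : ℝ)| ≤
        (b : ℝ) ^ m k * (D * (b * ((b : ℝ) ^ m (k + 1))⁻¹)) := by
      rw [h2, abs_div, abs_mul, abs_of_pos hh0, abs_of_nonneg (a := (b : ℝ) ^ m k) (by positivity)]
      refine (div_le_self (by positivity) hh1).trans ?_
      exact mul_le_mul_of_nonneg_left h3 (by positivity)
    refine h4.trans ?_
    have h5 : (b : ℝ) ^ m k * (D * (b * ((b : ℝ) ^ m (k + 1))⁻¹)) =
        (D * b) * ((b : ℝ) ^ (m (k + 1) - m k))⁻¹ := by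
      rw [pow_sub₀ _ hb0 (hm.monotone (Nat.le_succ k)), mul_inv, inv_inv]
      ring
    rw [h5]
    refine mul_le_mul_of_nonneg_right ?_ (by positivity)
    rw [pow_succ]
    refine mul_le_mul_of_nonneg_right ?_ hbp.le
    have h6 : D < b ^ D := Nat.lt_pow_self (by omega)
    exact_mod_cast h6.le
  · refine Eventually.of_forall fun k => ?_
    have h1 : ∀ k, (AA b m u e k : ℝ) / ((h : ℝ) * (b : ℝ) ^ m k) =
        (u + ∑ j ∈ Finset.range (k + 1), (e j : ℝ) / (b : ℝ) ^ m j) / h := by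
      intro k
      rw [AA_eq hb hm, mul_comm (h : ℝ), mul_div_mul_left _ _ (pow_ne_zero _ hb0)]
    show (AA b m u e k : ℝ) / ((h : ℝ) * (b : ℝ) ^ m k) ≠
      (AA b m u e (k + 1) : ℝ) / ((h : ℝ) * (b : ℝ) ^ m (k + 1))
    rw [h1, h1, Finset.sum_range_succ _ (k + 1)]
    intro h2
    rw [div_left_inj' hh0.ne'] at h2
    have h3 : (e (k + 1) : ℝ) / (b : ℝ) ^ m (k + 1) = 0 := by linarith
    rw [div_eq_zero_iff] at h3
    rcases h3 with h3 | h3
    · exact (he (k + 1)).1 (by exact_mod_cast h3)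
    · exact pow_ne_zero _ hb0 h3

end Pool.Agent.Lib.MP_acd137_lc
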