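import Pool.Agent.Lib.MP_acd137_lc.Spec2
import Pool.Agent.Lib.MP_acd137_lc.TB.Changes

/-!
# MP_acd137_lc: digits which change at lacunary places
-/

set_option autoImplicit false

namespace Pool.Agent.Lib.MP_acd137_lc

open Filter Topology

private theorem dig_eq_genB (b : ℕ) (x : ℝ) (k : ℕ) : MPacdTB.dig b x k = digit b x (k + 1) := by
  unfold MPacdTB.dig digit
  rw [Nat.add_sub_cancel]

/-- the digits of `x` change exactly at the places of a lacunary sequence -/
theorem tGenB : S_genB := by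
  intro b m lam x hb hm hlam hlac h
  have h' : ∀ k, MPacdTB.dig b x k ≠ MPacdTB.dig b x (k + 1) ↔ k + 1 ∈ Set.range m := by
    intro k
    rw [dig_eq_genB, dig_eq_genB]
    exact h (k + 1) (Nat.succ_le_succ (Nat.zero_le k))
  have hm1 : StrictMono fun i => m (i + 1) := fun i j hij => hm (Nat.succ_lt_succ hij)
  have hlac1 : ∀ᶠ i in atTop, lam * m (i + 1) ≤ (m (i + 1 + 1) : ℝ) :=
    (tendsto_add_atTop_nat 1).eventually hlac
  by_cases h0 : 0 < m 0
  · obtain ⟨e, h1, h2, h3⟩ := MPacdTB.of_changes b hb x m hm h0 h'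
    exact ⟨m, b - 1, b, _, e, hm, hlac, by omega, fun i => ⟨h1 i, h2 i⟩, h3, fun _ h => h⟩
  · have h4 : ∀ k, MPacdTB.dig b x k ≠ MPacdTB.dig b x (k + 1) ↔
        k + 1 ∈ Set.range fun i => m (i + 1) := by
      intro k
      rw [h' k]
      constructor
      · rintro ⟨i, hi⟩
        rcases i with _ | i
        · omega
        · exact ⟨i, hi⟩
      · rintro ⟨i, hi⟩
        exact ⟨i + 1, hi⟩
    obtain ⟨e, h1, h2, h3⟩ := MPacdTB.of_changes b hb x (fun i => m (i + 1)) hm1
      (lt_of_le_of_lt (Nat.zero_le _) (hm (Nat.zero_lt_one))) h4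
    exact ⟨fun i => m (i + 1), b - 1, b, _, e, hm1, hlac1, by omega, fun i => ⟨h1 i, h2 i⟩, h3,
      fun C h => (tendsto_add_atTop_nat 1).eventually h⟩

end Pool.Agent.Lib.MP_acd137_lc
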