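import Pool.Agent.Lib.MP_acd137_lc.Spec2

set_option autoImplicit false

namespace Pool.Agent.Lib.MP_acd137_lc

open Filter Topology

/-- (irr2) Numbers with break points and non-constant approximations are irrational. -/
theorem tIrr2 : S_irr2 := by
  intro b x lam g q A hb hlam hB hne
  obtain ⟨hg, hgap, hq1, hqs, K, happ⟩ := hB
  rintro ⟨r, hr⟩
  have hb1 : (1 : ℝ) < b := by exact_mod_cast (by omega : 1 < b)
  have hb0 : (0 : ℝ) < b := by linarith
  have hQ : (0 : ℝ) < r.den := by exact_mod_cast r.den_pos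
  have hxr : x * r.den = r.num := by
    rw [← hr]
    exact_mod_cast Rat.mul_den_eq_num r
  obtain ⟨m, hm⟩ := pow_unbounded_of_one_lt ((r.den : ℝ) * (b : ℝ) ^ K) hb1
  obtain ⟨M, hM⟩ := exists_nat_ge ((m : ℝ) / ((lam - 1) / 2))
  have hη : 0 < (lam - 1) / 2 := by linarith
  have key : ∀ᶠ k in atTop, x = (A k : ℝ) / (q k * (b : ℝ) ^ g k) := by
    filter_upwards [hgap, hqs ((lam - 1) / 2) hη, happ, hg.eventually_ge_atTop M]
      with k h1 h2 h3 h4
    have hq0 : (0 : ℝ) < q k := by exact_mod_cast hq1 k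
    have hbk : (0 : ℝ) < (b : ℝ) ^ g k := by positivity
    have hgk : (0 : ℝ) ≤ g k := Nat.cast_nonneg _
    have hle : g k ≤ g (k + 1) := by
      have : (g k : ℝ) ≤ g (k + 1) := by nlinarith
      exact_mod_cast this
    set n := g (k + 1) - g k with hn
    have hn2 : (lam - 1) * g k ≤ n := by
      rw [hn, Nat.cast_sub hle]
      linarith
    -- the integer
    have hE : ((r.num * q k * (b : ℤ) ^ g k - r.den * A k : ℤ) : ℝ)
        = r.den * q k * ((b : ℝ) ^ g k * x - A k / q k) := by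
      push_cast
      rw [← hxr]
      field_simp
    have hbn : (0 : ℝ) < (b : ℝ) ^ n := by positivity
    have h5 : (q k : ℝ) * (r.den * (b : ℝ) ^ K) < (b : ℝ) ^ n := by
      have h6 : (b : ℝ) ^ m ≤ (b : ℝ) ^ ((lam - 1) / 2 * (g k : ℝ)) := by
        rw [← Real.rpow_natCast]
        apply Real.rpow_le_rpow_of_exponent_le hb1.le
        have h41 : (M : ℝ) ≤ g k := by exact_mod_cast h4
        rw [div_le_iff₀ hη] at hM
        nlinarith
      have h7 : (b : ℝ) ^ ((lam - 1) / 2 * (g k : ℝ)) * (b : ℝ) ^ ((lam - 1) / 2 * (g k : ℝ)) ≤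
          (b : ℝ) ^ n := by
        rw [← Real.rpow_add hb0, ← Real.rpow_natCast (b : ℝ) n]
        apply Real.rpow_le_rpow_of_exponent_le hb1.le
        linarith
      have h9 : (0 : ℝ) < (b : ℝ) ^ ((lam - 1) / 2 * (g k : ℝ)) := by positivity
      calc (q k : ℝ) * (r.den * (b : ℝ) ^ K) ≤
            (b : ℝ) ^ ((lam - 1) / 2 * (g k : ℝ)) * (r.den * (b : ℝ) ^ K) :=
            mul_le_mul_of_nonneg_right h2 (by positivity)
        _ < (b : ℝ) ^ ((lam - 1) / 2 * (g k : ℝ)) * (b : ℝ) ^ ((lam - 1) / 2 * (g k : ℝ)) :=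
            mul_lt_mul_of_pos_left (hm.trans_le h6) h9
        _ ≤ _ := h7
    have hlt : |((r.num * q k * (b : ℤ) ^ g k - r.den * A k : ℤ) : ℝ)| < 1 := by
      rw [hE, abs_mul, abs_of_pos (by positivity : (0 : ℝ) < r.den * q k)]
      calc (r.den : ℝ) * q k * |(b : ℝ) ^ g k * x - A k / q k|
          ≤ r.den * q k * ((b : ℝ) ^ K * ((b : ℝ) ^ n)⁻¹) :=
            mul_le_mul_of_nonneg_left h3 (by positivity)
        _ = (q k * (r.den * (b : ℝ) ^ K)) / (b : ℝ) ^ n := by
            field_simp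
        _ < 1 := by
            rw [div_lt_one hbn]
            exact h5
    have hz : (r.num * q k * (b : ℤ) ^ g k - r.den * A k : ℤ) = 0 := by
      have h10 : |(r.num * q k * (b : ℤ) ^ g k - r.den * A k : ℤ)| < 1 := by exact_mod_cast hlt
      exact Int.abs_lt_one_iff.mp h10
    rw [hz, Int.cast_zero] at hE
    have h11 : (b : ℝ) ^ g k * x - A k / q k = 0 := by
      have h12 : (r.den : ℝ) * q k ≠ 0 := by positivity
      rcases mul_eq_zero.mp hE.symm with h | h
      · exact absurd h h12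
      · exact h
    have h13 : (b : ℝ) ^ g k * x = A k / q k := by linarith
    rw [eq_div_iff (by positivity)]
    rw [eq_div_iff hq0.ne'] at h13
    linarith
  have key2 : ∀ᶠ k in atTop, x = (A (k + 1) : ℝ) / (q (k + 1) * (b : ℝ) ^ g (k + 1)) :=
    (tendsto_add_atTop_nat 1).eventually key
  obtain ⟨k, h1, h2, h3⟩ := (key.and (key2.and hne)).exists
  exact h3 (h1.symm.trans h2)

end Pool.Agent.Lib.MP_acd137_lc
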