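import Mathlib
import Pool.Agent.Lib.SubQ.Rat

/-!
# MP_acd137_lc: expansions in two bases (helper50; starting point: notes 3262 (D) of helper64, 3268 (C) of helper44)

THEOREM.  Let `b, c >= 2` be multiplicatively independent and let `x` be irrational and `Simple b x`: at every
scale `N` the base `b` digits of `x` are, up to a head of length `ε N`, a chain of boundedly many pieces, each
of which is a piece of the expansion of a rational number with denominator at most `b^(η N)`.  Then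
(1) `x` is not `Simple` in base `c`;
(2) the block complexity `p_c(n)` of the base `c` digits satisfies `limsup p_c(n) / n = ∞`, and
`p_c(n) / n → ∞` if `x` is not a Liouville number;
(3) no finite automaton with output generates the base `c` digits of `x`.
Examples: sums `∑ b^(-g k)` with `3 g k ≤ 2 g (k + 1)` (Liouville's number, powers of 2, Fibonacci numbers) and
Champernowne's number, in base 10.

IDEA.  A transition of `x` is an `N` such that `x = Y / (q b^N) + O(b^(-(1+ρ)N))`, `q <= b^(η N)`, `b` does not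
divide `Y` (`Tr`).  Let `c^M` be the first power of `c` above `b^N`.  Suppose that in base `c` something simple
happens shortly after `M`: `(q₁ c^J - q₂ c^I) x` is within `b^(-δ N)` of the integer `B`, `M <= I <= J <= (1+ε₀) M`,
`q₁, q₂ <= b^(η N)`.  Then `L' = (q₁ c^J - q₂ c^I) Y - q b^N B` has `|L'| <= b^((1-κ)N)`.  It is not `0`, because
`v_p(b^N) = N v_p(b)` is larger than `v_p` of the first product, where `p` is a prime with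
`v_p(b) log c > v_p(c) log b`.  And `D Y` is a sum of boundedly many terms `A_s b^(α s)` with small `A_s`.  The
Subspace theorem over `ℚ` (`SubQ/Final`, proved in our library, all dimensions) gives a contradiction: `S_sub`.
-/

set_option autoImplicit false

namespace Pool.Agent.Lib.MP_acd137_lc

open Filter Topology

/-! ## Definitions -/

/-- the integer part of `b^i x` -/
noncomputable def pre (b : ℕ) (x : ℝ) (i : ℕ) : ℤ := ⌊(b : ℝ) ^ i * x⌋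

/-- the `k`-th base `b` digit of `x` after the point, `k ≥ 1` -/
noncomputable def digit (b : ℕ) (x : ℝ) (k : ℕ) : ℤ :=
  ⌊(b : ℝ) ^ k * x⌋ - b * ⌊(b : ℝ) ^ (k - 1) * x⌋

/-- the number of different words of length `n` in the base `b` expansion of `x` -/
noncomputable def complexity (b : ℕ) (x : ℝ) (n : ℕ) : ℕ :=
  (Set.range fun m : ℕ => fun i : Fin n => digit b x (m + 1 + i)).ncard

/-- multiplicatively independent (for `b, c ≥ 2`) -/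
def Indep (b c : ℕ) : Prop := ∀ m n : ℕ, b ^ m = c ^ n → m = 0 ∧ n = 0

/-- `x` is simple in base `b`: for every `ε` there is `R` such that for every `η` and all large `N` there are
places `a 0 ≤ a 1 ≤ ... ≤ a R` with `a 0 ≤ ε N`, `a R ≥ N` such that for `s < R` the number `b^(a s) x` is within
`b^(-(a (s+1) - a s))` of a rational number with denominator at most `b^(η N)`. -/
def Simple (b : ℕ) (x : ℝ) : Prop :=
  ∀ ε > (0 : ℝ), ∃ R : ℕ, ∀ η > (0 : ℝ), ∀ᶠ N : ℕ in atTop, ∃ a : ℕ → ℕ, Monotone a ∧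
    (a 0 : ℝ) ≤ ε * N ∧ N ≤ a R ∧ ∀ s < R, ∃ (q : ℕ) (A : ℤ), 1 ≤ q ∧
      (q : ℝ) ≤ (b : ℝ) ^ (η * N) ∧
      |(b : ℝ) ^ a s * x - A / q| ≤ ((b : ℝ) ^ (a (s + 1) - a s))⁻¹

/-- `x` is within `b^(-N)` of a rational number with denominator at most `b^(κ N)` -/
def Near (b : ℕ) (x κ : ℝ) (N : ℕ) : Prop :=
  ∃ (q : ℕ) (A : ℤ), 1 ≤ q ∧ (q : ℝ) ≤ (b : ℝ) ^ (κ * N) ∧ |x - A / q| ≤ ((b : ℝ) ^ N)⁻¹

/-- transition at `N`: `x` is close to `Y / (q b^N)`, `q` small, `b` does not divide `Y` -/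
def Tr (b : ℕ) (x ρ η : ℝ) (N q : ℕ) (Y : ℤ) : Prop :=
  1 ≤ q ∧ (q : ℝ) ≤ (b : ℝ) ^ (η * N) ∧ ¬ (b : ℤ) ∣ Y ∧
    |(q : ℝ) * (b : ℝ) ^ N * x - Y| ≤ (b : ℝ) ^ (-(ρ * N))

/-- `D Y` is a sum of `R + 1` terms `A s b^(α s)` with small coefficients -/
def Rep (b R : ℕ) (ε η : ℝ) (N D : ℕ) (Y : ℤ) (A : Fin (R + 1) → ℤ) (α : Fin (R + 1) → ℕ) : Prop :=
  1 ≤ D ∧ (D : ℝ) ≤ (b : ℝ) ^ (η * N) ∧ (|A 0| : ℝ) ≤ (b : ℝ) ^ ((ε + η) * N) ∧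
    (∀ s, s ≠ 0 → (|A s| : ℝ) ≤ (b : ℝ) ^ (η * N)) ∧ (∀ s, α s ≤ N) ∧
    (1 - ε) * N ≤ (α 0 : ℝ) ∧ (D : ℤ) * Y = ∑ s, A s * (b : ℤ) ^ α s

/-- `w` is generated by a finite automaton with output reading the base `k` digits of the index, most
significant digit first -/
def Automatic (k : ℕ) {β : Type} (w : ℕ → β) : Prop :=
  ∃ (Q : Type) (_ : Finite Q) (δ : Q → ℕ → Q) (q₀ : Q) (out : Q → β),
    ∀ m, w m = out ((Nat.digits k m).foldr (fun d s => δ s d) q₀)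

/-! ## Module list (the authors put `theorem name : S_name` into `MP_acd137_lc/name.lean`) -/

/-- (digits) Facts on digits.  Proof: `pre (J) = ⌊b^J x⌋`; `b^(I+t) x = b^t (b^I x)`.  Put
`u = fract (b^I x)`, `v = fract (b^J x)`; by induction `⌊b^t u⌋` is determined by the digits `I+1..I+t`
(`⌊b^(t+1) u⌋ = b ⌊b^t u⌋ + digit (I+t+1)`), so `⌊b^n u⌋ = ⌊b^n v⌋`, hence `|u - v| ≤ b^(-n)`; and
`(b^J - b^I) x - (pre J - pre I) = v - u`. -/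
def S_digits : Prop :=
  ∀ (b : ℕ) (x : ℝ), 2 ≤ b →
    (∀ k, 1 ≤ k → 0 ≤ digit b x k ∧ digit b x k < b) ∧
    ∀ I J n : ℕ, (∀ t, 1 ≤ t → t ≤ n → digit b x (I + t) = digit b x (J + t)) →
      |((b : ℝ) ^ J - (b : ℝ) ^ I) * x - ((pre b x J - pre b x I : ℤ) : ℝ)| ≤ ((b : ℝ) ^ n)⁻¹

/-- (pig) Pigeonhole: among the words of length `n` beginning at the places `M + 1, ..., M + C n + 1` two are
equal if there are at most `C n` different words (the range in `complexity` is finite because digits are in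
`[0, b)`, `S_digits` may be assumed as hypothesis of the theorem). -/
def S_pig : Prop :=
  ∀ (c : ℕ) (x : ℝ) (C n M : ℕ), 2 ≤ c → complexity c x n ≤ C * n →
    ∃ I J, M ≤ I ∧ I < J ∧ J ≤ M + C * n ∧
      ∀ t, 1 ≤ t → t ≤ n → digit c x (I + t) = digit c x (J + t)

/-- (t1) Transitions.  Proof: use `Simple` with `ε = 1/2` at the scale `2N`: the pieces cover `(N, 2N]`, so (if
`N ≥ 1`, `R ≥ 1`) for some `s < R` the part of `(a s, a (s+1)]` in `(N, 2N]` has length `≥ N / R`; thus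
`a s ≤ 2N`, `a (s+1) ≥ N`, `a (s+1) - a s ≥ N / R`.  Put `r = A / (q b^(a s))`, `|x - r| ≤ b^(-a (s+1))`.  Let `N0`
be the least `i ≤ a s` with `b^(a s - i) ∣ A`, `Y = A / b^(a s - N0)`, so `r = Y / (q b^N0)`.  With
`q ≤ b^(2 η₁ N)`: if `N0 < κ' N`, `κ' = κ/4`, `η₁ ≤ κ/8`, then `r` shows `Near b x κ N` (`a (s+1) ≥ N`).  Otherwise
`N0 ≥ κ' N > 0` and `b ∤ Y` by minimality.  `|q b^N0 x - Y| ≤ q b^(N0 - a (s+1)) ≤ b^(2 η₁ N - N/R) ≤ b^(-ρ N0)` for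
`ρ = 1/(4R)`, `η₁ ≤ 1/(4R)` because `N0 ≤ 2N`; `q ≤ b^(2 η₁ N) ≤ b^(η N0)` if `2 η₁ ≤ η κ'`. -/
def S_t1 : Prop :=
  ∀ (b : ℕ) (x : ℝ), 2 ≤ b → Simple b x → ∃ ρ > (0 : ℝ), ∀ κ > (0 : ℝ), ∃ κ' > (0 : ℝ),
    ∀ η > (0 : ℝ), ∀ᶠ N : ℕ in atTop, ¬ Near b x κ N →
      ∃ (N0 q : ℕ) (Y : ℤ), κ' * N ≤ (N0 : ℝ) ∧ N0 ≤ 2 * N ∧ Tr b x ρ η N0 q Y

/-- (t2) Proof: otherwise for all `N ≥ N₁` there is `r_N = A_N / q_N` with `q_N ≤ b^(N/8)`, `|x - r_N| ≤ b^(-N)`.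
`|r_N - r_(N+1)| ≤ 2 b^(-N) < 1 / (q_N q_(N+1))` for large `N`, so `r_N = r_(N+1)`; `r_N = r` for all large `N`, and
`x = r` is rational. -/
def S_t2 : Prop :=
  ∀ (b : ℕ) (x : ℝ), 2 ≤ b → Irrational x → ∃ᶠ N : ℕ in atTop, ¬ Near b x (1 / 8) N

/-- (t3) Proof: there is `m` with `|x - a/q| ≥ q^(-m)` for all integers `a`, `q > 1` (`x ≠ a/q` as `x` is
irrational).  Take `κ = 1 / (2(m+1))`.  If `q > 1`, `q ≤ b^(κ N)`: `|x - A/q| ≥ q^(-m) ≥ b^(-N/2) > b^(-N)`; if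
`q = 1` the distance of `x` to the integers is a positive constant. -/
def S_t3 : Prop :=
  ∀ (b : ℕ) (x : ℝ), 2 ≤ b → Irrational x → ¬ Liouville x →
    ∃ κ > (0 : ℝ), ∀ᶠ N : ℕ in atTop, ¬ Near b x κ N

/-- (tfreq) From `S_t1` (with `κ = 1/8`) and `S_t2`. -/
def S_tfreq : Prop :=
  ∀ (b : ℕ) (x : ℝ), 2 ≤ b → Irrational x → Simple b x → ∃ ρ > (0 : ℝ), ∀ η > (0 : ℝ),
    ∃ᶠ N : ℕ in atTop, ∃ (q : ℕ) (Y : ℤ), Tr b x ρ η N q Y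

/-- (clip) For one `N`: from a chain up to `N` one gets a chain which ends exactly at `N`.  Proof:
`a' s = min (a s) N`.  If `a s < N` then the piece is shorter than the old one; if `a s ≥ N` then
`a' s = a' (s+1) = N` and `q = 1`, `A = ⌊b^N x⌋` will do (`1 ≤ b^(η N)`). -/
def S_clip : Prop :=
  ∀ (b : ℕ) (x η : ℝ) (N R : ℕ) (a : ℕ → ℕ), 2 ≤ b → 0 < η → Monotone a → N ≤ a R →
    (∀ s < R, ∃ (q : ℕ) (A : ℤ), 1 ≤ q ∧ (q : ℝ) ≤ (b : ℝ) ^ (η * N) ∧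
      |(b : ℝ) ^ a s * x - A / q| ≤ ((b : ℝ) ^ (a (s + 1) - a s))⁻¹) →
    ∃ a' : ℕ → ℕ, Monotone a' ∧ a' 0 ≤ a 0 ∧ a' R = N ∧
      ∀ s < R, ∃ (q : ℕ) (A : ℤ), 1 ≤ q ∧ (q : ℝ) ≤ (b : ℝ) ^ (η * N) ∧
        |(b : ℝ) ^ a' s * x - A / q| ≤ ((b : ℝ) ^ (a' (s + 1) - a' s))⁻¹

/-- (piece) One piece: `q X_(a') = b^(a'-a) (q X_a + U) - V`.  Proof: `U = A - q X_a`, `V = b^(a'-a) A - q X_(a')`;
`|U / q| ≤ |A/q - b^a x| + |b^a x - X_a| ≤ 2`; `b^a' x = b^(a'-a) (A/q + θ)`, `|b^(a'-a) θ| ≤ 1`, so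
`|V| = |q θ' - q fract| ≤ 2q` up to sign. -/
def S_piece : Prop :=
  ∀ (b : ℕ) (x : ℝ) (a a' q : ℕ) (A : ℤ), 2 ≤ b → a ≤ a' → 1 ≤ q →
    |(b : ℝ) ^ a * x - A / q| ≤ ((b : ℝ) ^ (a' - a))⁻¹ →
    ∃ U V : ℤ, |U| ≤ 2 * q ∧ |V| ≤ 2 * q ∧
      (q : ℤ) * pre b x a' = (b : ℤ) ^ (a' - a) * (q * pre b x a + U) - V

/-- (struct) The structure of the integer part at the scale `N` (with `2R+1` terms, `R` from `Simple`).  Proof:
`Simple` with `ε/2`, `R₀`, and `η₁ = η / (4 (R₀ + 1))`; `S_clip` gives `a R₀ = N`; `S_piece` for every piece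
gives `X_(a (s+1)) = b^(l s) X_(a s) + (b^(l s) U s - V s) / q s`.  Hence with `D = ∏ q s`
`D X_N = D X_(a 0) b^(N - a 0) + ∑ s, (D / q s) U s b^(N - a s) - ∑ s, (D / q s) V s b^(N - a (s+1))`,
`D ≤ b^(R₀ η₁ N)`, `|(D / q s) U s| ≤ 2 D ≤ b^(η N)` for large `N`, and
`|D X_(a 0)| ≤ D (b^(a 0) |x| + 1) ≤ b^((ε + η) N)`. -/
def S_struct : Prop :=
  ∀ (b : ℕ) (x : ℝ), 2 ≤ b → Simple b x → ∀ ε > (0 : ℝ), ∃ R : ℕ, ∀ η > (0 : ℝ),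
    ∀ᶠ N : ℕ in atTop, ∃ (D : ℕ) (A : Fin (R + 1) → ℤ) (α : Fin (R + 1) → ℕ),
      Rep b R ε η N D (pre b x N) A α

/-- (trans) The same for a transition.  Proof: `R = R₁ + 1` with `R₁` from `S_struct`, `η' = η / 4`;
`S_struct` with `η / 4`: `D X_N = ...`.  `|q b^N x - Y| ≤ 1`, `|q b^N x - q X_N| ≤ q`, so `Y = q X_N + V` with
`|V| ≤ 2 q`.  Multiply by `q`: `D Y = ∑ (q A s) b^(α s) + (D V) b^0`, `|D V| ≤ 2 D q ≤ b^(η N)` for large `N`. -/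
def S_trans : Prop :=
  ∀ (b : ℕ) (x : ℝ), 2 ≤ b → Simple b x → ∀ ε > (0 : ℝ), ∃ R : ℕ, ∀ η > (0 : ℝ), ∃ η' > (0 : ℝ),
    ∀ ρ > (0 : ℝ), ∀ᶠ N : ℕ in atTop, ∀ (q : ℕ) (Y : ℤ), Tr b x ρ η' N q Y →
      ∃ (D : ℕ) (A : Fin (R + 1) → ℤ) (α : Fin (R + 1) → ℕ), Rep b R ε η N D Y A α

/-- (gap) The valuation of `Y` is small.  Proof: let `lam ≥ 2` be real with `lam * v_p(b) * log p ≥ 4 log b`.
Thresholds `θ_j = lam^j η'' N`, `0 ≤ j ≤ R + 1`, where `η''` is chosen with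
`2 lam^(R+2) η'' log b / log p ≤ ε'/2` and `lam^(R+2) η'' ≤ 1/4`.  By pigeonhole some `j ≤ R + 1` has no `α s` in
`(θ_j, lam θ_j]` (`R + 1` numbers, `R + 2` disjoint intervals).  Let `E` be the sum of the terms with
`α s ≤ θ_j` (the head has `α 0 ≥ N/2 > lam θ_j`, so it is not in `E`) and `m = ⌊lam θ_j⌋`; `b^m ∣ D Y - E`.
`|E| ≤ (R+1) b^(η N + θ_j)`.
`E ≠ 0`: there is a prime `p'` with `v_{p'}(Y) < v_{p'}(b)` because `b ∤ Y`; if `E = 0` then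
`m v_{p'}(b) ≤ v_{p'}(D Y) ≤ log D / log p' + v_{p'}(b) ≤ η N log b / log 2 + log b / log 2`, impossible for large `N` if
`η ≤ η'' log 2 / (2 log b)` (here `m ≥ lam η'' N - 1`).
`v_p(E) ≤ log |E| / log p < m v_p(b)` for large `N` (`η ≤ η''`), so `v_p(D Y) = v_p(E) ≤ ε' N`, and
`v_p(Y) ≤ v_p(D Y)`. -/
def S_gap : Prop :=
  ∀ (b p R : ℕ) (ε' : ℝ), 2 ≤ b → p.Prime → p ∣ b → 0 < ε' → ∃ η > (0 : ℝ), ∀ᶠ N : ℕ in atTop,
    ∀ (D : ℕ) (Y : ℤ) (A : Fin (R + 1) → ℤ) (α : Fin (R + 1) → ℕ), ¬ (b : ℤ) ∣ Y →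
      Rep b R (1 / 2) η N D Y A α → (padicValInt p Y : ℝ) ≤ ε' * N

/-- (val) From `S_trans` (with `ε = 1/2`, this gives `R`), then `S_gap` (gives `η`), then `η'` from `S_trans`. -/
def S_val : Prop :=
  ∀ (b : ℕ) (x : ℝ), 2 ≤ b → Simple b x → ∀ p : ℕ, p.Prime → p ∣ b → ∀ ε' > (0 : ℝ),
    ∃ η' > (0 : ℝ), ∀ ρ > (0 : ℝ), ∀ᶠ N : ℕ in atTop, ∀ (q : ℕ) (Y : ℤ), Tr b x ρ η' N q Y →
      (padicValInt p Y : ℝ) ≤ ε' * N

/-- (prime) Proof: otherwise `v_p(b) log c ≤ v_p(c) log b` for all primes `p`; multiply by `log p` and sum over the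
primes dividing `b c`: `log b log c ≤ log c log b`, so equality holds for all `p`; with `m = v_p(c)`,
`n = v_p(b)` for one prime `p ∣ b` (then `m, n ≥ 1`), `v_r(b) m = v_r(c) n` for all `r`
(`v_r(b) log c = v_r(c) log b` and `n log c = m log b`), so `b^m = c^n`. -/
def S_prime : Prop :=
  ∀ b c : ℕ, 2 ≤ b → 2 ≤ c → Indep b c → ∃ p : ℕ, p.Prime ∧
    (padicValNat p c : ℝ) * Real.log b < (padicValNat p b : ℝ) * Real.log c

/-- (nv) Non-vanishing.  Proof: `p` from `S_prime` (it divides `b`).  If `b^N` divides the product then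
`N v_p(b) ≤ v_p(Y) + I v_p(c) + v_p(q₁ c^(J-I) - q₂)`, and the last is at most
`log(2 b^(ε₁ N) c^(J-I)) / log p` (the number is nonzero), `J - I ≤ ε₀ M` (if `I ≥ M`), `I ≤ (1+ε₀) M`,
`M ≤ N log b / log c + 1`.  With `β = log b / log c`: the right side is at most
`ε₁ N + (1+ε₀) β N v_p(c) + (ε₁ N log b + ε₀ β N log c) / log p + O(1) < N v_p(b)` for small `ε₀, ε₁` and
large `N`, because `β v_p(c) < v_p(b)`. -/
def S_nv : Prop :=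
  ∀ b c : ℕ, 2 ≤ b → 2 ≤ c → Indep b c → ∃ p : ℕ, p.Prime ∧ p ∣ b ∧ ∃ ε₀ > (0 : ℝ), ∃ ε₁ > (0 : ℝ),
    ∀ᶠ N : ℕ in atTop, ∀ M : ℕ, (c : ℝ) ^ M ≤ c * (b : ℝ) ^ N →
      ∀ (Y q₁ q₂ : ℤ) (I J : ℕ), Y ≠ 0 → (padicValInt p Y : ℝ) ≤ ε₁ * N → M ≤ I → I ≤ J →
        (J : ℝ) ≤ (1 + ε₀) * M → (|q₁| : ℝ) ≤ (b : ℝ) ^ (ε₁ * N) → (|q₂| : ℝ) ≤ (b : ℝ) ^ (ε₁ * N) →
        q₁ * (c : ℤ) ^ J ≠ q₂ * (c : ℤ) ^ I →
        ¬ (b : ℤ) ^ N ∣ (q₁ * (c : ℤ) ^ J - q₂ * (c : ℤ) ^ I) * Y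

/-- (basis) A basis of finitely many sequences of rationals modulo an ultrafilter.  Proof: the germs
`Filter.Germ 𝒰 ℚ` form a vector space over `ℚ`; take a maximal linearly independent subfamily
(`exists_linearIndependent'` or induction on `ι`), for an ultrafilter `¬ ∀ᶠ (= 0)` is `∀ᶠ (≠ 0)`. -/
def S_basis : Prop :=
  ∀ (ι : Type) (_ : Fintype ι) (𝒰 : Ultrafilter ℕ) (f : ι → ℕ → ℚ),
    ∃ (d : ℕ) (e : Fin d → ι), Function.Injective e ∧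
      (∀ z : Fin d → ℚ, z ≠ 0 → ∀ᶠ l in (𝒰 : Filter ℕ), ∑ i, z i * f (e i) l ≠ 0) ∧
      ∀ j, ∃ γ : Fin d → ℚ, ∀ᶠ l in (𝒰 : Filter ℕ), f j l = ∑ i, γ i * f (e i) l

/-- (lim) Bounded quotients have a limit along an ultrafilter (compactness of `[-C, C]`,
`IsCompact.ultrafilter_le_nhds`). -/
def S_lim : Prop :=
  ∀ (𝒰 : Ultrafilter ℕ) (T f : ℕ → ℝ) (C : ℝ), Tendsto T 𝒰 atTop →
    (∀ᶠ l in (𝒰 : Filter ℕ), |f l| ≤ C * T l) →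
    ∃ a : ℝ, Tendsto (fun l => f l / T l) 𝒰 (𝓝 a)

/-- (core) The application of the Subspace theorem (`SubQ.subSpanT` of `SubQ/Final`).  Proof: `d = n`, forms
`z (some v) =` the identity, `z none =` the identity with the row `k` replaced by `γ` (linearly independent as
`γ k ≠ 0`; all spans are everything).  All values of the forms are nonzero integers along `𝒰` (`L` too, by the
genericity of `φ` and `γ ≠ 0`), `0 ≤ log|φ i| ≤ C T`, `0 ≤ v_q(φ i) log q ≤ log |φ i|`, `0 ≤ log |L| ≤ h T`, so all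
limits exist (`S_lim`, which may be assumed as a hypothesis of the theorem).  The sum of all exponents is at
most `∑_(i ≠ k) e i + h - g < 0`, a contradiction. -/
def S_core : Prop :=
  ∀ (n s : ℕ) (q : Fin s → ℕ), SubQ.Pls q → ∀ (𝒰 : Ultrafilter ℕ) (T : ℕ → ℝ), Tendsto T 𝒰 atTop →
    ∀ (φ : Fin n → ℕ → ℤ) (L : ℕ → ℤ) (γ : Fin n → ℚ) (k : Fin n) (e : Fin n → ℝ) (C g h : ℝ),
      (∀ z : Fin n → ℚ, z ≠ 0 → ∀ᶠ l in (𝒰 : Filter ℕ), ∑ i, z i * (φ i l : ℚ) ≠ 0) → γ k ≠ 0 →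
      (∀ᶠ l in (𝒰 : Filter ℕ), (L l : ℚ) = ∑ i, γ i * (φ i l : ℚ)) →
      (∀ i, ∀ᶠ l in (𝒰 : Filter ℕ), Real.log |(φ i l : ℝ)| ≤ C * T l) →
      (∀ i, i ≠ k → ∀ᶠ l in (𝒰 : Filter ℕ),
        Real.log |(φ i l : ℝ)| + ∑ v, SubQ.lv q (some v) (φ i l) ≤ e i * T l) →
      (∀ᶠ l in (𝒰 : Filter ℕ), ∑ v, SubQ.lv q (some v) (φ k l) ≤ -(g * T l)) →
      (∀ᶠ l in (𝒰 : Filter ℕ), Real.log |(L l : ℝ)| ≤ h * T l) →
      ∑ i ∈ Finset.univ.erase k, e i + h < g → False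

/-- (sub0) Proof: `S_basis` for the family `t` (as rationals) gives `e' : Fin d → ι`; basis elements are nonzero
along `𝒰`.  CASE 1: for every `γ` along `𝒰` `u ≠ ∑ γ i t (e' i)`.  Then `(u, t ∘ e')` is generic of length `d + 1`;
`L = ∑ t - u = ∑ γ i t (e' i) - u` for some `γ`; `S_core` with `k = 0`, `g = 1`, `h = 1 - κ` (`|u| ≤ |L| + ∑ |t|`
gives the bound `C' T`).  CASE 2: `u = ∑ γ' i t (e' i)` along `𝒰`, so `L = ∑ γ i t (e' i)` with some `γ k ≠ 0`;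
`S_core` with this `k`, `g = 1 - e (e' k)`, `h = 1 - κ`.  In both cases the sum is at most `∑ e - κ < 0`
(`e ≥ 0`, `e'` injective). -/
def S_sub0 : Prop :=
  ∀ (ι : Type) (_ : Fintype ι) (s : ℕ) (q : Fin s → ℕ), SubQ.Pls q →
    ∀ (𝒰 : Ultrafilter ℕ) (T : ℕ → ℝ), Tendsto T 𝒰 atTop →
    ∀ (t : ι → ℕ → ℤ) (u : ℕ → ℤ) (e : ι → ℝ) (κ C : ℝ), (∀ i, 0 ≤ e i) → ∑ i, e i < κ →
      (∀ i, ∀ᶠ l in (𝒰 : Filter ℕ), t i l ≠ 0 → T l ≤ Real.log |(t i l : ℝ)| ∧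
        Real.log |(t i l : ℝ)| ≤ C * T l ∧
        Real.log |(t i l : ℝ)| + ∑ v, SubQ.lv q (some v) (t i l) ≤ e i * T l) →
      (∀ᶠ l in (𝒰 : Filter ℕ), u l ≠ 0 → ∑ v, SubQ.lv q (some v) (u l) ≤ -T l) →
      (∀ᶠ l in (𝒰 : Filter ℕ), ∑ i, t i l - u l ≠ 0 ∧
        Real.log |((∑ i, t i l - u l : ℤ) : ℝ)| ≤ (1 - κ) * T l) → False

/-- (sub) The main Diophantine statement.  Proof: otherwise the set of bad `N` is infinite; let `𝒰` be an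
ultrafilter containing it and `atTop`; choose the data as functions of `N`, `T N = N log b`; `q` enumerates the
primes dividing `b c`; `ι = Fin (R+1) × Bool`, `t (s, true) = q₁ A s b^(α s) c^J`, `t (s, false) = - q₂ A s b^(α s) c^I`.
A nonzero `t` has absolute value at least `c^I ≥ b^N`, at most `b^(C' N)` (`C' = C + 2 + ε + 2 η`), and
`log |t| - ∑ v_p(t) log p ≤ log |q_j A s|`: the weight is `e (0, ·) = ε + 2 η`, `e (s, ·) = 2 η` otherwise.  `u` is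
divisible by `b^N`, so `∑ v_p(u) log p ≥ N log b` if `u ≠ 0`.  `S_sub0`. -/
def S_sub : Prop :=
  ∀ (b c R : ℕ) (κ C ε η : ℝ), 2 ≤ b → 2 ≤ c → 0 ≤ ε → 0 ≤ η → 2 * ε + 4 * η + 4 * R * η < κ →
    ∀ᶠ N : ℕ in atTop, ∀ (D : ℕ) (Y : ℤ) (A : Fin (R + 1) → ℤ) (α : Fin (R + 1) → ℕ),
      Rep b R ε η N D Y A α → ∀ (q₁ q₂ u : ℤ) (I J : ℕ), (b : ℝ) ^ N ≤ (c : ℝ) ^ I → I ≤ J →
        (c : ℝ) ^ J ≤ (b : ℝ) ^ (C * N) → (|q₁| : ℝ) ≤ (b : ℝ) ^ (η * N) →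
        (|q₂| : ℝ) ≤ (b : ℝ) ^ (η * N) → (b : ℤ) ^ N ∣ u →
        (q₁ * (c : ℤ) ^ J - q₂ * (c : ℤ) ^ I) * (D * Y) - u ≠ 0 →
        (|(q₁ * (c : ℤ) ^ J - q₂ * (c : ℤ) ^ I) * (D * Y) - u| : ℝ) ≤ (b : ℝ) ^ ((1 - κ) * N) → False

/-- (kp) The key statement.  Proof: `p, ε₀', ε₁` from `S_nv`; `ε₀ = min ε₀' (ρ/2)`.  Given `δ`:
`m₀ = min (ρ/2) δ`, `κ = m₀/2`, `ε = κ/8`, `R` from `S_trans` for `ε`, `η₁` with `2ε + 4η₁ + 4Rη₁ < κ`,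
`η₁ ≤ m₀/8`; `η ≤ min(η', η₁, ε₁, η'_val)` where `η'` is from `S_trans` for `η₁` and `η'_val` from `S_val` for
`ε₁` (note `Tr` and the bounds are monotone in `η`).  `L' = (q₁c^J - q₂c^I) Y - q b^N B`
`= (q₁c^J - q₂c^I)(Y - q b^N x) + q b^N ((q₁c^J - q₂c^I) x - B)`; `c^J ≤ c^((1+ε₀)M) ≤ (c b^N)^(1+ε₀)`;
`|L'| ≤ 2 c^(1+ε₀) b^((1+ε₀+η-ρ)N) + b^((1+η-δ)N)`, `D ≤ b^(η₁ N)`, `|D L'| ≤ b^((1-κ)N)` for large `N`.
`L' ≠ 0` by `S_nv` (`Y ≠ 0` because `b ∤ Y`), `u = D q b^N B`.  `S_sub` with `C = 2 (1 + ε₀) + 1` or larger. -/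
def S_kp : Prop :=
  ∀ (b c : ℕ) (x : ℝ), 2 ≤ b → 2 ≤ c → Indep b c → Simple b x → ∀ ρ > (0 : ℝ), ∃ ε₀ > (0 : ℝ),
    ∀ δ > (0 : ℝ), ∃ η > (0 : ℝ), ∀ᶠ N : ℕ in atTop, ∀ (q : ℕ) (Y : ℤ), Tr b x ρ η N q Y →
      ∀ M : ℕ, (b : ℝ) ^ N ≤ (c : ℝ) ^ M → (c : ℝ) ^ M ≤ c * (b : ℝ) ^ N →
        ∀ (q₁ q₂ B : ℤ) (I J : ℕ), M ≤ I → I ≤ J → (J : ℝ) ≤ (1 + ε₀) * M →
          (|q₁| : ℝ) ≤ (b : ℝ) ^ (η * N) → (|q₂| : ℝ) ≤ (b : ℝ) ^ (η * N) →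
          q₁ * (c : ℤ) ^ J ≠ q₂ * (c : ℤ) ^ I →
          ¬ |((q₁ : ℝ) * (c : ℝ) ^ J - q₂ * (c : ℝ) ^ I) * x - B| ≤ (b : ℝ) ^ (-(δ * N))

/-- (f1) Not simple in two independent bases.  Proof: `ρ` from `S_tfreq`, `ε₀` from `S_kp`.  Suppose `Simple c x`;
with `ε = 1/(1 + ε₀)` it gives `R` (`R ≥ 1`).  Let `δ = ε₀/(4R)`, `η` from `S_kp`, and `η₁` small:
`η₁ ≤ ε₀/(4R(1+ε₀))`, `η₁ (1+ε₀) ≤ η/2`.  Take a transition `N` (large), `M` the least number with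
`b^N ≤ c^M` (so `c^M ≤ c b^N`), `N' = ⌊(1+ε₀)M⌋`; the chain for `Simple c x` at the scale `N'` with `η₁` covers
`(M, N']` (`a 0 ≤ N'/(1+ε₀) ≤ M`), so one piece has a part of length `≥ (N' - M)/R` in it, from `I = max (a s) M` to
`min (a (s+1)) N'`.  Then `|q c^I x - A'| ≤ q c^(-(N'-M)/R) ≤ b^(-δ N)` (`c^M ≥ b^N`), `q ≤ c^(η₁ N') ≤ b^(η N)`;
apply `S_kp` with `q₁ = q`, `q₂ = 0`, `J = I`. -/
def S_f1 : Prop :=
  ∀ (b c : ℕ) (x : ℝ), 2 ≤ b → 2 ≤ c → Indep b c → Irrational x → Simple b x → ¬ Simple c x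

/-- (f2) Proof: suppose `complexity c x n ≤ C n` for all large `n`.  `ρ` from `S_tfreq`, `ε₀` from `S_kp`,
`δ = ε₀/(2(C+1))`, `η` from `S_kp`; transition `N`, `M` as in `S_f1`, `n = ⌊ε₀ M/(C+1)⌋`; `S_pig` and `S_digits`
give `M ≤ I < J ≤ M + C n ≤ (1+ε₀) M` with `|(c^J - c^I) x - B| ≤ c^(-n) ≤ c b^(-ε₀N/(C+1)) ≤ b^(-δN)`;
`S_kp` with `q₁ = q₂ = 1`. -/
def S_f2 : Prop :=
  ∀ (b c : ℕ) (x : ℝ), 2 ≤ b → 2 ≤ c → Indep b c → Irrational x → Simple b x →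
    ∀ C : ℕ, ∃ᶠ n : ℕ in atTop, C * n < complexity c x n

/-- (f3) Proof: `κ` from `S_t3`, `ρ` and `κ'` from `S_t1` (for `κ`), `ε₀` from `S_kp`, `δ = ε₀ κ'/(4 (C+1))`, `η`
from `S_kp`, then `S_t1` for `η`.  Let `n` be large with `complexity c x n ≤ C n`.  `β = log b / log c`;
`N₁ = ⌈(C+1) n/(ε₀ κ' β)⌉`; a transition `N` with `κ' N₁ ≤ N ≤ 2 N₁`; `M` the least number with `b^N ≤ c^M`, so
`M ≥ β N ≥ (C+1) n/ε₀`, hence `M + C n ≤ (1+ε₀) M`; `N ≤ 2 N₁ ≤ 2(C+1) n/(ε₀κ'β) + 2`, so `c^(-n) ≤ b^(-δN)`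
(`n log c = n log b / β ≥ δ N log b` for large `n`).  `S_pig`, `S_digits`, `S_kp` as in `S_f2`. -/
def S_f3 : Prop :=
  ∀ (b c : ℕ) (x : ℝ), 2 ≤ b → 2 ≤ c → Indep b c → Irrational x → Simple b x → ¬ Liouville x →
    ∀ C : ℕ, ∀ᶠ n : ℕ in atTop, C * n < complexity c x n

/-! ## Examples -/

/-- `x` has the break points `g k` and the approximations `A k / q k` -/
def Breaks (b : ℕ) (x : ℝ) (g q : ℕ → ℕ) (A : ℕ → ℤ) : Prop :=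
  Tendsto g atTop atTop ∧ (∀ᶠ k in atTop, 3 * g k ≤ 2 * g (k + 1)) ∧ (∀ k, 1 ≤ q k) ∧
    (∀ η > (0 : ℝ), ∀ᶠ k in atTop, (q k : ℝ) ≤ (b : ℝ) ^ (η * g k)) ∧
    ∀ᶠ k in atTop, |(b : ℝ) ^ g k * x - A k / q k| ≤ b * ((b : ℝ) ^ (g (k + 1) - g k))⁻¹

/-- (breaks) Proof: use `g' k = g k - 1`, `q' k = b q k`: `b^(g k - 1) x` is within `b^(-(g (k+1) - g k))` of
`A k / (b q k)`.  Given `ε` let `R` be such that `(3/2)^(R-1) ≥ 2/ε` (and `R ≥ 1`).  For large `N` let `k` be the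
largest index with `g' k ≤ ε N` (and `k ≥ k₀`: all asymptotic inequalities hold from `k₀` on), `a s = min (g' (k+s)) N`.
`g' (k+R) ≥ (3/2)^(R-1) g' (k+1) - ... ≥ N`.  Pieces with `g' (k+s) ≥ N` are empty (`q = 1`), the others have
`q' (k+s) ≤ b^(η g (k+s) ) ≤ b^(η' N)`. -/
def S_breaks : Prop :=
  ∀ (b : ℕ) (x : ℝ) (g q : ℕ → ℕ) (A : ℕ → ℤ), 2 ≤ b → Breaks b x g q A → Simple b x

/-- (irr) Irrationality.  Proof: `r k = A k / (q k b^(g k))`, `|x - r k| ≤ b^(1 - g (k+1))`.  If `x = a/Q` then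
`|x - r k| < 1/(Q q k b^(g k))` for large `k` (`g (k+1) ≥ 3/2 g k`, `q k ≤ b^(g k / 8)`), so `x = r k` for all large
`k`, which contradicts `r k ≠ r (k+1)`. -/
def S_irr : Prop :=
  ∀ (b : ℕ) (x : ℝ) (g q : ℕ → ℕ) (A : ℕ → ℤ), 2 ≤ b → Breaks b x g q A →
    (∀ᶠ k in atTop, (A k : ℝ) / (q k * (b : ℝ) ^ g k) ≠ A (k + 1) / (q (k + 1) * (b : ℝ) ^ g (k + 1))) →
    Irrational x

/-- (nonL) Not a Liouville number.  Proof: `Liouville.frequently_exists_num`: for every `m` there are arbitrarily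
large `Q` and `a` with `x ≠ a/Q`, `|x - a/Q| < Q^(-m)`.  Let `k` be the least index `≥ k₀` with `Q ≤ b^(g k / 8)` (real
exponent); if `k > k₀` then `g (k-1) < 8 log_b Q`, so `g (k+2) ≤ 8 C^3 log_b Q`.  One of `r k`, `r (k+1)` is not
`a/Q`, say `r j`: `1/(Q q j b^(g j)) ≤ |a/Q - r j| ≤ |x - a/Q| + b^(1 - g (j+1))` and the last term is at most half
of the left side, so `|x - a/Q| ≥ 1/(2 Q q j b^(g j)) ≥ b^(-g (j+1)) ≥ Q^(-8 C^3)`.  Contradiction for `m > 8 C^3`. -/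
def S_nonL : Prop :=
  ∀ (b C : ℕ) (x : ℝ) (g q : ℕ → ℕ) (A : ℕ → ℤ), 2 ≤ b → Breaks b x g q A →
    (∀ᶠ k in atTop, (A k : ℝ) / (q k * (b : ℝ) ^ g k) ≠ A (k + 1) / (q (k + 1) * (b : ℝ) ^ g (k + 1))) →
    (∀ᶠ k in atTop, g (k + 1) ≤ C * g k) → ¬ Liouville x

/-- (lac) Lacunary sums.  Proof: `q k = 1`, `A k = ∑ j ≤ k, b^(g k - g j)`;
`b^(g k) x - A k = ∑ j > k, b^(g k - g j) ≤ 2 b^(-(g (k+1) - g k))`; `r (k+1) - r k = b^(-g (k+1)) ≠ 0`.  Then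
`S_breaks`, `S_irr`, `S_nonL` (hypotheses of the theorem). -/
def S_lac : Prop :=
  ∀ (b : ℕ) (g : ℕ → ℕ), 2 ≤ b → StrictMono g → (∀ᶠ k in atTop, 3 * g k ≤ 2 * g (k + 1)) →
    Simple b (∑' k, ((b : ℝ) ^ g k)⁻¹) ∧ Irrational (∑' k, ((b : ℝ) ^ g k)⁻¹) ∧
      ∀ C : ℕ, (∀ᶠ k in atTop, g (k + 1) ≤ C * g k) → ¬ Liouville (∑' k, ((b : ℝ) ^ g k)⁻¹)

/-- the number of decimal digits of `1, 2, ..., n` together -/
def champLen (n : ℕ) : ℕ := ∑ m ∈ Finset.range n, (Nat.digits 10 (m + 1)).length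

/-- Champernowne's number `0.123456789101112...` -/
noncomputable def champ : ℝ := ∑' n : ℕ, ((n : ℝ) + 1) / (10 : ℝ) ^ champLen (n + 1)

/-- (champ) Champernowne's number.  Proof: `g k = champLen (10^k - 1)` (`g (k+1) = g k + 9 (k+1) 10^k`), on
`(g k, g (k+1)]` stand the numbers with `k + 1` digits.  With `z = 10^(-(k+1))`: `10^(g k) x` minus an integer is
`∑_(j < 9·10^k) (10^k + j) z^(j+1)` plus a tail in `[0, 10^(-(g (k+1) - g k))]`, and the full series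
`∑_(j ≥ 0) (10^k + j) z^(j+1) = 10^k z/(1-z) + z²/(1-z)²` has the denominator `q k = (10^(k+1) - 1)²`; its own
tail from `j = 9·10^k` on is between `0` and `2 · 10^(-(g (k+1) - g k))`.  So `Breaks` holds (`10 g k ≤ g (k+1)` roughly,
`g (k+1) ≤ 30 g k` for `k ≥ 1`).  `r k ≠ r (k+1)`: multiply by `10^(g (k+1))`: modulo integers the first is
`z'/(1-z') + z'^2/(1-z')²·10^0...` i.e. the fractional part of `∑_(j≥0) (10^(k+1) + j) 10^(-(k+1)(j+1))`, which is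
`≤ 2 · 10^(-(k+1))`, the second is the fractional part of `∑_(j≥0) (10^(k+1) + j) 10^(-(k+2)(j+1))`, which is between
`1/10` and `1/5`. -/
def S_champ : Prop :=
  ∃ (g q : ℕ → ℕ) (A : ℕ → ℤ), Breaks 10 champ g q A ∧
    (∀ᶠ k in atTop,
      (A k : ℝ) / (q k * (10 : ℝ) ^ g k) ≠ A (k + 1) / (q (k + 1) * (10 : ℝ) ^ g (k + 1))) ∧
    ∀ᶠ k in atTop, g (k + 1) ≤ 30 * g k

/-- (aut) Automatic sequences have linear complexity (Cobham).  Proof: let `k^r` be the least power of `k` above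
`n`, so `k^r ≤ k n`.  For `m = k^r a + j`, `j < k^r`, `a ≥ 1`: the digits of `m` are those of `a` followed by the `r`
digits of `j` (with leading zeros), so the state is a function of the state at `a` and of `j`.  The word of length
`n` at `m` is determined by the states at `a` and `a + 1` and by `j`: at most `|Q|² k^r` words; the places with
`a = 0` give at most `k^r` more. -/
def S_aut : Prop :=
  ∀ (k c : ℕ) (x : ℝ), 2 ≤ k → 2 ≤ c → Automatic k (fun m => digit c x (m + 1)) →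
    ∃ C : ℕ, ∀ n, 1 ≤ n → complexity c x n ≤ C * n

/-- (final) From everything above. -/
def S_main : Prop :=
  (∀ (b c : ℕ) (x : ℝ), 2 ≤ b → 2 ≤ c → Indep b c → Irrational x → Simple b x →
    ¬ Simple c x ∧ (∀ C : ℕ, ∃ᶠ n : ℕ in atTop, C * n < complexity c x n) ∧
      (¬ Liouville x → Tendsto (fun n => (complexity c x n : ℝ) / n) atTop atTop) ∧
      ∀ k : ℕ, 2 ≤ k → ¬ Automatic k (fun m => digit c x (m + 1))) ∧
  (∀ (b : ℕ) (g : ℕ → ℕ), 2 ≤ b → StrictMono g → (∀ᶠ k in atTop, 3 * g k ≤ 2 * g (k + 1)) →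
    Simple b (∑' k, ((b : ℝ) ^ g k)⁻¹) ∧ Irrational (∑' k, ((b : ℝ) ^ g k)⁻¹) ∧
      ∀ C : ℕ, (∀ᶠ k in atTop, g (k + 1) ≤ C * g k) → ¬ Liouville (∑' k, ((b : ℝ) ^ g k)⁻¹)) ∧
  Simple 10 champ ∧ Irrational champ ∧ ¬ Liouville champ

end Pool.Agent.Lib.MP_acd137_lc
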