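import Pool.Agent.Lib.MP_acd137_lc.Spec

/-!
# MP_acd137_lc, second part: break points with any ratio `lam > 1` and a constant loss
(so that the class of helper90's hand-in `LacunaryTwoBases` is contained in `Simple`)
-/

set_option autoImplicit false

namespace Pool.Agent.Lib.MP_acd137_lc

open Filter Topology

/-- `x` has the break points `g k` (ratios at least `lam`) and the approximations `A k / q k` -/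
def Breaks2 (b : ℕ) (x lam : ℝ) (g q : ℕ → ℕ) (A : ℕ → ℤ) : Prop :=
  Tendsto g atTop atTop ∧ (∀ᶠ k in atTop, lam * g k ≤ (g (k + 1) : ℝ)) ∧ (∀ k, 1 ≤ q k) ∧
    (∀ η > (0 : ℝ), ∀ᶠ k in atTop, (q k : ℝ) ≤ (b : ℝ) ^ (η * g k)) ∧
    ∃ K : ℕ, ∀ᶠ k in atTop,
      |(b : ℝ) ^ g k * x - A k / q k| ≤ (b : ℝ) ^ K * ((b : ℝ) ^ (g (k + 1) - g k))⁻¹

/-- (breaks2) As `S_breaks`, with `g' k = g k - K`, `q' k = b^K q k` and `lam^(R-1) ≥ 2/ε`. -/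
def S_breaks2 : Prop :=
  ∀ (b : ℕ) (x lam : ℝ) (g q : ℕ → ℕ) (A : ℕ → ℤ), 2 ≤ b → 1 < lam → Breaks2 b x lam g q A →
    Simple b x

/-- (irr2) As `S_irr`. -/
def S_irr2 : Prop :=
  ∀ (b : ℕ) (x lam : ℝ) (g q : ℕ → ℕ) (A : ℕ → ℤ), 2 ≤ b → 1 < lam → Breaks2 b x lam g q A →
    (∀ᶠ k in atTop, (A k : ℝ) / (q k * (b : ℝ) ^ g k) ≠ A (k + 1) / (q (k + 1) * (b : ℝ) ^ g (k + 1))) →
    Irrational x

/-- (nonL2) As `S_nonL`. -/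
def S_nonL2 : Prop :=
  ∀ (b : ℕ) (x lam C : ℝ) (g q : ℕ → ℕ) (A : ℕ → ℤ), 2 ≤ b → 1 < lam → Breaks2 b x lam g q A →
    (∀ᶠ k in atTop, (A k : ℝ) / (q k * (b : ℝ) ^ g k) ≠ A (k + 1) / (q (k + 1) * (b : ℝ) ^ g (k + 1))) →
    (∀ᶠ k in atTop, (g (k + 1) : ℝ) ≤ C * g k) → ¬ Liouville x

/-- (genA) Lacunary sums with bounded coefficients.  Proof: `q k = h`,
`A k = u b^(m k) + ∑ i ≤ k, e i b^(m k - m i)`; `h b^(m k) x - A k = ∑ i > k, e i b^(m k - m i)` has absolute value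
`≤ 2 D b^(-(m (k+1) - m k))`, `r (k+1) - r k = e (k+1) / (h b^(m (k+1))) ≠ 0`. -/
def S_genA : Prop :=
  ∀ (b : ℕ) (m : ℕ → ℕ) (lam x : ℝ) (h D : ℕ) (u : ℤ) (e : ℕ → ℤ), 2 ≤ b → StrictMono m → 1 < lam →
    (∀ᶠ i in atTop, lam * m i ≤ (m (i + 1) : ℝ)) → 0 < h → (∀ i, e i ≠ 0 ∧ |e i| ≤ D) →
    (h : ℝ) * x = u + ∑' i, (e i : ℝ) / (b : ℝ) ^ m i →
    ∃ (q : ℕ → ℕ) (A : ℕ → ℤ), Breaks2 b x lam m q A ∧
      ∀ᶠ k in atTop, (A k : ℝ) / (q k * (b : ℝ) ^ m k) ≠ A (k + 1) / (q (k + 1) * (b : ℝ) ^ m (k + 1))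

/-- (genB) The digits of `x` change exactly at the places of a lacunary sequence: then `(b-1) x` is a
lacunary sum as in `S_genA` (`of_changes` in `TB/Changes` of helper90: `h = b - 1`; drop `m 0` if it is
`0`). -/
def S_genB : Prop :=
  ∀ (b : ℕ) (m : ℕ → ℕ) (lam x : ℝ), 2 ≤ b → StrictMono m → 1 < lam →
    (∀ᶠ i in atTop, lam * m i ≤ (m (i + 1) : ℝ)) →
    (∀ k, 1 ≤ k → (digit b x k ≠ digit b x (k + 1) ↔ k ∈ Set.range m)) →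
    ∃ (m' : ℕ → ℕ) (h D : ℕ) (u : ℤ) (e : ℕ → ℤ), StrictMono m' ∧
      (∀ᶠ i in atTop, lam * m' i ≤ (m' (i + 1) : ℝ)) ∧ 0 < h ∧ (∀ i, e i ≠ 0 ∧ |e i| ≤ D) ∧
      (h : ℝ) * x = u + ∑' i, (e i : ℝ) / (b : ℝ) ^ m' i ∧
      ∀ C : ℝ, (∀ᶠ i in atTop, (m (i + 1) : ℝ) ≤ C * m i) → ∀ᶠ i in atTop, (m' (i + 1) : ℝ) ≤ C * m' i

end Pool.Agent.Lib.MP_acd137_lc
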