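import Pool.Agent.Lib.MP_acd137_lc.Spec

set_option autoImplicit false

namespace Pool.Agent.Lib.MP_acd137_lc

open Filter Topology

private lemma large_pow (b : ℕ) (hb : 2 ≤ b) (η : ℝ) (hη : 0 < η) :
    ∀ᶠ N : ℕ in atTop, (2 : ℝ) ≤ (b : ℝ) ^ (η * N) := by
  obtain ⟨n, hn⟩ := exists_nat_gt (1 / η)
  filter_upwards [eventually_ge_atTop n] with N hN
  have hb1 : (2 : ℝ) ≤ b := by exact_mod_cast hb
  have h1 : (1 : ℝ) ≤ η * N := by
    have h2 : 1 / η < N := lt_of_lt_of_le hn (by exact_mod_cast hN)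
    rw [div_lt_iff₀ hη] at h2
    linarith
  calc (2 : ℝ) ≤ (b : ℝ) ^ (1 : ℝ) := by rw [Real.rpow_one]; exact hb1
    _ ≤ (b : ℝ) ^ (η * N) := Real.rpow_le_rpow_of_exponent_le (by linarith) h1

theorem tTrans : S_struct → S_trans := by
  intro hS b x hb hx ε hε
  obtain ⟨R, hR⟩ := hS b x hb hx ε hε
  refine ⟨R + 1, ?_⟩
  intro η hη
  refine ⟨η / 4, by positivity, ?_⟩
  intro ρ hρ
  filter_upwards [hR (η / 4) (by positivity), large_pow b hb (η / 4) (by positivity)] with N h1 h2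
  intro q Y hY
  obtain ⟨hq1, hq2, hq3, hq4⟩ := hY
  obtain ⟨D, A, α, hD1, hD2, hA0, hA, hα, hα0, hsum⟩ := h1
  have hb1 : (1 : ℝ) ≤ b := by exact_mod_cast (by omega : 1 ≤ b)
  have hb0 : (0 : ℝ) < b := by linarith
  have hN0 : (0 : ℝ) ≤ N := Nat.cast_nonneg N
  have hqR : (1 : ℝ) ≤ q := by exact_mod_cast hq1
  have hDR : (1 : ℝ) ≤ D := by exact_mod_cast hD1
  set V : ℤ := Y - q * pre b x N with hV
  -- the bound on V
  have hVb : (|V| : ℝ) ≤ 2 * q := by
    have e1 : (V : ℝ) = -((q : ℝ) * (b : ℝ) ^ N * x - Y) + q * Int.fract ((b : ℝ) ^ N * x) := by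
      rw [hV]
      unfold pre
      push_cast
      rw [← Int.self_sub_floor]
      ring
    have e2 : (b : ℝ) ^ (-(ρ * N)) ≤ 1 := by
      apply Real.rpow_le_one_of_one_le_of_nonpos hb1
      have : 0 ≤ ρ * N := by positivity
      linarith
    have e3 : |(q : ℝ) * Int.fract ((b : ℝ) ^ N * x)| ≤ q := by
      rw [abs_of_nonneg (mul_nonneg (by linarith) (Int.fract_nonneg _))]
      have := (Int.fract_lt_one ((b : ℝ) ^ N * x)).le
      nlinarith [Int.fract_nonneg ((b : ℝ) ^ N * x)]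
    rw [e1]
    have e4 := abs_add_le (-((q : ℝ) * (b : ℝ) ^ N * x - Y)) (q * Int.fract ((b : ℝ) ^ N * x))
    rw [abs_neg] at e4
    linarith
  have hp2 : (b : ℝ) ^ (η / 4 * N) * (b : ℝ) ^ (η / 4 * N) ≤ (b : ℝ) ^ (η * N) := by
    rw [← Real.rpow_add hb0]
    apply Real.rpow_le_rpow_of_exponent_le hb1
    nlinarith [mul_nonneg hη.le hN0]
  have hp3 : (b : ℝ) ^ (η / 4 * N) * (b : ℝ) ^ (η / 4 * N) * (b : ℝ) ^ (η / 4 * N) ≤ (b : ℝ) ^ (η * N) := by
    rw [← Real.rpow_add hb0, ← Real.rpow_add hb0]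
    apply Real.rpow_le_rpow_of_exponent_le hb1
    nlinarith [mul_nonneg hη.le hN0]
  have hp4 : (b : ℝ) ^ (η / 4 * N) * (b : ℝ) ^ ((ε + η / 4) * N) ≤ (b : ℝ) ^ ((ε + η) * N) := by
    rw [← Real.rpow_add hb0]
    apply Real.rpow_le_rpow_of_exponent_le hb1
    nlinarith [mul_nonneg hη.le hN0]
  have hp0 : (0 : ℝ) < (b : ℝ) ^ (η / 4 * N) := Real.rpow_pos_of_pos hb0 _
  refine ⟨D, Fin.snoc (fun s => (q : ℤ) * A s) ((D : ℤ) * V), Fin.snoc α 0, hD1, ?_, ?_, ?_, ?_, ?_, ?_⟩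
  · refine hD2.trans ?_
    apply Real.rpow_le_rpow_of_exponent_le hb1
    nlinarith [mul_nonneg hη.le hN0]
  · have e0 : (Fin.snoc (fun s => (q : ℤ) * A s) ((D : ℤ) * V) : Fin (R + 1 + 1) → ℤ) 0 = q * A 0 := by
      have : (0 : Fin (R + 1 + 1)) = Fin.castSucc 0 := rfl
      rw [this, Fin.snoc_castSucc]
    rw [e0]
    push_cast
    rw [abs_mul, abs_of_nonneg (by linarith : (0 : ℝ) ≤ q)]
    refine le_trans ?_ hp4
    exact mul_le_mul hq2 hA0 (abs_nonneg _) hp0.le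
  · intro s
    refine Fin.lastCases ?_ ?_ s
    · intro _
      rw [Fin.snoc_last]
      push_cast
      rw [abs_mul, abs_of_nonneg (by linarith : (0 : ℝ) ≤ D)]
      refine le_trans ?_ hp3
      calc (D : ℝ) * |(V : ℝ)| ≤ (b : ℝ) ^ (η / 4 * N) * (2 * q) :=
            mul_le_mul hD2 hVb (abs_nonneg _) hp0.le
        _ ≤ (b : ℝ) ^ (η / 4 * N) * ((b : ℝ) ^ (η / 4 * N) * (b : ℝ) ^ (η / 4 * N)) := by
            apply mul_le_mul_of_nonneg_left _ hp0.le
            exact mul_le_mul h2 hq2 (by linarith) hp0.le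
        _ = _ := by ring
    · intro t ht
      have ht0 : t ≠ 0 := by
        intro h
        apply ht
        rw [h]
        rfl
      rw [Fin.snoc_castSucc]
      push_cast
      rw [abs_mul, abs_of_nonneg (by linarith : (0 : ℝ) ≤ q)]
      refine le_trans ?_ hp2
      exact mul_le_mul hq2 (hA t ht0) (abs_nonneg _) hp0.le
  · intro s
    refine Fin.lastCases ?_ ?_ s
    · rw [Fin.snoc_last]; exact Nat.zero_le _
    · intro t
      rw [Fin.snoc_castSucc]; exact hα t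
  · have e0 : (Fin.snoc α 0 : Fin (R + 1 + 1) → ℕ) 0 = α 0 := by
      have : (0 : Fin (R + 1 + 1)) = Fin.castSucc 0 := rfl
      rw [this, Fin.snoc_castSucc]
    rw [e0]
    exact hα0
  · rw [Fin.sum_univ_castSucc]
    simp only [Fin.snoc_castSucc, Fin.snoc_last]
    have e1 : ∑ i : Fin (R + 1), (q : ℤ) * A i * (b : ℤ) ^ α i = q * (D * pre b x N) := by
      rw [hsum, Finset.mul_sum]
      apply Finset.sum_congr rfl
      intro i _
      ring
    rw [e1, hV]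
    ring

end Pool.Agent.Lib.MP_acd137_lc
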